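import Pool.Agent.H758.SQ.Defs

/-!
# SQ/G2 (helper333 for helper758): every odd vector is congruent to a vector with entries `±1`
modulo two cuts and two flows
-/

set_option autoImplicit false

namespace Pool.Agent.H758.SQ

open Finset Matrix
open Pool.Agent.H762.TG (Multigraph)

section

variable {V E : Type} [DecidableEq V] [Fintype E] [DecidableEq E]

omit [Fintype E] [DecidableEq E] in
theorem g2_sign {o : E → ℤ} (ho : ∀ g, o g = 1 ∨ o g = -1) (g : E) : (o g).sign = o g := by
  rcases ho g with h | h <;> rw [h] <;> rfl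

theorem g2_bd (G : Multigraph V E) {o : E → ℤ} (ho : ∀ g, o g = 1 ∨ o g = -1) (g : E) (z : V) :
    G.bd (Pi.single g (o g)) z =
      (if z = G.hd o g then 1 else 0) - (if z = G.tl o g then 1 else 0) := by
  have h := G.bd_sign o g (by rcases ho g with h | h <;> rw [h] <;> decide) z
  rw [g2_sign ho g] at h
  exact h

theorem g2_reach (G : Multigraph V E) {o : E → ℤ} (ho : ∀ g, o g = 1 ∨ o g = -1) {u v : V}
    (h : Relation.ReflTransGen (fun a b => ∃ g, G.tl o g = a ∧ G.hd o g = b) u v) :
    ∃ x : E → ℤ, (∀ g, 0 ≤ o g * x g) ∧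
      ∀ z, G.bd x z = (if z = v then 1 else 0) - (if z = u then 1 else 0) := by
  induction h with
  | refl => exact ⟨0, fun g => by simp, fun z => by simp [Multigraph.bd]⟩
  | tail _ hbc ih =>
    obtain ⟨x, hx, hb⟩ := ih
    obtain ⟨g, h1, h2⟩ := hbc
    refine ⟨x + Pi.single g (o g), fun f => ?_, fun z => ?_⟩
    · by_cases hf : f = g
      · subst hf
        rw [Pi.add_apply, Pi.single_eq_same, mul_add]
        have h3 := hx f
        have h4 := mul_self_nonneg (o f)
        linarith
      · rw [Pi.add_apply, Pi.single_eq_of_ne hf, add_zero]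
        exact hx f
    · rw [Multigraph.bd_add, Pi.add_apply, hb, g2_bd G ho, h1, h2]
      ring

/-- Minty -/
theorem g2_conf [Fintype V] (G : Multigraph V E) {o : E → ℤ} (ho : ∀ g, o g = 1 ∨ o g = -1)
    (e : E) : ∃ d : E → ℤ, (d ∈ G.cuts ∨ d ∈ G.flows) ∧ (∀ g, d g = 0 ∨ d g = o g) ∧
      d e = o e := by
  classical
  by_cases h : Relation.ReflTransGen (fun a b => ∃ g, G.tl o g = a ∧ G.hd o g = b)
    (G.hd o e) (G.tl o e)
  · obtain ⟨x, hx, hb⟩ := g2_reach G ho h
    obtain ⟨y, hy⟩ : ∃ y, y = x + Pi.single e (o e) := ⟨_, rfl⟩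
    have hfl : G.IsFlow y := by
      rw [hy, Multigraph.isFlow_iff]
      funext z
      rw [Multigraph.bd_add, Pi.add_apply, hb, g2_bd G ho, Pi.zero_apply]
      ring
    have hoo : o e * o e = 1 := by
      rcases ho e with h | h <;> rw [h] <;> rfl
    have hye : 1 ≤ o e * y e := by
      rw [hy, Pi.add_apply, Pi.single_eq_same, mul_add, hoo]
      have := hx e
      linarith
    have hsg : ∀ f, 0 ≤ o f * y f := by
      intro f
      by_cases hf : f = e
      · subst hf
        linarith
      · rw [hy, Pi.add_apply, Pi.single_eq_of_ne hf, add_zero]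
        exact hx f
    have hye0 : y e ≠ 0 := by
      intro h0
      rw [h0, mul_zero] at hye
      omega
    have key : ∀ f, y f ≠ 0 → (y f).sign = o f := by
      intro f hf
      have h1 := hsg f
      rcases ho f with h2 | h2
      · rw [h2, one_mul] at h1
        rw [h2]
        exact Int.sign_eq_one_of_pos (lt_of_le_of_ne h1 (Ne.symm hf))
      · rw [h2] at h1
        rw [h2]
        exact Int.sign_eq_neg_one_of_neg (lt_of_le_of_ne (by linarith) hf)
    obtain ⟨d, hd, hc, hde⟩ := G.exists_conf hfl hye0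
    refine ⟨d, Or.inr hd, fun g => ?_, ?_⟩
    · rcases hc g with h1 | h1
      · exact Or.inl h1
      · by_cases h2 : y g = 0
        · left
          rw [h1, h2]
          rfl
        · right
          rw [h1, key g h2]
    · rw [hde, key e hye0]
  · obtain ⟨W, hW⟩ : ∃ W : V → Prop, W = fun v => Relation.ReflTransGen
      (fun a b => ∃ g, G.tl o g = a ∧ G.hd o g = b) (G.hd o e) v := ⟨_, rfl⟩
    have hW0 : W (G.hd o e) := by
      rw [hW]
    have hW1 : ¬ W (G.tl o e) := by
      rw [hW]
      exact h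
    have hcl : ∀ g, W (G.tl o g) → W (G.hd o g) := by
      intro g hg
      rw [hW] at hg ⊢
      exact Relation.ReflTransGen.tail hg ⟨g, rfl, rfl⟩
    refine ⟨G.cut (fun v => if W v then 1 else 0), Or.inl (G.mem_cuts.2 ⟨_, rfl⟩), fun g => ?_, ?_⟩
    · have h1 := hcl g
      simp only [Multigraph.hd, Multigraph.tl] at h1
      simp only [Multigraph.cut]
      rcases ho g with h2 | h2
      · rw [h2, if_pos one_pos, if_pos one_pos] at h1
        rw [h2]
        by_cases a : W (G.tgt g)
        · by_cases b : W (G.src g)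
          · left; rw [if_pos a, if_pos b]; rfl
          · right; rw [if_pos a, if_neg b]; rfl
        · have b : ¬ W (G.src g) := fun b => a (h1 b)
          left; rw [if_neg a, if_neg b]; rfl
      · have h3 : ¬ (0 : ℤ) < -1 := by decide
        rw [h2, if_neg h3, if_neg h3] at h1
        rw [h2]
        by_cases a : W (G.src g)
        · by_cases b : W (G.tgt g)
          · left; rw [if_pos a, if_pos b]; rfl
          · right; rw [if_pos a, if_neg b]; rfl
        · have b : ¬ W (G.tgt g) := fun b => a (h1 b)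
          left; rw [if_neg a, if_neg b]; rfl
    · simp only [Multigraph.hd] at hW0
      simp only [Multigraph.tl] at hW1
      simp only [Multigraph.cut]
      rcases ho e with h2 | h2
      · rw [h2, if_pos one_pos] at hW0 hW1
        rw [h2, if_pos hW0, if_neg hW1]
        rfl
      · have h3 : ¬ (0 : ℤ) < -1 := by decide
        rw [h2, if_neg h3] at hW0 hW1
        rw [h2, if_pos hW0, if_neg hW1]
        rfl

theorem g2_descent [Fintype V] (G : Multigraph V E) : ∀ (n : ℕ) (z : E → ℤ), OddV z →
    ∑ f, (z f).natAbs ≤ n →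
    ∃ δ, Pm δ ∧ ∃ c ∈ G.cuts, ∃ f ∈ G.flows, z = δ + (2 : ℤ) • c + (2 : ℤ) • f := by
  intro n
  induction n with
  | zero =>
    intro z hz hn
    refine ⟨z, fun f => ?_, 0, G.cuts.zero_mem, 0, G.flows.zero_mem, by simp⟩
    have h1 : (z f).natAbs ≤ ∑ f, (z f).natAbs :=
      single_le_sum (f := fun f => (z f).natAbs) (fun i _ => Nat.zero_le _) (mem_univ f)
    obtain ⟨k, hk⟩ := hz f
    omega
  | succ n ih =>
    intro z hz hn
    by_cases hall : Pm z
    · exact ⟨z, hall, 0, G.cuts.zero_mem, 0, G.flows.zero_mem, by simp⟩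
    · unfold Pm at hall
      push Not at hall
      obtain ⟨e, h1, h2⟩ := hall
      have hz0 : ∀ f, z f ≠ 0 := by
        intro f h0
        obtain ⟨k, hk⟩ := hz f
        omega
      obtain ⟨o, ho'⟩ : ∃ o : E → ℤ, o = fun f => (z f).sign := ⟨_, rfl⟩
      have ho : ∀ g, o g = 1 ∨ o g = -1 := by
        intro g
        rw [ho']
        rcases lt_or_gt_of_ne (hz0 g) with h3 | h3
        · right; exact Int.sign_eq_neg_one_of_neg h3
        · left; exact Int.sign_eq_one_of_pos h3
      have hos : ∀ g, (0 < z g ∧ o g = 1) ∨ (z g < 0 ∧ o g = -1) := by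
        intro g
        rw [ho']
        rcases lt_or_gt_of_ne (hz0 g) with h3 | h3
        · right; exact ⟨h3, Int.sign_eq_neg_one_of_neg h3⟩
        · left; exact ⟨h3, Int.sign_eq_one_of_pos h3⟩
      obtain ⟨d, hd, hc, hde⟩ := g2_conf G ho e
      have hodd : OddV (z - (2 : ℤ) • d) := by
        intro f
        obtain ⟨k, hk⟩ := hz f
        refine ⟨k - d f, ?_⟩
        simp only [Pi.sub_apply, Pi.smul_apply, smul_eq_mul]
        omega
      have hle : ∀ f, ((z - (2 : ℤ) • d) f).natAbs ≤ (z f).natAbs := by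
        intro f
        simp only [Pi.sub_apply, Pi.smul_apply, smul_eq_mul]
        rcases hc f with h | h
        · rw [h]; simp
        · rcases hos f with ⟨h3, h4⟩ | ⟨h3, h4⟩
          · rw [h, h4]; omega
          · rw [h, h4]; omega
      have hlt : ((z - (2 : ℤ) • d) e).natAbs < (z e).natAbs := by
        simp only [Pi.sub_apply, Pi.smul_apply, smul_eq_mul]
        obtain ⟨k, hk⟩ := hz e
        rcases hos e with ⟨h3, h4⟩ | ⟨h3, h4⟩
        · rw [hde, h4]; omega
        · rw [hde, h4]; omega
      have hsum : ∑ f, ((z - (2 : ℤ) • d) f).natAbs < ∑ f, (z f).natAbs :=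
        sum_lt_sum (fun f _ => hle f) ⟨e, mem_univ e, hlt⟩
      obtain ⟨δ, hδ, c, hcm, f, hfm, he⟩ := ih _ hodd (by omega)
      rcases hd with hd | hd
      · refine ⟨δ, hδ, c + d, G.cuts.add_mem hcm hd, f, hfm, ?_⟩
        have h5 : z = (z - (2 : ℤ) • d) + (2 : ℤ) • d := by abel
        rw [h5, he, smul_add]
        abel
      · refine ⟨δ, hδ, c, hcm, f + d, G.flows.add_mem hfm hd, ?_⟩
        have h5 : z = (z - (2 : ℤ) • d) + (2 : ℤ) • d := by abel
        rw [h5, he, smul_add]
        abel

end

section G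

variable {V E : Type} [Fintype V] [DecidableEq V] [Fintype E] [DecidableEq E]

/-- **SQ/G2** -/
theorem cub_graph (G : Multigraph V E) : Cub G.cuts G.flows := by
  intro z hz
  exact g2_descent G _ z hz le_rfl

end G

end Pool.Agent.H758.SQ
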