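import Pool.Agent.H758.SQ.Defs

/-!
# Square-free and odd determinants (tasks G4 and G5 of project SQ of helper758), by helper71

`oddDet_of_odd`: if the determinant is odd then `2 z` in cuts + flows implies `z` in cuts + flows.
`aniso_of_squarefree`: if the determinant is square-free then the linking form is anisotropic.
-/

set_option autoImplicit false

namespace Pool.Agent.H758.SQ

open Finset Matrix
open Pool.Agent.H762.TG (Multigraph)

section

variable {E : Type} [Fintype E]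

omit [Fintype E] in
/-- the multiple of an element by the index is in the subgroup -/
theorem g5_index (A : AddSubgroup (E → ℤ)) (z : E → ℤ) : A.index • z ∈ A := A.nsmul_index_mem z

omit [Fintype E] in
/-- a multiple of a vector outside a lattice of finite index has prime order modulo the lattice -/
theorem g5_prime (A : AddSubgroup (E → ℤ)) (hA : A.index ≠ 0) (z : E → ℤ) (hz : z ∉ A) :
    ∃ p k : ℕ, p.Prime ∧ k ≠ 0 ∧ k • z ∉ A ∧ p • (k • z) ∈ A := by
  classical
  have hex : ∃ m : ℕ, m ≠ 0 ∧ m • z ∈ A := ⟨A.index, hA, g5_index A z⟩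
  obtain ⟨hm0, hmz⟩ := Nat.find_spec hex
  have hmin : ∀ k : ℕ, k < Nat.find hex → k ≠ 0 → k • z ∉ A := fun k hk hk0 hkz =>
    Nat.find_min hex hk ⟨hk0, hkz⟩
  generalize Nat.find hex = m at hm0 hmz hmin
  have hm1 : m ≠ 1 := by
    rintro rfl
    rw [one_smul] at hmz
    exact hz hmz
  have hp := Nat.minFac_prime hm1
  have hk : m.minFac * (m / m.minFac) = m := Nat.mul_div_cancel' (Nat.minFac_dvd m)
  have hk0 : m / m.minFac ≠ 0 := by
    intro h0
    rw [h0, mul_zero] at hk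
    exact hm0 hk.symm
  refine ⟨m.minFac, m / m.minFac, hp, hk0, ?_, ?_⟩
  · exact hmin _ (Nat.div_lt_self (Nat.pos_of_ne_zero hm0) hp.one_lt) hk0
  · rw [← mul_smul, hk]
    exact hmz

variable {C F : Submodule ℤ (E → ℤ)}

/-- a vector of square zero is zero -/
theorem g5_zero {x : E → ℤ} (h : x ⬝ᵥ x = 0) : x = 0 := dotProduct_self_eq_zero.mp h

/-- if `p` is prime, `p z` is the sum of `c` in `C` and `f` in `F`, `z` is not, then not all
coordinates of `c` are divisible by `p` -/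
theorem g5_ndvd (memF : ∀ z, (∀ x ∈ C, x ⬝ᵥ z = 0) → z ∈ F)
    (memC : ∀ z, (∀ y ∈ F, y ⬝ᵥ z = 0) → z ∈ C) (orth : ∀ x ∈ C, ∀ y ∈ F, x ⬝ᵥ y = 0)
    {p : ℤ} (hp : p ≠ 0) {z c f : E → ℤ} (hc : c ∈ C) (hf : f ∈ F) (hz : p • z = c + f)
    (hn : z ∉ C ⊔ F) : ∃ e, ¬ p ∣ c e := by
  by_contra hcon
  push Not at hcon
  choose d hd using hcon
  have hcd : c = p • d := by
    funext e
    rw [Pi.smul_apply, smul_eq_mul, hd]
  have hdC : d ∈ C := by
    apply memC
    intro y hy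
    have h1 := orth c hc y hy
    rw [hcd, smul_dotProduct, smul_eq_mul, dotProduct_comm] at h1
    exact (mul_eq_zero.mp h1).resolve_left hp
  have hfd : p • (z - d) = f := by
    rw [smul_sub, hz, ← hcd]
    abel
  have hdF : z - d ∈ F := by
    apply memF
    intro x hx
    have h1 := orth x hx f hf
    rw [← hfd, dotProduct_smul, smul_eq_mul] at h1
    exact (mul_eq_zero.mp h1).resolve_left hp
  apply hn
  rw [Submodule.mem_sup]
  exact ⟨d, hdC, z - d, hdF, by abel⟩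

/-- the square of the prime divides the index -/
theorem g5_sq (memF : ∀ z, (∀ x ∈ C, x ⬝ᵥ z = 0) → z ∈ F)
    (memC : ∀ z, (∀ y ∈ F, y ⬝ᵥ z = 0) → z ∈ C) (orth : ∀ x ∈ C, ∀ y ∈ F, x ⬝ᵥ y = 0)
    {p : ℕ} (hp : p.Prime) {z c f : E → ℤ} (hc : c ∈ C) (hf : f ∈ F) (hz : (p : ℤ) • z = c + f)
    (hn : z ∉ C ⊔ F) (hd : (p : ℤ) ^ 2 ∣ c ⬝ᵥ c) : p * p ∣ (C ⊔ F).toAddSubgroup.index := by
  classical
  have hp0 : (p : ℤ) ≠ 0 := Int.natCast_ne_zero.mpr hp.ne_zero
  have hpf : Fact p.Prime := ⟨hp⟩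
  -- the homomorphism
  let φ : (E → ℤ) →+ ZMod p :=
    { toFun := fun x => ((x ⬝ᵥ c : ℤ) : ZMod p)
      map_zero' := by rw [zero_dotProduct, Int.cast_zero]
      map_add' := fun x y => by rw [add_dotProduct, Int.cast_add] }
  have hφ : ∀ x, φ x = ((x ⬝ᵥ c : ℤ) : ZMod p) := fun x => rfl
  have hker : ∀ x, x ∈ φ.ker ↔ (p : ℤ) ∣ x ⬝ᵥ c := by
    intro x
    rw [AddMonoidHom.mem_ker, hφ, ZMod.intCast_zmod_eq_zero_iff_dvd]
  -- the lattice is in the kernel
  have hle : (C ⊔ F).toAddSubgroup ≤ φ.ker := by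
    intro x hx
    rw [Submodule.mem_toAddSubgroup, Submodule.mem_sup] at hx
    obtain ⟨a, ha, b, hb, rfl⟩ := hx
    rw [hker, add_dotProduct, dotProduct_comm b c, orth c hc b hb, add_zero]
    have h1 : a ⬝ᵥ ((p : ℤ) • z) = a ⬝ᵥ c := by
      rw [hz, dotProduct_add, orth a ha f hf, add_zero]
    rw [← h1, dotProduct_smul, smul_eq_mul]
    exact dvd_mul_right _ _
  -- the vector is in the kernel
  have hzK : z ∈ φ.ker := by
    rw [hker]
    have h1 : (p : ℤ) * (z ⬝ᵥ c) = c ⬝ᵥ c := by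
      rw [← smul_eq_mul, ← smul_dotProduct, hz, add_dotProduct, dotProduct_comm f c,
        orth c hc f hf, add_zero]
    obtain ⟨t, ht⟩ := hd
    refine ⟨t, ?_⟩
    rw [ht, pow_two, mul_assoc] at h1
    exact mul_left_cancel₀ hp0 h1
  -- the index of the kernel
  have hidx : φ.ker.index = p := by
    rw [AddSubgroup.index_ker]
    obtain ⟨e, he⟩ := g5_ndvd memF memC orth hp0 hc hf hz hn
    have hne : φ (Pi.single e 1) ≠ 0 := by
      intro h0
      have h1 : (Pi.single e 1 : E → ℤ) ∈ φ.ker := h0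
      rw [hker, single_dotProduct, one_mul] at h1
      exact he h1
    have hdvd : Nat.card φ.range ∣ p := by
      have h1 := AddSubgroup.card_addSubgroup_dvd_card φ.range
      rwa [Nat.card_zmod] at h1
    rcases (Nat.dvd_prime hp).mp hdvd with h1 | h1
    · exfalso
      have h2 : Subsingleton φ.range := (Nat.card_eq_one_iff_unique.mp h1).1
      have h3 : (⟨φ (Pi.single e 1), ⟨_, rfl⟩⟩ : φ.range) = 0 := Subsingleton.elim _ _
      exact hne (congrArg Subtype.val h3)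
    · exact h1
  -- the class of the vector
  have hrel : p ∣ (C ⊔ F).toAddSubgroup.relIndex φ.ker := by
    let q : φ.ker ⧸ ((C ⊔ F).toAddSubgroup.addSubgroupOf φ.ker) := QuotientAddGroup.mk ⟨z, hzK⟩
    have hq0 : q ≠ 0 := by
      intro h0
      have h1 := (QuotientAddGroup.eq_zero_iff _).mp h0
      rw [AddSubgroup.mem_addSubgroupOf] at h1
      exact hn h1
    have hpq : p • q = 0 := by
      change (QuotientAddGroup.mk (p • (⟨z, hzK⟩ : φ.ker)) :
        φ.ker ⧸ ((C ⊔ F).toAddSubgroup.addSubgroupOf φ.ker)) = 0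
      rw [QuotientAddGroup.eq_zero_iff, AddSubgroup.mem_addSubgroupOf]
      change p • z ∈ (C ⊔ F).toAddSubgroup
      rw [← natCast_zsmul, hz, Submodule.mem_toAddSubgroup]
      exact Submodule.add_mem_sup hc hf
    have h2 := addOrderOf_eq_prime hpq hq0
    have h3 : addOrderOf q ∣ Nat.card (φ.ker ⧸ ((C ⊔ F).toAddSubgroup.addSubgroupOf φ.ker)) :=
      addOrderOf_dvd_natCard q
    rw [h2] at h3
    exact h3
  rw [← AddSubgroup.relIndex_mul_index hle, hidx]
  exact mul_dvd_mul_right hrel p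

/-- the linking form is anisotropic if the index is square-free -/
theorem g5_aniso (memF : ∀ z, (∀ x ∈ C, x ⬝ᵥ z = 0) → z ∈ F)
    (memC : ∀ z, (∀ y ∈ F, y ⬝ᵥ z = 0) → z ∈ C) (orth : ∀ x ∈ C, ∀ y ∈ F, x ⬝ᵥ y = 0)
    (h : Squarefree (C ⊔ F).toAddSubgroup.index) : Aniso C F := by
  intro z c hc f hf N hN hz hd
  by_contra hn
  obtain ⟨p, k, hp, hk, hkz, hpk⟩ := g5_prime (C ⊔ F).toAddSubgroup h.ne_zero z
    (fun h1 => hn ((Submodule.mem_toAddSubgroup _).mp h1))
  rw [Submodule.mem_toAddSubgroup] at hkz hpk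
  rw [Submodule.mem_sup] at hpk
  obtain ⟨c1, hc1, f1, hf1, h1⟩ := hpk
  have hz1 : (p : ℤ) • (k • z) = c1 + f1 := by rw [natCast_zsmul, h1]
  have hz2 : (p : ℤ) • ((k : ℤ) • z) = c1 + f1 := by rw [natCast_zsmul z k, hz1]
  -- the two decompositions agree
  have hx : ((p : ℤ) * k) • c - N • c1 = N • f1 - ((p : ℤ) * k) • f := by
    have h2 : ((p : ℤ) * k) • (c + f) = N • (c1 + f1) := by
      rw [← hz, ← hz2, smul_smul, smul_smul, smul_smul]
      congr 1
      ring
    rw [smul_add, smul_add] at h2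
    rw [sub_eq_sub_iff_add_eq_add, h2]
    abel
  have hxC : ((p : ℤ) * k) • c - N • c1 ∈ C := C.sub_mem (C.smul_mem _ hc) (C.smul_mem _ hc1)
  have hxF : ((p : ℤ) * k) • c - N • c1 ∈ F := by
    rw [hx]
    exact F.sub_mem (F.smul_mem _ hf1) (F.smul_mem _ hf)
  have hx0 : ((p : ℤ) * k) • c = N • c1 := sub_eq_zero.mp (g5_zero (orth _ hxC _ hxF))
  have hsq : (p : ℤ) ^ 2 ∣ c1 ⬝ᵥ c1 := by
    obtain ⟨t, ht⟩ := hd
    have h2 : (((p : ℤ) * k) • c) ⬝ᵥ (((p : ℤ) * k) • c) = (N • c1) ⬝ᵥ (N • c1) := by rw [hx0]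
    simp only [smul_dotProduct, dotProduct_smul, smul_eq_mul] at h2
    rw [ht] at h2
    refine ⟨(k : ℤ) ^ 2 * t, ?_⟩
    have h3 : N ^ 2 * (c1 ⬝ᵥ c1) = N ^ 2 * ((p : ℤ) ^ 2 * ((k : ℤ) ^ 2 * t)) := by
      linear_combination -h2
    exact mul_left_cancel₀ (pow_ne_zero 2 hN) h3
  have hdvd := g5_sq memF memC orth hp hc1 hf1 hz1 hkz hsq
  have hu := h p hdvd
  exact hp.one_lt.ne' (Nat.isUnit_iff.mp hu)

omit [Fintype E] in
/-- odd index -/
theorem g5_odd (h : Odd (C ⊔ F).toAddSubgroup.index) : OddDet C F := by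
  intro z hz
  obtain ⟨t, ht⟩ := h
  have h1 := (Submodule.mem_toAddSubgroup _).mp (g5_index (C ⊔ F).toAddSubgroup z)
  have h2 : z = (C ⊔ F).toAddSubgroup.index • z - (t : ℤ) • ((2 : ℤ) • z) := by
    rw [ht, ← natCast_zsmul, smul_smul, ← sub_smul]
    have h3 : ((2 * t + 1 : ℕ) : ℤ) - (t : ℤ) * 2 = 1 := by
      push_cast
      ring
    rw [h3, one_smul]
  rw [h2]
  exact (C ⊔ F).sub_mem h1 ((C ⊔ F).smul_mem _ hz)

end

section G

variable {V E : Type} [Fintype V] [DecidableEq V] [Fintype E] [DecidableEq E]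

/-- if the determinant is odd then the index of the sum of cuts and flows is odd -/
theorem oddDet_of_odd {G : Multigraph V E} (h : Odd (det G)) : OddDet G.cuts G.flows := g5_odd h

/-- if the determinant is square-free then the linking form is anisotropic -/
theorem aniso_of_squarefree {G : Multigraph V E} (h : Squarefree (det G)) : Anisotropic G :=
  g5_aniso (fun _ hz => G.isFlow_of_dot hz)
    (fun z hz => G.mem_cuts_of_dot fun y hy => by rw [dotProduct_comm]; exact hz y hy)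
    (fun _ hx _ hy => G.cuts_dot_flows hx hy) h

end G

end Pool.Agent.H758.SQ
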