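import Pool.Agent.H758.SQ.Defs
import Pool.Agent.H758.TR.Graph
import Pool.Agent.H754.Special.Std2

/-!
Isometric maps of the lattice of cuts which take unit cuts to unit vectors are standard.
-/

set_option autoImplicit false
set_option linter.unusedSectionVars false

namespace Pool.Agent.H758.SQ

open Finset Matrix
open Pool.Agent.H762.TG (Multigraph)
open Pool.Agent.H758.SR (rank IsIsometry Extends)

variable {V E : Type} [Fintype V] [DecidableEq V] [Fintype E] [DecidableEq E]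

/-- there are no loops -/
theorem g6_loop (G : Multigraph V E) (hl : ∀ e, ∃ x ∈ G.cuts, x e ≠ 0) (e : E) :
    G.src e ≠ G.tgt e := by
  intro h
  obtain ⟨x, hx, hxe⟩ := hl e
  obtain ⟨y, rfl⟩ := G.mem_cuts.1 hx
  apply hxe
  rw [Multigraph.cut, h, sub_self]

/-- an edge is in two cuts of vertices -/
theorem g6_star (G : Multigraph V E) (e : E) (he : G.src e ≠ G.tgt e) :
    ∑ v, (Pool.Agent.H754.Special.star G v : E → ℤ) e ^ 2 = 2 := by
  have h1 : ∀ v, (Pool.Agent.H754.Special.star G v : E → ℤ) e ^ 2 =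
      (if G.tgt e = v then 1 else 0) + if G.src e = v then 1 else 0 := by
    intro v
    rw [Pool.Agent.H754.Special.star_apply]
    by_cases h2 : G.tgt e = v
    · have h3 : G.src e ≠ v := fun h3 => he (h3.trans h2.symm)
      rw [if_pos h2, if_neg h3]; norm_num
    · rw [if_neg h2]
      split_ifs <;> norm_num
  rw [sum_congr rfl fun v _ => h1 v, sum_add_distrib, sum_ite_eq, sum_ite_eq,
    if_pos (mem_univ _), if_pos (mem_univ _)]
  norm_num

theorem rigid_cuts {κ : Type} [Fintype κ] [DecidableEq κ] (G : Multigraph V E)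
    (hl : ∀ e, ∃ x ∈ G.cuts, x e ≠ 0) (ψ : G.cuts →ₗ[ℤ] (κ → ℤ))
    (hψ : ∀ a b, ψ a ⬝ᵥ ψ b = (a : E → ℤ) ⬝ᵥ (b : E → ℤ))
    (hunit : ∀ y : G.cuts, (∀ e, |(y : E → ℤ) e| ≤ 1) → ∀ i, |ψ y i| ≤ 1) :
    ∃ (τ : E → κ) (η : E → ℤˣ), Function.Injective τ ∧
      (∀ (x : G.cuts) (e : E), ψ x (τ e) = η e * (x : E → ℤ) e) ∧
      ∀ (x : G.cuts) (i : κ), (∀ e, τ e ≠ i) → ψ x i = 0 := by
  classical
  have hcoord : ∀ i, (∃ x, ψ x i ≠ 0) → ∃ P, ∀ x : G.cuts, ψ x i ^ 2 = (x : E → ℤ) P ^ 2 := by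
    intro i hi
    let s : G.cuts →ₗ[ℤ] ℤ := (LinearMap.proj i).comp ψ
    have hs : s ≠ 0 := by
      intro h
      obtain ⟨x, hx⟩ := hi
      have h1 : ψ x i = 0 := LinearMap.congr_fun h x
      exact hx h1
    obtain ⟨P, -, h | h⟩ := Pool.Agent.H758.TR.functional_edge G univ s hs
      (fun x hx => hunit x (fun e => hx e (mem_univ e)) i)
    · refine ⟨P, fun x => ?_⟩
      have h1 : ψ x i = (x : E → ℤ) P := h x
      rw [h1]
    · refine ⟨P, fun x => ?_⟩
      have h1 : ψ x i = -(x : E → ℤ) P := h x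
      rw [h1, neg_sq]
  let K : Type := {i : κ // ∃ x, ψ x i ≠ 0}
  let ψ' : G.cuts →ₗ[ℤ] (K → ℤ) := LinearMap.pi fun i => (LinearMap.proj i.1).comp ψ
  have hψ' : ∀ x (i : K), ψ' x i = ψ x i.1 := fun x i => rfl
  have hzero : ∀ i, ¬ (∃ x, ψ x i ≠ 0) → ∀ x, ψ x i = 0 := by
    intro i hi x
    by_contra h
    exact hi ⟨x, h⟩
  have hiso : ∀ a b : G.cuts, ψ' a ⬝ᵥ ψ' b = (a : E → ℤ) ⬝ᵥ (b : E → ℤ) := by
    intro a b
    rw [← hψ, dotProduct, dotProduct]
    have h1 : ∑ i ∈ univ.filter (fun i => ∃ x, ψ x i ≠ 0), ψ a i * ψ b i =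
        ∑ i : K, ψ a i.1 * ψ b i.1 :=
      Finset.sum_subtype _ (fun i => by simp) _
    have h2 : ∑ i : K, ψ' a i * ψ' b i = ∑ i : K, ψ a i.1 * ψ b i.1 := rfl
    rw [h2, ← h1]
    apply Finset.sum_subset (Finset.subset_univ _)
    intro i _ hi
    rw [hzero i (fun h => hi (Finset.mem_filter.2 ⟨mem_univ i, h⟩)) a, zero_mul]
  have hu : ∀ i : K, ∃ x, ψ' x i ≠ 0 := fun i => i.2
  have hc : Fintype.card K = Fintype.card E := by
    have h1 := Pool.Agent.H754.Special.total ψ' hiso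
    have h2 : ∀ i : K, ∑ v, ψ' (Pool.Agent.H754.Special.star G v) i ^ 2 = 2 := by
      intro i
      obtain ⟨P, hP⟩ := hcoord i.1 i.2
      rw [← g6_star G P (g6_loop G hl P)]
      exact sum_congr rfl fun v _ => hP _
    rw [sum_congr rfl fun i _ => h2 i, sum_const, card_univ, nsmul_eq_mul,
      filter_true_of_mem (fun e _ => g6_loop G hl e), card_univ] at h1
    have h3 : (Fintype.card K : ℤ) = Fintype.card E := by linarith
    exact_mod_cast h3
  obtain ⟨τ, η, h⟩ := Pool.Agent.H754.Special.standard ψ' hiso hu hc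
  refine ⟨fun e => (τ e).1, η, fun a b hab => τ.injective (Subtype.ext hab), fun x e => h x e,
    fun x i hi => hzero i (fun hex => ?_) x⟩
  exact hi (τ.symm ⟨i, hex⟩) (congrArg Subtype.val (τ.apply_symm_apply ⟨i, hex⟩))

end Pool.Agent.H758.SQ
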