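import Pool.Agent.H758.SQ.Defs

/-!
# From the global involution to pairs of prime summands (helper627 for helper758)
-/

set_option autoImplicit false

namespace Pool.Agent.H758.SQ

open Finset Matrix
open Pool.Agent.H762.TG (Multigraph)

section M1aux

variable {n : ℕ} {E : Fin n → Type}

/-- the twisted involution -/
def m1T (π : (Σ j, E j) → Σ j, E j) (η : (Σ j, E j) → ℤˣ) (x : (Σ j, E j) → ℤ) :
    (Σ j, E j) → ℤ := fun p => (η p : ℤ) * x (π p)

theorem m1_TT {π : (Σ j, E j) → Σ j, E j} {η : (Σ j, E j) → ℤˣ} (hπ : ∀ p, π (π p) = p)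
    (hη : ∀ p, η (π p) = η p) (x : (Σ j, E j) → ℤ) : m1T π η (m1T π η x) = x := by
  funext p
  unfold m1T
  rw [hπ, hη, ← mul_assoc, ← Units.val_mul, Int.units_mul_self, Units.val_one, one_mul]

theorem m1_ex (k : Fin n) (y : (Σ j, E j) → ℤ) (p : Σ j, E j) :
    ex k (fun e => y ⟨k, e⟩) p = if p.1 = k then y p else 0 := by
  obtain ⟨i, e⟩ := p
  by_cases h : i = k
  · subst h
    rw [ex_same, if_pos rfl]
  · rw [ex_ne _ _ h, if_neg h]

theorem m1_equiv {π : (Σ j, E j) → Σ j, E j} (hπ : ∀ p, π (π p) = p) {i k : Fin n}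
    (h1 : ∀ e : E i, (π ⟨i, e⟩).1 = k) (h2 : ∀ f : E k, (π ⟨k, f⟩).1 = i) :
    ∃ φ : E i ≃ E k, ∀ e : E i, π ⟨i, e⟩ = ⟨k, φ e⟩ := by
  have h3 : ∀ e : E i, ∃ f : E k, π ⟨i, e⟩ = ⟨k, f⟩ := by
    intro e
    have h := h1 e
    revert h
    generalize π ⟨i, e⟩ = q
    obtain ⟨k', f⟩ := q
    intro h
    have h : k' = k := h
    subst h
    exact ⟨f, rfl⟩
  have h4 : ∀ f : E k, ∃ e : E i, π ⟨k, f⟩ = ⟨i, e⟩ := by
    intro e
    have h := h2 e
    revert h
    generalize π ⟨k, e⟩ = q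
    obtain ⟨k', f⟩ := q
    intro h
    have h : k' = i := h
    subst h
    exact ⟨f, rfl⟩
  choose φ hφ using h3
  choose ψ hψ using h4
  refine ⟨⟨φ, ψ, fun e => ?_, fun f => ?_⟩, hφ⟩
  · have h5 : (⟨i, ψ (φ e)⟩ : Σ j, E j) = ⟨i, e⟩ := by
      rw [← hψ, ← hφ, hπ]
    exact sigma_mk_injective h5
  · have h5 : (⟨k, φ (ψ f)⟩ : Σ j, E j) = ⟨k, f⟩ := by
      rw [← hφ, ← hψ, hπ]
    exact sigma_mk_injective h5

theorem m1_ex_mem_iff {C : ∀ j, Submodule ℤ (E j → ℤ)} {j : Fin n} {x : E j → ℤ} :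
    ex j x ∈ Sm C ↔ x ∈ C j := by
  constructor
  · intro h
    have h1 := h j
    simp only [ex_same] at h1
    exact h1
  · exact ex_mem

theorem m1_cut {C F : ∀ j, Submodule ℤ (E j → ℤ)} {π : (Σ j, E j) → Σ j, E j}
    {η : (Σ j, E j) → ℤˣ} (hπ : ∀ p, π (π p) = p) (hη : ∀ p, η (π p) = η p)
    (hx : ∀ x : (Σ j, E j) → ℤ, x ∈ Sm C ↔ m1T π η x ∈ Sm F) (i k : Fin n) (x : E i → ℤ)
    (h : x ∈ C i) : (fun e => if (π ⟨i, e⟩).1 = k then x e else 0) ∈ C i := by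
  have hx' : ∀ x : (Σ j, E j) → ℤ, x ∈ Sm F ↔ m1T π η x ∈ Sm C := by
    intro x
    rw [hx (m1T π η x), m1_TT hπ hη]
  have h1 : m1T π η (ex i x) ∈ Sm F := (hx _).1 (ex_mem h)
  have h2 := ex_mem (C := F) (h1 k)
  have h3 := (hx' _).1 h2
  have h4 := h3 i
  have h5 : (fun e => m1T π η (ex k (fun e => m1T π η (ex i x) ⟨k, e⟩)) ⟨i, e⟩) =
      fun e => if (π ⟨i, e⟩).1 = k then x e else 0 := by
    funext e
    unfold m1T
    rw [m1_ex k (fun p => (η p : ℤ) * ex i x (π p))]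
    split_ifs
    · rw [hπ, hη, ex_same, ← mul_assoc, ← Units.val_mul, Int.units_mul_self, Units.val_one,
        one_mul]
    · rw [mul_zero]
  rw [h5] at h4
  exact h4

end M1aux

section M

variable {n : ℕ} {V E : Fin n → Type} [∀ i, Fintype (V i)] [∀ i, DecidableEq (V i)]
    [∀ i, Fintype (E i)] [∀ i, DecidableEq (E i)] {G : ∀ i, Multigraph (V i) (E i)}

-- M1
theorem mirror_pairs (hP : ∀ i, Prime (G i)) {π : (Σ j, E j) → Σ j, E j}
    {η : (Σ j, E j) → ℤˣ} (hπ : ∀ p, π (π p) = p) (hne : ∀ p, (π p).1 ≠ p.1)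
    (hη : ∀ p, η (π p) = η p)
    (hx : ∀ x : (Σ j, E j) → ℤ, x ∈ Sm (fun j => (G j).cuts) ↔
      (fun p => (η p : ℤ) * x (π p)) ∈ Sm (fun j => (G j).flows)) :
    ∃ σ : Fin n → Fin n, ∀ i, σ (σ i) = i ∧ σ i ≠ i ∧ Mirror (G i) (G (σ i)) := by
  have hE : ∀ i, Nonempty (E i) := by
    intro i
    rw [← Fintype.card_pos_iff]
    have := (hP i).1
    omega
  have h1 : ∀ i, ∃ k, ∀ e : E i, (π ⟨i, e⟩).1 = k := by
    intro i
    obtain ⟨e₀⟩ := hE i
    refine ⟨(π ⟨i, e₀⟩).1, ?_⟩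
    have h2 := (hP i).2 (univ.filter fun e : E i => (π ⟨i, e⟩).1 = (π ⟨i, e₀⟩).1) (by
      intro x hxc
      have h3 := m1_cut (C := fun j => (G j).cuts) (F := fun j => (G j).flows) hπ hη hx i
        (π ⟨i, e₀⟩).1 x hxc
      simp only [mem_filter, mem_univ, true_and]
      exact h3)
    rcases h2 with h2 | h2
    · exfalso
      have h3 : e₀ ∈ (univ.filter fun e : E i => (π ⟨i, e⟩).1 = (π ⟨i, e₀⟩).1) :=
        mem_filter.2 ⟨mem_univ _, rfl⟩
      rw [h2] at h3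
      exact absurd h3 (notMem_empty _)
    · intro e
      have h3 : e ∈ (univ.filter fun e : E i => (π ⟨i, e⟩).1 = (π ⟨i, e₀⟩).1) := by
        rw [h2]
        exact mem_univ _
      exact (mem_filter.1 h3).2
  choose σ hσ using h1
  have hinv : ∀ i, σ (σ i) = i := by
    intro i
    obtain ⟨e₀⟩ := hE i
    have h2 := hσ i e₀
    have h3 := hπ ⟨i, e₀⟩
    revert h2 h3
    generalize π ⟨i, e₀⟩ = q
    obtain ⟨k, f⟩ := q
    intro h2 h3
    have h2 : k = σ i := h2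
    rw [← h2, ← hσ k f, h3]
  refine ⟨σ, fun i => ⟨hinv i, ?_, ?_⟩⟩
  · obtain ⟨e₀⟩ := hE i
    rw [← hσ i e₀]
    exact hne ⟨i, e₀⟩
  · obtain ⟨φ, hφ⟩ := m1_equiv hπ (hσ i) (fun f => (hσ (σ i) f).trans (hinv i))
    refine ⟨φ, fun e => η ⟨i, e⟩, fun x => ?_⟩
    rw [← m1_ex_mem_iff (C := fun j => (G j).cuts) (j := σ i), hx]
    constructor
    · intro h
      have h2 := h i
      have h3 : (fun e => (η ⟨i, e⟩ : ℤ) * ex (σ i) x (π ⟨i, e⟩)) =
          fun e => (η ⟨i, e⟩ : ℤ) * x (φ e) := by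
        funext e
        rw [hφ, ex_same]
      rw [h3] at h2
      exact h2
    · intro h j
      by_cases hj : j = i
      · subst hj
        have h3 : (fun e => (η ⟨j, e⟩ : ℤ) * ex (σ j) x (π ⟨j, e⟩)) =
            fun e => (η ⟨j, e⟩ : ℤ) * x (φ e) := by
          funext e
          rw [hφ, ex_same]
        rw [h3]
        exact h
      · have h3 : (fun e => (η ⟨j, e⟩ : ℤ) * ex (σ i) x (π ⟨j, e⟩)) = 0 := by
          funext e
          have h4 : ex (σ i) x (π ⟨j, e⟩) = 0 := by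
            have h5 := hσ j e
            revert h5
            generalize π ⟨j, e⟩ = q
            obtain ⟨k, f⟩ := q
            intro h5
            have h5 : k = σ j := h5
            refine ex_ne x f fun h6 => hj ?_
            rw [← hinv j, ← h5, h6, hinv]
          rw [h4, mul_zero]
          rfl
        rw [h3]
        exact (G j).flows.zero_mem

end M

end Pool.Agent.H758.SQ
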