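import Pool.Agent.H758.SQ.Defs

/-!
# Pairs of mirror images satisfy the lattice condition
-/

set_option autoImplicit false
set_option linter.unusedSectionVars false

namespace Pool.Agent.H758.SQ

open Finset Matrix
open Pool.Agent.H762.TG (Multigraph)
open Pool.Agent.H758.SR (rank IsIsometry Extends)

theorem m2_unit_sq (u : ℤˣ) : (u : ℤ) * u = 1 := by
  rcases Int.units_eq_one_or u with h | h <;> rw [h] <;> norm_num

section Gen

variable {E : Type} [Fintype E] {O : E → Prop} [DecidablePred O] {π : E → E} {η : E → ℤˣ}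

/-- the twist -/
def m2_tw (π : E → E) (η : E → ℤˣ) (x : E → ℤ) (p : E) : ℤ := η p * x (π p)

/-- sums over pairs -/
theorem m2_sum_pairs (hπ : ∀ p, π (π p) = p) (hO : ∀ p, O (π p) ↔ ¬ O p) (f : E → ℤ) :
    ∑ p, f p = ∑ o : {p // O p}, (f o + f (π o)) := by
  have h1 : ∑ p, f p = ∑ p with O p, f p + ∑ p with ¬ O p, f p :=
    (sum_filter_add_sum_filter_not univ _ _).symm
  have h2 : ∑ p with ¬ O p, f p = ∑ p with O p, f (π p) := by
    refine sum_nbij' π π ?_ ?_ ?_ ?_ ?_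
    · intro a ha
      rw [mem_filter] at ha ⊢
      exact ⟨mem_univ _, (hO a).2 ha.2⟩
    · intro a ha
      rw [mem_filter] at ha ⊢
      exact ⟨mem_univ _, fun h => (hO a).1 h ha.2⟩
    · intro a _
      exact hπ a
    · intro a _
      exact hπ a
    · intro a _
      rw [hπ]
  rw [h1, h2, ← sum_add_distrib]
  exact sum_subtype _ (fun x => by rw [mem_filter]; exact ⟨fun h => h.2, fun h => ⟨mem_univ _, h⟩⟩)
    fun p => f p + f (π p)

theorem m2_card (hπ : ∀ p, π (π p) = p) (hO : ∀ p, O (π p) ↔ ¬ O p) :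
    Fintype.card E = 2 * Fintype.card {p // O p} := by
  have h := m2_sum_pairs (O := O) hπ hO (fun _ => 1)
  rw [sum_const, sum_const, card_univ, card_univ, nsmul_eq_mul, nsmul_eq_mul] at h
  omega

/-- the embedding -/
def m2_emb (O : E → Prop) (π : E → E) (η : E → ℤˣ) (x : E → ℤ) (o : {p // O p}) : ℤ :=
  x o + η o * x (π o)

theorem m2_emb_dot (hπ : ∀ p, π (π p) = p) (hη : ∀ p, η (π p) = η p)
    (hO : ∀ p, O (π p) ↔ ¬ O p) {x y : E → ℤ} (h : x ⬝ᵥ m2_tw π η y = 0) :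
    m2_emb O π η x ⬝ᵥ m2_emb O π η y = x ⬝ᵥ y := by
  rw [dotProduct, m2_sum_pairs (O := O) hπ hO] at h
  rw [dotProduct, dotProduct, m2_sum_pairs (O := O) hπ hO (fun p => x p * y p), ← sub_eq_zero,
    ← sum_sub_distrib]
  refine Eq.trans (sum_congr rfl fun o _ => ?_) h
  simp only [m2_emb, m2_tw, hπ, hη]
  linear_combination (x (π o) * y (π o)) * m2_unit_sq (η o)

theorem m2_key (hπ : ∀ p, π (π p) = p) (hη : ∀ p, η (π p) = η p)
    (hO : ∀ p, O (π p) ↔ ¬ O p) (x : E → ℤ) {u : E → ℤ} (hu : m2_tw π η u = u) :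
    m2_emb O π η x ⬝ᵥ (fun o => u o) = x ⬝ᵥ u := by
  rw [dotProduct, dotProduct, m2_sum_pairs (O := O) hπ hO]
  refine sum_congr rfl fun o _ => ?_
  have h1 : u (π o) = η o * u o := by
    have h2 := congrFun hu (π o)
    simp only [m2_tw, hπ, hη] at h2
    exact h2.symm
  simp only [m2_emb]
  rw [h1]
  ring

/-- the functionals which extend -/
theorem m2_extends (hπ : ∀ p, π (π p) = p) (hη : ∀ p, η (π p) = η p)
    (hO : ∀ p, O (π p) ↔ ¬ O p) {L L' : Submodule ℤ (E → ℤ)}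
    (horth : ∀ x ∈ L, ∀ y ∈ L', x ⬝ᵥ y = 0) (hmem : ∀ z, (∀ x ∈ L, x ⬝ᵥ z = 0) → z ∈ L')
    (z : E → ℤ) :
    (∃ a, ∀ x ∈ L, m2_emb O π η x ⬝ᵥ a = x ⬝ᵥ z) ↔ ∃ u, m2_tw π η u = u ∧ z - u ∈ L' := by
  constructor
  · rintro ⟨a, ha⟩
    let u : E → ℤ := fun p => if h : O p then a ⟨p, h⟩ else
      if h : O (π p) then η p * a ⟨π p, h⟩ else 0
    have hu1 : ∀ p (h : O p), u p = a ⟨p, h⟩ := fun p h => dif_pos h
    have hu2 : ∀ p (_ : ¬ O p) (h : O (π p)), u p = η p * a ⟨π p, h⟩ := fun p h h' => by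
      change dite _ _ _ = _
      rw [dif_neg h, dif_pos h']
    have hu : m2_tw π η u = u := by
      funext p
      by_cases h : O p
      · have h1 : ¬ O (π p) := fun h' => (hO p).1 h' h
        have h2 : O (π (π p)) := by rw [hπ]; exact h
        have h3 : (⟨π (π p), h2⟩ : {p // O p}) = ⟨p, h⟩ := Subtype.ext (hπ p)
        rw [hu1 p h, m2_tw, hu2 (π p) h1 h2, h3, hη, ← mul_assoc, m2_unit_sq, one_mul]
      · have h1 : O (π p) := (hO p).2 h
        rw [hu2 p h h1, m2_tw, hu1 _ h1]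
    have hua : (fun o : {p // O p} => u o) = a := by
      funext o
      exact hu1 o o.2
    refine ⟨u, hu, hmem _ fun x hx => ?_⟩
    rw [dotProduct_sub, ← ha x hx, ← m2_key hπ hη hO x hu, hua, sub_self]
  · rintro ⟨u, hu, hzu⟩
    refine ⟨fun o => u o, fun x hx => ?_⟩
    rw [m2_key hπ hη hO x hu]
    have h1 := horth x hx _ hzu
    rw [dotProduct_sub] at h1
    linarith

theorem m2_swap (hπ : ∀ p, π (π p) = p) (hη : ∀ p, η (π p) = η p) {C F : Submodule ℤ (E → ℤ)}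
    (hT : ∀ x : E → ℤ, x ∈ F → m2_tw π η x ∈ C) (z : E → ℤ)
    (h : ∃ u, m2_tw π η u = u ∧ z - u ∈ F) : ∃ u, m2_tw π η u = u ∧ z - u ∈ C := by
  obtain ⟨u, hu, hzu⟩ := h
  refine ⟨z + m2_tw π η (z - u), ?_, ?_⟩
  · funext p
    have h1 := congrFun hu p
    simp only [m2_tw] at h1
    simp only [m2_tw, Pi.add_apply, Pi.sub_apply, hπ, hη]
    linear_combination (z p - u p) * m2_unit_sq (η p) + h1
  · rw [sub_add_cancel_left]
    exact C.neg_mem (hT _ hzu)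

theorem m2_tw_tw (hπ : ∀ p, π (π p) = p) (hη : ∀ p, η (π p) = η p) (x : E → ℤ) :
    m2_tw π η (m2_tw π η x) = x := by
  funext p
  simp only [m2_tw, hπ, hη]
  rw [← mul_assoc, m2_unit_sq, one_mul]

theorem m2_finrank (hπ : ∀ p, π (π p) = p) (hη : ∀ p, η (π p) = η p)
    {C F : Submodule ℤ (E → ℤ)} (hT : ∀ x : E → ℤ, x ∈ C ↔ m2_tw π η x ∈ F) :
    Module.finrank ℤ C = Module.finrank ℤ F := by
  let T : (E → ℤ) →ₗ[ℤ] (E → ℤ) :=
    { toFun := m2_tw π η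
      map_add' := fun x y => by funext p; simp only [m2_tw, Pi.add_apply]; ring
      map_smul' := fun c x => by
        funext p
        simp only [m2_tw, Pi.smul_apply, smul_eq_mul, RingHom.id_apply]
        ring }
  have hTT : Function.Involutive T := fun x => m2_tw_tw hπ hη x
  let e := LinearEquiv.ofInvolutive T hTT
  have h1 : C.map (e : (E → ℤ) →ₗ[ℤ] (E → ℤ)) = F := by
    ext y
    rw [Submodule.mem_map]
    constructor
    · rintro ⟨x, hx, rfl⟩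
      exact (hT x).1 hx
    · intro hy
      refine ⟨m2_tw π η y, (hT _).2 ?_, m2_tw_tw hπ hη y⟩
      rw [m2_tw_tw hπ hη]
      exact hy
  rw [← h1, LinearEquiv.finrank_map_eq]

theorem m2_reindex {κ κ' : Type} [Fintype κ] [Fintype κ'] (θ : κ ≃ κ')
    (L : Submodule ℤ (E → ℤ)) (g : (E → ℤ) → κ → ℤ) (z : E → ℤ) :
    (∃ a : κ' → ℤ, ∀ x ∈ L, (fun k => g x (θ.symm k)) ⬝ᵥ a = x ⬝ᵥ z) ↔
      ∃ a : κ → ℤ, ∀ x ∈ L, g x ⬝ᵥ a = x ⬝ᵥ z := by
  constructor
  · rintro ⟨a, ha⟩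
    refine ⟨fun k => a (θ k), fun x hx => ?_⟩
    rw [← ha x hx, dotProduct, dotProduct, ← Equiv.sum_comp θ]
    simp only [Equiv.symm_apply_apply]
  · rintro ⟨a, ha⟩
    refine ⟨fun k => a (θ.symm k), fun x hx => ?_⟩
    rw [← ha x hx]
    exact Equiv.sum_comp θ.symm fun k => g x k * a k

theorem m2_isometry (hπ : ∀ p, π (π p) = p) (hη : ∀ p, η (π p) = η p)
    (hO : ∀ p, O (π p) ↔ ¬ O p) {L L' : Submodule ℤ (E → ℤ)}
    (horth : ∀ x ∈ L, ∀ y ∈ L', x ⬝ᵥ y = 0) (hT : ∀ x : E → ℤ, x ∈ L → m2_tw π η x ∈ L')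
    {κ : Type} [Fintype κ] (θ : {p // O p} ≃ κ) :
    IsIsometry L fun x k => m2_emb O π η x (θ.symm k) := by
  intro x hx y hy
  refine ⟨?_, ?_⟩
  · funext k
    simp only [Pi.add_apply, m2_emb]
    ring
  · rw [← m2_emb_dot (O := O) hπ hη hO (horth x hx _ (hT y hy))]
    exact Equiv.sum_comp θ.symm fun k => m2_emb O π η x k * m2_emb O π η y k

/-- the general statement -/
theorem m2_general {C F : Submodule ℤ (E → ℤ)} (h1 : ∀ x ∈ C, ∀ y ∈ F, x ⬝ᵥ y = 0)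
    (h2 : ∀ z, (∀ x ∈ C, x ⬝ᵥ z = 0) → z ∈ F) (h3 : ∀ z, (∀ y ∈ F, y ⬝ᵥ z = 0) → z ∈ C)
    (hrk : Module.finrank ℤ C + Module.finrank ℤ F = Fintype.card E)
    (hπ : ∀ p, π (π p) = p) (hη : ∀ p, η (π p) = η p) (hO : ∀ p, O (π p) ↔ ¬ O p)
    (hT : ∀ x : E → ℤ, x ∈ C ↔ m2_tw π η x ∈ F) :
    ∃ (φ : (E → ℤ) → Fin (rank C) → ℤ) (ψ : (E → ℤ) → Fin (rank F) → ℤ),
      IsIsometry C φ ∧ IsIsometry F ψ ∧ ∀ z, Extends C φ z ↔ Extends F ψ z := by
  have hfr := m2_finrank hπ hη hT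
  have hcard := m2_card (O := O) hπ hO
  have hC : Fintype.card {p // O p} = rank C := by
    change _ = Module.finrank ℤ C
    omega
  have hF : Fintype.card {p // O p} = rank F := by
    change _ = Module.finrank ℤ F
    omega
  have hT1 : ∀ x : E → ℤ, x ∈ C → m2_tw π η x ∈ F := fun x hx => (hT x).1 hx
  have hT2 : ∀ x : E → ℤ, x ∈ F → m2_tw π η x ∈ C := fun x hx => by
    rw [hT, m2_tw_tw hπ hη]
    exact hx
  have h1' : ∀ y ∈ F, ∀ x ∈ C, y ⬝ᵥ x = 0 := fun y hy x hx => by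
    rw [dotProduct_comm]
    exact h1 x hx y hy
  let θ := Fintype.equivFinOfCardEq hC
  let θ' := Fintype.equivFinOfCardEq hF
  refine ⟨fun x k => m2_emb O π η x (θ.symm k), fun x k => m2_emb O π η x (θ'.symm k),
    m2_isometry hπ hη hO h1 hT1 θ, m2_isometry hπ hη hO h1' hT2 θ', fun z => ?_⟩
  have e1 := (m2_reindex θ C (m2_emb O π η) z).trans (m2_extends hπ hη hO h1 h2 z)
  have e2 := (m2_reindex θ' F (m2_emb O π η) z).trans (m2_extends hπ hη hO h1' h3 z)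
  refine e1.trans (Iff.trans ⟨?_, ?_⟩ e2.symm)
  · exact m2_swap hπ hη hT2 z
  · exact m2_swap hπ hη hT1 z

end Gen

/-- the dual form of the mirror condition -/
theorem m2_mirror_dual {V E V' E' : Type} [Fintype V] [DecidableEq V] [Fintype E]
    [Fintype V'] [DecidableEq V'] [Fintype E'] {G : Multigraph V E}
    {G' : Multigraph V' E'} {φ : E ≃ E'} {ε : E → ℤˣ}
    (h : ∀ x : E' → ℤ, x ∈ G'.cuts ↔ (fun e => (ε e : ℤ) * x (φ e)) ∈ G.flows) (x : E → ℤ) :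
    x ∈ G.cuts ↔ (fun f => (ε (φ.symm f) : ℤ) * x (φ.symm f)) ∈ G'.flows := by
  constructor
  · intro hx
    apply G'.isFlow_of_dot
    intro z hz
    rw [dotProduct, ← Equiv.sum_comp φ, ← G.cuts_dot_flows hx ((h z).1 hz), dotProduct]
    refine sum_congr rfl fun e _ => ?_
    rw [Equiv.symm_apply_apply]
    ring
  · intro hy
    apply G.mem_cuts_of_dot
    intro z hz
    have h1 : (fun f => (ε (φ.symm f) : ℤ) * z (φ.symm f)) ∈ G'.cuts := by
      rw [h]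
      have : (fun e => (ε e : ℤ) * ((ε (φ.symm (φ e)) : ℤ) * z (φ.symm (φ e)))) = z := by
        funext e
        rw [Equiv.symm_apply_apply, ← mul_assoc, m2_unit_sq, one_mul]
      rw [this]
      exact hz
    rw [← G'.cuts_dot_flows h1 hy, dotProduct, dotProduct, ← Equiv.sum_comp φ]
    refine sum_congr rfl fun e _ => ?_
    rw [Equiv.symm_apply_apply]
    calc x e * z e = ((ε e : ℤ) * ε e) * (x e * z e) := by rw [m2_unit_sq, one_mul]
      _ = _ := by ring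

variable {n : ℕ} {V E : Fin n → Type} [∀ i, Fintype (V i)] [∀ i, DecidableEq (V i)]
    [∀ i, Fintype (E i)] [∀ i, DecidableEq (E i)] {G : ∀ i, Multigraph (V i) (E i)}

/-- cuts of the sum -/
theorem m2_mem_cuts {x : (Σ i, E i) → ℤ} :
    x ∈ (sum G).cuts ↔ ∀ i, (fun e => x ⟨i, e⟩) ∈ (G i).cuts := by
  constructor
  · rintro ⟨y, hy⟩ i
    exact ⟨fun v => y ⟨i, v⟩, fun e => hy ⟨i, e⟩⟩
  · intro h
    choose y hy using h
    exact ⟨fun v => y v.1 v.2, fun e => hy e.1 e.2⟩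

/-- flows of the sum -/
theorem m2_mem_flows {x : (Σ i, E i) → ℤ} :
    x ∈ (sum G).flows ↔ ∀ i, (fun e => x ⟨i, e⟩) ∈ (G i).flows := by
  constructor
  · intro hx i
    apply (G i).isFlow_of_dot
    intro c hc
    rw [← ex_dot]
    refine (sum G).cuts_dot_flows ?_ hx
    rw [m2_mem_cuts]
    exact ex_mem (C := fun i => (G i).cuts) hc
  · intro h
    apply (sum G).isFlow_of_dot
    intro c hc
    rw [dot_sum]
    refine sum_eq_zero fun i _ => ?_
    exact (G i).cuts_dot_flows (m2_mem_cuts.1 hc i) (h i)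

/-- the involution on the edges given by pairs -/
theorem m2_exists_tw {σ : Fin n → Fin n} (h : ∀ i, σ (σ i) = i ∧ σ i ≠ i ∧
    Mirror (G i) (G (σ i))) : ∃ (π : (Σ j, E j) → Σ j, E j) (η : (Σ j, E j) → ℤˣ),
      (∀ p, π (π p) = p) ∧ (∀ p, η (π p) = η p) ∧ (∀ p, (π p).1 = σ p.1) ∧
      ∀ x : (Σ j, E j) → ℤ, x ∈ (sum G).cuts ↔ m2_tw π η x ∈ (sum G).flows := by
  have hσ : ∀ i, σ (σ i) = i := fun i => (h i).1
  have hne : ∀ i, σ i ≠ i := fun i => (h i).2.1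
  have hM := fun i => (h i).2.2
  choose φ0 ε0 b3 using hM
  have hinj : ∀ i j, σ i = σ j → i = j := fun i j hij => by rw [← hσ i, ← hσ j, hij]
  let R : (Σ i, E i) → (Σ i, E i) → Prop := fun p q =>
    (p.1 < σ p.1 ∧ q = ⟨σ p.1, φ0 p.1 p.2⟩) ∨ (q.1 < σ q.1 ∧ p = ⟨σ q.1, φ0 q.1 q.2⟩)
  have hex : ∀ p, ∃ q, R p q := by
    rintro ⟨i, f⟩
    rcases lt_trichotomy i (σ i) with hi | hi | hi
    · exact ⟨_, Or.inl ⟨hi, rfl⟩⟩
    · exact absurd hi.symm (hne i)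
    · obtain ⟨j, hj⟩ : ∃ j, σ j = i := ⟨σ i, hσ i⟩
      subst hj
      rw [hσ] at hi
      refine ⟨⟨j, (φ0 j).symm f⟩, Or.inr ⟨hi, ?_⟩⟩
      simp only [Equiv.apply_symm_apply]
  have hsymm : ∀ p q, R p q → R q p := by
    rintro p q (⟨hlt, hq⟩ | ⟨hlt, hp⟩)
    · exact Or.inr ⟨hlt, hq⟩
    · exact Or.inl ⟨hlt, hp⟩
  have huniq : ∀ p q q', R p q → R p q' → q = q' := by
    rintro p q q' (⟨hlt, rfl⟩ | ⟨hlt, hp⟩) (⟨hlt', rfl⟩ | ⟨hlt', hp'⟩)
    · rfl
    · have e1 : p.1 = σ q'.1 := congrArg Sigma.fst hp'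
      rw [e1, hσ] at hlt
      exact absurd hlt (not_lt.2 hlt'.le)
    · have e1 : p.1 = σ q.1 := congrArg Sigma.fst hp
      rw [e1, hσ] at hlt'
      exact absurd hlt' (not_lt.2 hlt.le)
    · obtain ⟨j, g⟩ := q
      obtain ⟨j', g'⟩ := q'
      have e1 : p.1 = σ j := congrArg Sigma.fst hp
      have e2 : p.1 = σ j' := congrArg Sigma.fst hp'
      have e3 : j = j' := hinj _ _ (e1.symm.trans e2)
      subst e3
      have e4 := hp.symm.trans hp'
      simp only at e4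
      have e5 := sigma_mk_injective e4
      rw [(φ0 j).injective e5]
  choose τ hτ using hex
  have hR : ∀ {p q}, R p q → τ p = q := fun {p q} h => huniq p _ _ (hτ p) h
  have hinv : ∀ p, τ (τ p) = p := fun p => hR (hsymm _ _ (hτ p))
  -- the values of `τ`
  have τb : ∀ i (_ : i < σ i) (f : E i), τ ⟨i, f⟩ = ⟨σ i, φ0 i f⟩ :=
    fun i hlt f => hR (Or.inl ⟨hlt, rfl⟩)
  have τc : ∀ i (_ : i < σ i) (f : E i), τ ⟨σ i, φ0 i f⟩ = ⟨i, f⟩ :=
    fun i hlt f => hR (Or.inr ⟨hlt, rfl⟩)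
  let g : (Σ i, E i) → ℤˣ := fun p => ε0 p.1 p.2
  let η : (Σ i, E i) → ℤˣ := fun p => if σ p.1 < p.1 then g (τ p) else g p
  have ηb : ∀ i (_ : i < σ i) (f : E i), η ⟨i, f⟩ = ε0 i f := by
    intro i hlt f
    exact if_neg (not_lt.2 hlt.le)
  have ηc : ∀ i (_ : i < σ i) (f : E i), η ⟨σ i, φ0 i f⟩ = ε0 i f := by
    intro i hlt f
    have h1 : η ⟨σ i, φ0 i f⟩ = g (τ ⟨σ i, φ0 i f⟩) :=
      if_pos (by simp only; rw [hσ]; exact hlt)
    rw [h1, τc i hlt]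
  have hcase : ∀ P : (Σ i, E i) → Prop,
      (∀ i (_ : i < σ i) (f : E i), P ⟨i, f⟩) →
      (∀ i (_ : i < σ i) (f : E i), P ⟨σ i, φ0 i f⟩) → ∀ p, P p := by
    rintro P pb pc ⟨i, f⟩
    rcases lt_trichotomy i (σ i) with hi | hi | hi
    · exact pb i hi f
    · exact absurd hi.symm (hne i)
    · obtain ⟨j, hj⟩ : ∃ j, σ j = i := ⟨σ i, hσ i⟩
      subst hj
      rw [hσ] at hi
      have h1 := pc j hi ((φ0 j).symm f)
      rwa [Equiv.apply_symm_apply] at h1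
  refine ⟨τ, η, hinv, ?_, ?_, ?_⟩
  · refine hcase _ (fun i hlt f => ?_) (fun i hlt f => ?_)
    · rw [τb i hlt, ηb i hlt, ηc i hlt]
    · rw [τc i hlt, ηb i hlt, ηc i hlt]
  · refine hcase _ (fun i hlt f => ?_) (fun i hlt f => ?_)
    · rw [τb i hlt]
    · rw [τc i hlt]
      exact (hσ i).symm
  · intro x
    rw [m2_mem_cuts, m2_mem_flows]
    let P : Fin n → Prop := fun k => (fun e => x ⟨k, e⟩) ∈ (G k).cuts
    have key : ∀ i, (fun e => m2_tw τ η x ⟨i, e⟩) ∈ (G i).flows ↔ P (σ i) := by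
      intro i
      rcases lt_trichotomy i (σ i) with hi | hi | hi
      · -- the pair with the smaller index
        change _ ↔ (fun e => x ⟨σ i, e⟩) ∈ (G (σ i)).cuts
        rw [b3 i]
        have h3 : (fun e => m2_tw τ η x ⟨i, e⟩) =
            fun e => (ε0 i e : ℤ) * x ⟨σ i, φ0 i e⟩ := by
          funext e
          rw [m2_tw, τb i hi, ηb i hi]
        rw [h3]
      · exact absurd hi.symm (hne i)
      · obtain ⟨j, hj⟩ : ∃ j, σ j = i := ⟨σ i, hσ i⟩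
        subst hj
        rw [hσ] at hi
        have h4 : P (σ (σ j)) = P j := congrArg P (hσ j)
        rw [h4]
        change _ ↔ (fun e => x ⟨j, e⟩) ∈ (G j).cuts
        rw [m2_mirror_dual (b3 j)]
        have h3 : (fun e => m2_tw τ η x ⟨σ j, e⟩) =
            fun f => (ε0 j ((φ0 j).symm f) : ℤ) * x ⟨j, (φ0 j).symm f⟩ := by
          funext e
          obtain ⟨f, rfl⟩ := (φ0 j).surjective e
          rw [m2_tw, τc j hi, ηc j hi, Equiv.symm_apply_apply]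
        rw [h3]
    constructor
    · intro h i
      exact (key i).2 (h (σ i))
    · intro h i
      have h3 := (key (σ i)).1 (h (σ i))
      have h4 : P (σ (σ i)) = P i := congrArg P (hσ i)
      rw [h4] at h3
      exact h3

/-- **Pairs of mirror images satisfy the lattice condition.** -/
theorem slice_of_pairs {σ : Fin n → Fin n} (h : ∀ i, σ (σ i) = i ∧ σ i ≠ i ∧
    Mirror (G i) (G (σ i))) : LatticeSlice (sum G) := by
  obtain ⟨π, η, hπ, hη, hfst, hT⟩ := m2_exists_tw h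
  refine m2_general (O := fun p : Σ j, E j => p.1 < σ p.1)
    (fun x hx y hy => (sum G).cuts_dot_flows hx hy) (fun z hz => (sum G).isFlow_of_dot hz)
    (fun z hz => (sum G).mem_cuts_of_dot fun y hy => ?_) (sum G).finrank_add hπ hη
    (fun p => ?_) hT
  · rw [dotProduct_comm]
    exact hz y hy
  · rw [hfst, (h p.1).1, not_lt]
    exact ⟨fun h' => h'.le, fun h' => lt_of_le_of_ne h' (h p.1).2.1⟩

end Pool.Agent.H758.SQ
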