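import Pool.Agent.H758.SQ.S

/-!
# The partner involution
-/

set_option autoImplicit false

namespace Pool.Agent.H758.SQ

open Finset Matrix

section

variable {A K : Type} [Fintype A] [Fintype K] [DecidableEq K]

theorem s5_count (T : A → K) : ∑ i, (univ.filter fun p => T p = i).card = Fintype.card A := by
  rw [← card_univ]
  exact (card_eq_sum_card_fiberwise (fun _ _ => mem_univ _)).symm

/-- fibres with two elements -/
theorem s5_two (T : A → K) (h : ∀ i, 2 ≤ (univ.filter fun p => T p = i).card)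
    (hc : Fintype.card A = 2 * Fintype.card K) (i : K) :
    (univ.filter fun p => T p = i).card = 2 := by
  have h1 : ∑ i : K, 2 = ∑ i, (univ.filter fun p => T p = i).card := by
    rw [s5_count, hc, sum_const, card_univ, smul_eq_mul, mul_comm]
  exact ((sum_eq_sum_iff_of_le fun i _ => h i).1 h1 i (mem_univ i)).symm

variable [DecidableEq A]

omit [Fintype K] in
/-- the other element -/
theorem s5_pi (T : A → K) (h : ∀ i, (univ.filter fun p => T p = i).card = 2) :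
    ∃ π : A → A, (∀ p, π (π p) = p ∧ π p ≠ p ∧ T (π p) = T p) ∧
      ∀ p, (univ.filter fun q => T q = T p) = {p, π p} := by
  have h1 : ∀ p, ∃ q, (univ.filter fun q => T q = T p).erase p = {q} := by
    intro p
    apply card_eq_one.1
    rw [card_erase_of_mem (by simp), h]
  choose π hπ using h1
  have h2 : ∀ p, π p ≠ p ∧ T (π p) = T p := by
    intro p
    have h3 : π p ∈ (univ.filter fun q => T q = T p).erase p := by
      rw [hπ]
      exact mem_singleton_self _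
    rw [mem_erase, mem_filter] at h3
    exact ⟨h3.1, h3.2.2⟩
  have h4 : ∀ p q, T q = T p → q ≠ p → q = π p := by
    intro p q h5 h6
    have h7 : q ∈ (univ.filter fun q => T q = T p).erase p := by
      rw [mem_erase, mem_filter]
      exact ⟨h6, mem_univ _, h5⟩
    rw [hπ] at h7
    exact mem_singleton.1 h7
  refine ⟨π, fun p => ⟨?_, h2 p⟩, fun p => ?_⟩
  · exact (h4 (π p) p (h2 p).2.symm (h2 p).1.symm).symm
  · ext q
    rw [mem_filter, mem_insert, mem_singleton]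
    constructor
    · rintro ⟨-, h5⟩
      by_cases h6 : q = p
      · exact Or.inl h6
      · exact Or.inr (h4 p q h5 h6)
    · rintro (rfl | rfl)
      · exact ⟨mem_univ _, rfl⟩
      · exact ⟨mem_univ _, (h2 p).2⟩

theorem s5_double (T : A → K) (π : A → A) (hne : ∀ p, π p ≠ p)
    (hf : ∀ p, (univ.filter fun q => T q = T p) = {p, π p}) (a b : A → ℤ) :
    ∑ i, (∑ p, if T p = i then a p else 0) * (∑ q, if T q = i then b q else 0) =
      ∑ p, (a p * b p + a p * b (π p)) := by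
  have h1 : ∀ i, (∑ p, if T p = i then a p else 0) * (∑ q, if T q = i then b q else 0) =
      ∑ p, if T p = i then a p * (∑ q, if T q = T p then b q else 0) else 0 := by
    intro i
    rw [sum_mul]
    refine sum_congr rfl fun p _ => ?_
    by_cases h : T p = i
    · subst h
      rw [if_pos rfl, if_pos rfl]
    · rw [if_neg h, if_neg h, zero_mul]
  rw [sum_congr rfl fun i _ => h1 i, sum_comm]
  refine sum_congr rfl fun p _ => ?_
  rw [sum_ite_eq, if_pos (mem_univ _), ← sum_filter, hf, sum_pair (hne p).symm, mul_add]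

end

section S

variable {n : ℕ} {E : Fin n → Type} [∀ j, Fintype (E j)] [∀ j, DecidableEq (E j)]
  {κ κ' : Type} [Fintype κ] [DecidableEq κ] [Fintype κ'] [DecidableEq κ']
  {C F : ∀ j, Submodule ℤ (E j → ℤ)} {f : Sm C →ₗ[ℤ] (κ → ℤ)} {g : Sm F →ₗ[ℤ] (κ' → ℤ)}

omit [∀ j, Fintype (E j)] [∀ j, DecidableEq (E j)] in
theorem s5_decomp (x : Sm C) :
    x = ∑ j, inj C j ⟨fun e => (x : (Σ j, E j) → ℤ) ⟨j, e⟩, x.2 j⟩ := by
  apply Subtype.ext
  funext ⟨i, e⟩
  rw [Submodule.coe_sum, Finset.sum_apply, sum_eq_single i]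
  · rw [inj_apply, ex_same]
  · intro j _ hj
    rw [inj_apply, ex_ne _ _ hj.symm]
  · intro h
    exact absurd (mem_univ i) h

omit [∀ j, DecidableEq (E j)] [Fintype κ] in
theorem s5_fx {τ : ∀ j, E j → κ} {η : ∀ j, E j → ℤˣ} (hs : ∀ j, Std f j (τ j) (η j)) (x : Sm C)
    (i : κ) : f x i = ∑ p : (Σ j, E j),
      if τ p.1 p.2 = i then (η p.1 p.2 : ℤ) * (x : (Σ j, E j) → ℤ) p else 0 := by
  conv_lhs => rw [s5_decomp x]
  rw [map_sum, Finset.sum_apply, Fintype.sum_sigma]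
  refine sum_congr rfl fun j _ => ?_
  obtain ⟨h1, h2, h3⟩ := hs j
  by_cases hi : ∃ e, τ j e = i
  · obtain ⟨e, rfl⟩ := hi
    rw [h2, sum_eq_single e]
    · rw [if_pos rfl]
    · intro b _ hb
      rw [if_neg fun hh => hb (h1 hh)]
    · intro h
      exact absurd (mem_univ e) h
  · rw [h3 _ _ (fun e he => hi ⟨e, he⟩), sum_eq_zero]
    intro e _
    rw [if_neg fun hh => hi ⟨e, hh⟩]

-- S5 the partner
theorem exists_partner (h : Emb (Sm C) (Sm F) f g)
    {τ : ∀ j, E j → κ} {η : ∀ j, E j → ℤˣ} (hs : ∀ j, Std f j (τ j) (η j))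
    {τ' : ∀ j, E j → κ'} {η' : ∀ j, E j → ℤˣ} (hs' : ∀ j, Std g j (τ' j) (η' j))
    (h2 : ∀ i : κ, 2 ≤ (univ.filter fun p : Σ j, E j => τ p.1 p.2 = i).card)
    (h2' : ∀ i : κ', 2 ≤ (univ.filter fun p : Σ j, E j => τ' p.1 p.2 = i).card) :
    Fintype.card κ = Fintype.card κ' ∧
    ∃ (π : (Σ j, E j) → Σ j, E j) (η : (Σ j, E j) → ℤˣ), (∀ p, π (π p) = p ∧ (π p).1 ≠ p.1 ∧
      η (π p) = η p) ∧ ∀ x ∈ Sm C, ∀ y ∈ Sm C, ∑ p, (η p : ℤ) * x (π p) * y p = 0 := by
  have _ := hs'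
  have c1 : 2 * Fintype.card κ ≤ Fintype.card (Σ j, E j) := by
    rw [← s5_count (fun p : Σ j, E j => τ p.1 p.2)]
    calc 2 * Fintype.card κ = ∑ i : κ, 2 := by
          rw [sum_const, card_univ, smul_eq_mul, mul_comm]
      _ ≤ _ := sum_le_sum fun i _ => h2 i
  have c2 : 2 * Fintype.card κ' ≤ Fintype.card (Σ j, E j) := by
    rw [← s5_count (fun p : Σ j, E j => τ' p.1 p.2)]
    calc 2 * Fintype.card κ' = ∑ i : κ', 2 := by
          rw [sum_const, card_univ, smul_eq_mul, mul_comm]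
      _ ≤ _ := sum_le_sum fun i _ => h2' i
  have c3 := h.rk
  refine ⟨by omega, ?_⟩
  obtain ⟨π, hπ, hf⟩ := s5_pi (fun p : Σ j, E j => τ p.1 p.2)
    (s5_two (fun p : Σ j, E j => τ p.1 p.2) h2 (by omega))
  refine ⟨π, fun p => η p.1 p.2 * η (π p).1 (π p).2, fun p => ⟨(hπ p).1, ?_, ?_⟩, ?_⟩
  · obtain ⟨-, h3, h4⟩ := hπ p
    intro h5
    apply h3
    revert h3 h4 h5
    generalize π p = q
    obtain ⟨i, e⟩ := q
    obtain ⟨j, e'⟩ := p
    intro _ h4 h5
    simp only at h4 h5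
    subst h5
    rw [(hs i).1 h4]
  · show η (π p).1 (π p).2 * η (π (π p)).1 (π (π p)).2 = η p.1 p.2 * η (π p).1 (π p).2
    rw [(hπ p).1, mul_comm]
  · intro x hx y hy
    have h3 := h.isoC ⟨y, hy⟩ ⟨x, hx⟩
    have h4 : f ⟨y, hy⟩ ⬝ᵥ f ⟨x, hx⟩ = ∑ i, (∑ p : (Σ j, E j),
        if τ p.1 p.2 = i then (η p.1 p.2 : ℤ) * y p else 0) * (∑ p : (Σ j, E j),
        if τ p.1 p.2 = i then (η p.1 p.2 : ℤ) * x p else 0) := by
      refine sum_congr rfl fun i _ => ?_
      rw [s5_fx hs, s5_fx hs]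
    rw [h4, s5_double (fun p : Σ j, E j => τ p.1 p.2) π (fun p => (hπ p).2.1) hf,
      sum_add_distrib] at h3
    have h5 : ∑ p : (Σ j, E j), (η p.1 p.2 : ℤ) * y p * ((η p.1 p.2 : ℤ) * x p) = y ⬝ᵥ x := by
      refine sum_congr rfl fun p _ => ?_
      have h6 : (η p.1 p.2 : ℤ) * (η p.1 p.2 : ℤ) = 1 := by
        rw [← Units.val_mul, Int.units_mul_self]
        rfl
      calc _ = ((η p.1 p.2 : ℤ) * (η p.1 p.2 : ℤ)) * (y p * x p) := by ring
        _ = _ := by rw [h6, one_mul]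
    rw [h5] at h3
    have h7 : ∑ p : (Σ j, E j), (η p.1 p.2 : ℤ) * y p * ((η (π p).1 (π p).2 : ℤ) * x (π p)) = 0 := by
      have h8 : ((⟨y, hy⟩ : Sm C) : (Σ j, E j) → ℤ) ⬝ᵥ ((⟨x, hx⟩ : Sm C) : (Σ j, E j) → ℤ) =
        y ⬝ᵥ x := rfl
      rw [h8] at h3
      linarith
    rw [← h7]
    refine sum_congr rfl fun p _ => ?_
    rw [Units.val_mul]
    ring

end S

end Pool.Agent.H758.SQ
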