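import Pool.Agent.H758.SQ.T
import Pool.Agent.H758.SQ.G2
import Pool.Agent.H758.SQ.G5
import Pool.Agent.H758.SQ.G6
import Pool.Agent.H758.SQ.M1
import Pool.Agent.H758.SQ.M2
import Pool.Agent.H758.SQ.S5
import Pool.Agent.H754.Special.Rigid

/-!
# Sums of prime alternating diagrams with anisotropic linking forms
-/

set_option autoImplicit false
set_option linter.unusedSectionVars false

namespace Pool.Agent.H758.SQ

open Finset Matrix
open Pool.Agent.H762.TG (Multigraph dot_self dot_self_nonneg eq_zero_of_dot)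
open Pool.Agent.H758.SR (rank IsIsometry Extends)

variable {n : ℕ} {V E : Fin n → Type} [∀ i, Fintype (V i)] [∀ i, DecidableEq (V i)]
    [∀ i, Fintype (E i)] [∀ i, DecidableEq (E i)] {G : ∀ i, Multigraph (V i) (E i)}

theorem cuts_sum : (sum G).cuts = Sm fun j => (G j).cuts := by
  ext x
  constructor
  · rintro ⟨y, hy⟩ i
    exact ⟨fun v => y ⟨i, v⟩, fun e => hy ⟨i, e⟩⟩
  · intro h
    choose y hy using h
    exact ⟨fun v => y v.1 v.2, fun e => hy e.1 e.2⟩

theorem flows_sum : (sum G).flows = Sm fun j => (G j).flows := by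
  ext x
  constructor
  · intro h i
    apply (dual_graph (G i)).memF
    intro z hz
    have h1 : ex i z ∈ (sum G).cuts := by
      rw [cuts_sum]; exact ex_mem hz
    have h2 := (dual_graph (sum G)).orth _ h1 _ h
    rwa [ex_dot] at h2
  · intro h
    apply (dual_graph (sum G)).memF
    intro z hz
    rw [cuts_sum] at hz
    rw [dot_sum]
    exact sum_eq_zero fun i _ => (dual_graph (G i)).orth _ (hz i) _ (h i)

theorem emb_of_slice (h : LatticeSlice (sum G)) :
    ∃ (f : Sm (fun j => (G j).cuts) →ₗ[ℤ] (Fin (rank (sum G).cuts) → ℤ))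
      (g : Sm (fun j => (G j).flows) →ₗ[ℤ] (Fin (rank (sum G).flows) → ℤ)),
      Emb (Sm fun j => (G j).cuts) (Sm fun j => (G j).flows) f g := by
  obtain ⟨φ, ψ, hφ, hψ, hglue⟩ := h
  have hfr := (sum G).finrank_add
  have hc : ∀ x, x ∈ (sum G).cuts ↔ x ∈ Sm (fun j => (G j).cuts) := fun x => by rw [cuts_sum]
  have hf : ∀ x, x ∈ (sum G).flows ↔ x ∈ Sm (fun j => (G j).flows) := fun x => by rw [flows_sum]
  have hd : Dual (Sm fun j => (G j).cuts) (Sm fun j => (G j).flows) := by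
    have h1 := dual_graph (sum G)
    rwa [cuts_sum, flows_sum] at h1
  let f : Sm (fun j => (G j).cuts) →ₗ[ℤ] (Fin (rank (sum G).cuts) → ℤ) :=
    (AddMonoidHom.mk' (fun x : Sm (fun j => (G j).cuts) => φ x)
      fun x y => (hφ x ((hc _).2 x.2) y ((hc _).2 y.2)).1).toIntLinearMap
  let g : Sm (fun j => (G j).flows) →ₗ[ℤ] (Fin (rank (sum G).flows) → ℤ) :=
    (AddMonoidHom.mk' (fun x : Sm (fun j => (G j).flows) => ψ x)
      fun x y => (hψ x ((hf _).2 x.2) y ((hf _).2 y.2)).1).toIntLinearMap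
  refine ⟨f, g, hd, fun a b => (hφ a ((hc _).2 a.2) b ((hc _).2 b.2)).2,
    fun a b => (hψ a ((hf _).2 a.2) b ((hf _).2 b.2)).2, ?_, ?_, ?_, ?_⟩
  · rw [Fintype.card_fin, SR.rank, cuts_sum]
  · rw [Fintype.card_fin, SR.rank, flows_sum]
  · rw [Fintype.card_fin, Fintype.card_fin]; exact hfr
  · intro z
    have h1 : (∃ w, ∀ x : Sm (fun j => (G j).cuts), f x ⬝ᵥ w = (x : (Σ j, E j) → ℤ) ⬝ᵥ z) ↔
        Extends (sum G).cuts φ z :=
      ⟨fun ⟨w, hw⟩ => ⟨w, fun x hx => hw ⟨x, (hc _).1 hx⟩⟩,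
        fun ⟨w, hw⟩ => ⟨w, fun x => hw x ((hc _).2 x.2)⟩⟩
    have h2 : (∃ w, ∀ x : Sm (fun j => (G j).flows), g x ⬝ᵥ w = (x : (Σ j, E j) → ℤ) ⬝ᵥ z) ↔
        Extends (sum G).flows ψ z :=
      ⟨fun ⟨w, hw⟩ => ⟨w, fun x hx => hw ⟨x, (hf _).1 hx⟩⟩,
        fun ⟨w, hw⟩ => ⟨w, fun x => hw x ((hf _).2 x.2)⟩⟩
    rw [h1, h2]
    exact hglue z

theorem unit_iff {K : Type} {v : K → ℤ} :
    Pool.Agent.H762.TG.IsUnit' v ↔ ∀ k, |v k| ≤ 1 := by
  constructor
  · intro h k
    rcases h k with h1 | h1 | h1 <;> rw [h1] <;> norm_num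
  · intro h k
    have h1 := abs_le.1 (h k)
    omega

/-- the forward direction -/
theorem forward (hP : ∀ i, Prime (G i)) (hO : ∀ i, Odd (det (G i)))
    (hA : ∀ i, Anisotropic (G i)) (h : LatticeSlice (sum G)) :
    ∃ σ : Fin n → Fin n, ∀ i, σ (σ i) = i ∧ σ i ≠ i ∧ Mirror (G i) (G (σ i)) := by
  classical
  obtain ⟨f, g, hE⟩ := emb_of_slice h
  have hd : ∀ j, Dual (G j).cuts (G j).flows := fun j => dual_graph (G j)
  have ho : ∀ j, OddDet (G j).cuts (G j).flows := fun j => oddDet_of_odd (hO j)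
  have ha : ∀ j, Aniso (G j).cuts (G j).flows := fun j => hA j
  have hc : ∀ j, Cub (G j).cuts (G j).flows := fun j => cub_graph (G j)
  have u1 := fun j => unit_pres hE hd ha ho hc j
  have u2 := fun j => unit_pres hE.symm (fun j => (hd j).symm) (fun j => (ha j).symm (hd j))
    (fun j => (ho j).symm) (fun j => (hc j).symm) j
  have s1 : ∀ j, ∃ (τ : E j → Fin (rank (sum G).cuts)) (η : E j → ℤˣ), Std f j τ η := by
    intro j
    obtain ⟨τ, η, a1, a2, a3⟩ := rigid_cuts (G j) (fun e => prime_no_loop (hP j) e)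
      (f.comp (inj (fun j => (G j).cuts) j)) (fun a b => by
        change f (inj _ j a) ⬝ᵥ f (inj _ j b) = _
        rw [hE.isoC, inj_apply, inj_apply, ex_dot]
        congr 1
        funext e
        exact ex_same j _ e) (fun y hy i => u1 j y hy i)
    exact ⟨τ, η, a1, a2, a3⟩
  have s2 : ∀ j, ∃ (τ : E j → Fin (rank (sum G).flows)) (η : E j → ℤˣ), Std g j τ η := by
    intro j
    obtain ⟨τ, η, a1, a2, a3⟩ := Pool.Agent.H754.Special.rigid (G j)
      (fun e => prime_no_bridge (hP j) e)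
      (g.comp (inj (fun j => (G j).flows) j)) (fun a b => by
        change g (inj _ j a) ⬝ᵥ g (inj _ j b) = _
        rw [hE.isoF, inj_apply, inj_apply, ex_dot]
        congr 1
        funext e
        exact ex_same j _ e) (fun y hy => unit_iff.2 fun i => u2 j y (unit_iff.1 hy) i)
    exact ⟨τ, η, a1, a2, a3⟩
  choose τ η hs using s1
  choose τ' η' hs' using s2
  have t1 := used_twice hE hd ha (fun j e => prime_no_bridge (hP j) e) hs
  have t2 := used_twice hE.symm (fun j => (hd j).symm) (fun j => (ha j).symm (hd j))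
    (fun j e => prime_no_loop (hP j) e) hs'
  obtain ⟨hκ, π, ε, hπ, hz⟩ := exists_partner hE hs hs' t1 t2
  exact mirror_pairs hP (fun p => (hπ p).1) (fun p => (hπ p).2.1) (fun p => (hπ p).2.2)
    fun x => twist_iff hE hκ (fun p => (hπ p).1) (fun p => (hπ p).2.2) hz x

theorem main (hP : ∀ i, Prime (G i)) (hO : ∀ i, Odd (det (G i)))
    (hA : ∀ i, Anisotropic (G i)) :
    LatticeSlice (sum G) ↔ ∃ σ : Fin n → Fin n, ∀ i, σ (σ i) = i ∧ σ i ≠ i ∧
      Mirror (G i) (G (σ i)) :=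
  ⟨forward hP hO hA, fun ⟨_, hσ⟩ => slice_of_pairs hσ⟩

end Pool.Agent.H758.SQ
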