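import Pool.Agent.H758.SQ.Main2

/-!
# Summands whose correction terms exclude a partial metabolizer
-/

set_option autoImplicit false
set_option linter.unusedSectionVars false

namespace Pool.Agent.H758.SQ

open Finset Matrix
open Pool.Agent.H762.TG (Multigraph dot_self dot_self_nonneg eq_zero_of_dot)
open Pool.Agent.H758.SR (rank IsIsometry Extends)

section L

variable {E : Type} [Fintype E] [DecidableEq E]

/-- The orthogonal projections of `v` and `v'` to the real span of `C` have the same square: the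
same is true for `c = N v - f` and `c' = N v' - f'` with `c, c' ∈ C` and `f, f' ∈ F`, for all `N`. -/
def SameSquare (C F : Submodule ℤ (E → ℤ)) (v v' : E → ℤ) : Prop :=
  ∀ N : ℤ, ∀ c ∈ C, ∀ c' ∈ C, N • v - c ∈ F → N • v' - c' ∈ F → c ⬝ᵥ c = c' ⬝ᵥ c'

/-- the correction terms of a non-trivial subgroup are not constant -/
def Rg (C F : Submodule ℤ (E → ℤ)) : Prop :=
  ∀ z : E → ℤ, (∀ (k : ℤ) (δ δ' : E → ℤ), Pm δ → Pm δ' → δ ∈ C ⊔ F →
    (∃ t ∈ C ⊔ F, δ' = δ + (2 * k) • z + (2 : ℤ) • t) → SameSquare C F δ δ') → z ∈ C ⊔ F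

variable {C F : Submodule ℤ (E → ℤ)}

theorem odd_norm {v : E → ℤ} (hv : OddV v) : (Fintype.card E : ℤ) ≤ v ⬝ᵥ v := card_le_of_odd hv

theorem sub_two_odd {u : E → ℤ} (hu : OddV u) (s : E → ℤ) : OddV (u + (2 : ℤ) • s) := by
  intro i
  obtain ⟨r, hr⟩ := hu i
  exact ⟨r + s i, by rw [Pi.add_apply, Pi.smul_apply, smul_eq_mul, hr]; ring⟩

theorem sq_add (hd : Dual C F) {c f : E → ℤ} (hc : c ∈ C) (hf : f ∈ F) :
    (c + f) ⬝ᵥ (c + f) = c ⬝ᵥ c + f ⬝ᵥ f := by
  rw [add_dotProduct, dotProduct_add, dotProduct_add, hd.orth _ hc _ hf, dotProduct_comm f c,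
    hd.orth _ hc _ hf]
  ring

/-- a vector of entries `±1` in each class of odd vectors -/
theorem exists_pm_class (hc : Cub C F) {z : E → ℤ} (hz : OddV z) :
    ∃ δ, Pm δ ∧ ∃ t ∈ C ⊔ F, δ = z + (2 : ℤ) • t := by
  obtain ⟨δ, hδ, c, hcC, y, hyF, he⟩ := hc z hz
  refine ⟨δ, hδ, -(c + y), (C ⊔ F).neg_mem (Submodule.add_mem_sup hcC hyF), ?_⟩
  rw [he, smul_neg, smul_add]; abel

/-- a vector of entries `±1` in the class of the spin structure -/
theorem exists_pm_spin (hs : ∀ z : E → ℤ, ∃ k : ℤ, 0 < k ∧ k • z ∈ C ⊔ F) (ho : OddDet C F)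
    (hc : Cub C F) : ∃ δ, Pm δ ∧ δ ∈ C ⊔ F := by
  obtain ⟨k, hk, hkt⟩ := odd_split hs ho fun _ => 1
  obtain ⟨δ, hδ, t, ht, he⟩ := exists_pm_class hc (z := k • fun _ => (1 : ℤ)) fun e => by
    simpa using hk
  refine ⟨δ, hδ, ?_⟩
  rw [he]
  exact (C ⊔ F).add_mem hkt ((C ⊔ F).smul_mem _ ht)

theorem Rg.symm (hd : Dual C F) (h : Rg C F) : Rg F C := by
  intro z hz
  rw [sup_comm]
  apply h
  intro k δ δ' hδ hδ' hm ⟨t, ht, he⟩ N c hc c' hc' hf hf'
  have h1 := hz k δ δ' hδ hδ' (by rw [sup_comm]; exact hm) ⟨t, by rw [sup_comm]; exact ht, he⟩ N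
    _ hf _ hf' (by rw [sub_sub_cancel]; exact hc) (by rw [sub_sub_cancel]; exact hc')
  have h2 := sq_add hd hc hf
  have h3 := sq_add hd hc' hf'
  rw [add_sub_cancel, smul_dotProduct, dotProduct_smul, norm_of_pm hδ] at h2
  rw [add_sub_cancel, smul_dotProduct, dotProduct_smul, norm_of_pm hδ'] at h3
  linarith

/-- anisotropic forms -/
theorem rg_of_aniso (hd : Dual C F) (hs : ∀ z : E → ℤ, ∃ k : ℤ, 0 < k ∧ k • z ∈ C ⊔ F)
    (ho : OddDet C F) (hc : Cub C F) (ha : Aniso C F) : Rg C F := by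
  intro z hz
  obtain ⟨δ, hδ, hδm⟩ := exists_pm_spin hs ho hc
  obtain ⟨δ', hδ', t, ht, he⟩ := exists_pm_class hc (sub_two_odd hδ.odd z)
  obtain ⟨N, hN, hNz⟩ := hs z
  obtain ⟨c, hcC, y, hyF, hcy⟩ := Submodule.mem_sup.1 hNz
  obtain ⟨a, haC, b, hbF, hab⟩ := Submodule.mem_sup.1 hδm
  obtain ⟨p, hpC, q, hqF, hpq⟩ := Submodule.mem_sup.1 ht
  have h1 := hz 1 δ δ' hδ hδ' hδm ⟨t, ht, by rw [mul_one]; exact he⟩ N (N • a) (C.smul_mem _ haC)
    (N • a + (2 : ℤ) • c + (2 * N) • p)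
    (C.add_mem (C.add_mem (C.smul_mem _ haC) (C.smul_mem _ hcC)) (C.smul_mem _ hpC))
    (by
      have h2 : N • δ - N • a = N • b := by rw [← hab, smul_add]; abel
      rw [h2]; exact F.smul_mem _ hbF)
    (by
      have h2 : N • δ' - (N • a + (2 : ℤ) • c + (2 * N) • p) =
          N • b + (2 : ℤ) • y + (2 * N) • q := by
        have h3 : N • δ' = N • δ + (2 : ℤ) • (N • z) + (2 * N) • t := by
          rw [he]
          funext e
          simp only [Pi.smul_apply, Pi.add_apply, smul_eq_mul]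
          ring
        rw [h3, ← hcy, ← hpq, ← hab]
        funext e
        simp only [Pi.smul_apply, Pi.add_apply, Pi.sub_apply, smul_eq_mul]
        ring
      rw [h2]
      exact F.add_mem (F.add_mem (F.smul_mem _ hbF) (F.smul_mem _ hyF)) (F.smul_mem _ hqF))
  have e1 : a ⬝ᵥ c = N * (a ⬝ᵥ z) := by
    have h2 : a ⬝ᵥ (N • z) = a ⬝ᵥ c + a ⬝ᵥ y := by rw [← hcy, dotProduct_add]
    rw [hd.orth _ haC _ hyF, add_zero, dotProduct_smul, smul_eq_mul] at h2
    exact h2.symm
  have e2 : p ⬝ᵥ c = N * (p ⬝ᵥ z) := by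
    have h2 : p ⬝ᵥ (N • z) = p ⬝ᵥ c + p ⬝ᵥ y := by rw [← hcy, dotProduct_add]
    rw [hd.orth _ hpC _ hyF, add_zero, dotProduct_smul, smul_eq_mul] at h2
    exact h2.symm
  apply ha z c hcC y hyF N hN.ne' hcy.symm
  simp only [add_dotProduct, dotProduct_add, smul_dotProduct, dotProduct_smul, smul_eq_mul,
    dotProduct_comm c a, dotProduct_comm c p, e1, e2, dotProduct_comm p a] at h1
  refine ⟨-(a ⬝ᵥ z) - (a ⬝ᵥ p) - 2 * (p ⬝ᵥ z) - (p ⬝ᵥ p), ?_⟩
  have h4 : 4 * (c ⬝ᵥ c) = 4 * (N ^ 2 * (-(a ⬝ᵥ z) - (a ⬝ᵥ p) - 2 * (p ⬝ᵥ z) - (p ⬝ᵥ p))) := by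
    linear_combination -h1
  linarith

/-- even lattices -/
theorem rg_of_even (hd : Dual C F) (hs : ∀ z : E → ℤ, ∃ k : ℤ, 0 < k ∧ k • z ∈ C ⊔ F)
    (ho : OddDet C F) (hc : Cub C F) (hev : ∀ y ∈ F, Even (y ⬝ᵥ y)) : Rg C F := by
  intro z hz
  obtain ⟨δ, hδ, hδm⟩ := exists_pm_spin hs ho hc
  obtain ⟨δ', hδ', t, ht, he⟩ := exists_pm_class hc (sub_two_odd hδ.odd z)
  obtain ⟨N, hN, hNz⟩ := hs z
  obtain ⟨c, hcC, y, hyF, hcy⟩ := Submodule.mem_sup.1 hNz
  obtain ⟨a, haC, b, hbF, hab⟩ := Submodule.mem_sup.1 hδm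
  obtain ⟨p, hpC, q, hqF, hpq⟩ := Submodule.mem_sup.1 ht
  have hb0 : b = 0 := by
    obtain ⟨b', hb'⟩ := gram_odd hd.symm ho.symm ⟨b, hbF⟩ fun y' => by
      change Even (b ⬝ᵥ (y' : E → ℤ))
      have h1 := dot_mod_two (x := (y' : E → ℤ)) hδ.odd
      have h2 : (y' : E → ℤ) ⬝ᵥ δ = b ⬝ᵥ (y' : E → ℤ) := by
        rw [← hab, dotProduct_add, dotProduct_comm _ a, hd.orth _ haC _ y'.2, zero_add,
          dotProduct_comm]
      rw [h2] at h1
      have h5 := Even.add (even_iff_two_dvd.2 h1) (hev y' y'.2)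
      rwa [sub_add_cancel] at h5
    have h1 : b = (2 : ℤ) • (b' : E → ℤ) := congrArg Subtype.val hb'
    have h2 : OddV a := by
      have h3 : a = δ + (2 : ℤ) • (-(b' : E → ℤ)) := by
        rw [← hab, smul_neg, ← h1]; abel
      rw [h3]
      exact sub_two_odd hδ.odd _
    have h3 := odd_norm h2
    have h4 := sq_add hd haC hbF
    rw [hab, norm_of_pm hδ] at h4
    have h5 := dot_self_nonneg b
    exact eq_zero_of_dot (by linarith)
  have ha : a = δ := by rw [← hab, hb0, add_zero]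
  have hfm : N • δ' - (N • a + (2 : ℤ) • c + (2 * N) • p) = (2 : ℤ) • y + (2 * N) • q := by
    have h3 : N • δ' = N • δ + (2 : ℤ) • (N • z) + (2 * N) • t := by
      rw [he]
      funext e
      simp only [Pi.smul_apply, Pi.add_apply, smul_eq_mul]
      ring
    rw [h3, ← hcy, ← hpq, ha]
    funext e
    simp only [Pi.smul_apply, Pi.add_apply, Pi.sub_apply, smul_eq_mul]
    ring
  have hCm : N • a + (2 : ℤ) • c + (2 * N) • p ∈ C :=
    C.add_mem (C.add_mem (C.smul_mem _ haC) (C.smul_mem _ hcC)) (C.smul_mem _ hpC)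
  have hFm : (2 : ℤ) • y + (2 * N) • q ∈ F := F.add_mem (F.smul_mem _ hyF) (F.smul_mem _ hqF)
  have h1 := hz 1 δ δ' hδ hδ' hδm ⟨t, ht, by rw [mul_one]; exact he⟩ N (N • a) (C.smul_mem _ haC)
    _ hCm (by rw [ha, sub_self]; exact F.zero_mem) (by rw [hfm]; exact hFm)
  have h2 := sq_add hd hCm hFm
  rw [← hfm, add_sub_cancel, hfm, ← h1, ha] at h2
  simp only [smul_dotProduct, dotProduct_smul, smul_eq_mul] at h2
  rw [norm_of_pm hδ, norm_of_pm hδ'] at h2
  have h3 : (2 : ℤ) • y + (2 * N) • q = 0 := eq_zero_of_dot (by linarith)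
  have h4 : z + q ∈ C := by
    apply hd.memC
    intro y' hy'
    have h5 : N • (z + q) = c := by
      have h6 : y + N • q = 0 := by
        funext e
        have h7 := congrFun h3 e
        simp only [Pi.smul_apply, Pi.add_apply, smul_eq_mul, Pi.zero_apply] at h7 ⊢
        linarith
      rw [smul_add, ← hcy, add_assoc, h6, add_zero]
    have h6 := hd.orth _ hcC _ hy'
    rw [← h5, smul_dotProduct, smul_eq_mul] at h6
    rw [dotProduct_comm]
    exact (mul_eq_zero.1 h6).resolve_left hN.ne'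
  have h5 : z = (z + q) + (-q) := by abel
  rw [h5]
  exact Submodule.add_mem_sup h4 (F.neg_mem hqF)

end L


section M

variable {E κ κ' : Type} [Fintype E] [DecidableEq E] [Fintype κ] [DecidableEq κ] [Fintype κ']
  [DecidableEq κ'] {C F : Submodule ℤ (E → ℤ)} {f : C →ₗ[ℤ] (κ → ℤ)} {g : F →ₗ[ℤ] (κ' → ℤ)}

/-- the extension of a vector of entries `±1` has the square `card κ` -/
theorem Emb.norm_pm (h : Emb C F f g) (ho : OddDet C F) {δ : E → ℤ} (hδ : Pm δ) {w : κ → ℤ}
    (hw : ∀ x : C, f x ⬝ᵥ w = (x : E → ℤ) ⬝ᵥ δ) : w ⬝ᵥ w = Fintype.card κ := by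
  obtain ⟨w', hw'⟩ := (h.comp δ).1 ⟨w, hw⟩
  have o1 := h.odd ho hδ.odd hw
  have o2 := h.symm.odd ho.symm hδ.odd hw'
  have hnorm := h.norm hw hw'
  rw [norm_of_pm hδ, ← h.rk] at hnorm
  push_cast at hnorm
  have l1 := card_le_of_odd o1
  have l2 := card_le_of_odd o2
  linarith

/-- the cut part of an extendable vector of entries `±1` -/
theorem Emb.cut_pm (h : Emb C F f g) (ho : OddDet C F) {δ : E → ℤ} (hδ : Pm δ)
    (hw : ∃ w, ∀ x : C, f x ⬝ᵥ w = (x : E → ℤ) ⬝ᵥ δ) {N : ℤ} {c : E → ℤ} (hc : c ∈ C)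
    (hN : N • δ - c ∈ F) : c ⬝ᵥ c = N ^ 2 * Fintype.card κ := by
  obtain ⟨w, hw⟩ := hw
  have h1 := h.smul_eq hw (x := ⟨c, hc⟩) hN (by abel)
  have h2 := h.isoC ⟨c, hc⟩ ⟨c, hc⟩
  rw [← h1, smul_dotProduct, dotProduct_smul, h.norm_pm ho hδ hw, smul_eq_mul, smul_eq_mul] at h2
  change _ = c ⬝ᵥ c at h2
  rw [← h2]; ring

end M

section S

variable {n : ℕ} {E : Fin n → Type} [∀ j, Fintype (E j)] [∀ j, DecidableEq (E j)]
  {κ κ' : Type} [Fintype κ] [DecidableEq κ] [Fintype κ'] [DecidableEq κ']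
  {C F : ∀ j, Submodule ℤ (E j → ℤ)} {f : Sm C →ₗ[ℤ] (κ → ℤ)} {g : Sm F →ₗ[ℤ] (κ' → ℤ)}

theorem ext_of_mem (h : Emb (Sm C) (Sm F) f g) {z : (Σ j, E j) → ℤ} (hz : z ∈ Sm C ⊔ Sm F) :
    Ext f z := by
  obtain ⟨a, ha, b, hb, rfl⟩ := Submodule.mem_sup.1 hz
  refine ⟨f ⟨a, ha⟩, fun x => ?_⟩
  rw [h.isoC, dotProduct_add, h.dual.orth _ x.2 _ hb, add_zero]

theorem Ext.add_smul {z z' : (Σ j, E j) → ℤ} (h : Ext f z) (h' : Ext f z') (k : ℤ) :
    Ext f (z + k • z') := by
  obtain ⟨w, hw⟩ := h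
  obtain ⟨w', hw'⟩ := h'
  exact ⟨w + k • w', fun x => by
    rw [dotProduct_add, dotProduct_add, dotProduct_smul, dotProduct_smul, hw, hw']⟩

theorem split_one (h : Emb (Sm C) (Sm F) f g) (j : Fin n) (t : E j → ℤ) :
    ∃ k : ℤ, 0 < k ∧ k • t ∈ C j ⊔ F j := by
  obtain ⟨k, hk, x, hx, y, hy, hxy⟩ := h.split (ex j t)
  refine ⟨k, hk, Submodule.mem_sup.2 ⟨_, hx j, _, hy j, ?_⟩⟩
  funext e
  have h1 := congrFun hxy ⟨j, e⟩
  rw [Pi.smul_apply, ex_same] at h1
  exact h1.symm

/-- **Key lemma**: the metabolizer does not meet a summand whose correction terms are not constant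
on a non-trivial subgroup. -/
theorem triv_of_rg (h : Emb (Sm C) (Sm F) f g) (ho : ∀ j, OddDet (C j) (F j))
    (hc : ∀ j, Cub (C j) (F j)) {j : Fin n} (hR : Rg (C j) (F j)) : Triv C F f {j} := by
  intro z hz hw
  have hO := oddDet_Sm ho
  choose δ₀ hδ₀ hm₀ using fun i => exists_pm_spin (split_one h i) (ho i) (hc i)
  choose a haC b hbF hab using fun i => Submodule.mem_sup.1 (hm₀ i)
  rw [mem_sup_Sm]
  intro l
  by_cases hl : l = j
  · subst hl
    apply hR
    intro k δ δ' hδ hδ' hδm ⟨t, ht, he⟩ N c hcC c' hcC' hf hf'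
    -- the vectors on the sum
    have key : ∀ (d c : E l → ℤ), Pm d → c ∈ C l → N • d - c ∈ F l →
        Ext f (fun p : Σ j, E j => Function.update δ₀ l d p.1 p.2) →
        c ⬝ᵥ c + ∑ i ∈ univ.erase l, (N • a i) ⬝ᵥ (N • a i) = N ^ 2 * Fintype.card κ := by
      intro d c hd hcC hf hE
      have hpm : Pm (fun p : Σ j, E j => Function.update δ₀ l d p.1 p.2) := by
        rintro ⟨i, e⟩
        by_cases hi : i = l
        · subst hi
          simp only [Function.update_self]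
          exact hd e
        · simp only [Function.update_of_ne hi]
          exact hδ₀ i e
      have h1 := h.cut_pm hO hpm hE (N := N)
        (c := fun p : Σ j, E j => Function.update (fun i => N • a i) l c p.1 p.2) (by
          intro i
          by_cases hi : i = l
          · subst hi
            simp only [Function.update_self]
            exact hcC
          · simp only [Function.update_of_ne hi]
            exact (C i).smul_mem _ (haC i)) (by
          intro i
          by_cases hi : i = l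
          · subst hi
            simp only [Pi.sub_apply, Pi.smul_apply, Function.update_self]
            exact hf
          · simp only [Pi.sub_apply, Pi.smul_apply, Function.update_of_ne hi]
            have h2 : (fun e => N • δ₀ i e - N • a i e) = N • b i := by
              funext e
              rw [← hab i]
              simp only [Pi.smul_apply, Pi.add_apply, smul_eq_mul]
              ring
            rw [h2]
            exact (F i).smul_mem _ (hbF i))
      rw [← h1, dot_sum, ← add_sum_erase univ _ (mem_univ l)]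
      congr 1
      · simp only [Function.update_self]
      · apply sum_congr rfl
        intro i hi
        simp only [Function.update_of_ne (ne_of_mem_erase hi)]
    have hE1 : Ext f (fun p : Σ j, E j => Function.update δ₀ l δ p.1 p.2) := by
      apply ext_of_mem h
      rw [mem_sup_Sm]
      intro i
      by_cases hi : i = l
      · subst hi
        simp only [Function.update_self]
        exact hδm
      · simp only [Function.update_of_ne hi]
        exact hm₀ i
    have hE2 : Ext f (fun p : Σ j, E j => Function.update δ₀ l δ' p.1 p.2) := by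
      have h1 : (fun p : Σ j, E j => Function.update δ₀ l δ' p.1 p.2) =
          (fun p : Σ j, E j => Function.update δ₀ l δ p.1 p.2) + (2 * k) • z +
            (2 : ℤ) • ex l t := by
        funext ⟨i, e⟩
        by_cases hi : i = l
        · subst hi
          simp only [Function.update_self, Pi.add_apply, Pi.smul_apply, ex_same]
          exact congrFun he e
        · simp only [Function.update_of_ne hi, Pi.add_apply, Pi.smul_apply, ex_ne _ _ hi,
            hz ⟨i, e⟩ (by simpa using hi), smul_zero, add_zero]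
      rw [h1]
      refine (hE1.add_smul hw _).add_smul (ext_of_mem h ?_) _
      rw [mem_sup_Sm]
      intro i
      by_cases hi : i = l
      · subst hi
        simp only [ex_same]
        exact ht
      · simp only [ex_ne _ _ hi]
        exact Submodule.zero_mem _
    have k1 := key δ c hδ hcC hf hE1
    have k2 := key δ' c' hδ' hcC' hf' hE2
    linarith
  · have h1 : (fun e => z ⟨l, e⟩) = 0 := funext fun e => hz ⟨l, e⟩ (by simpa using hl)
    rw [h1]
    exact Submodule.zero_mem _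

end S

end Pool.Agent.H758.SQ
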