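import Pool.Agent.H758.SQ.Rg2

/-!
# Sums of rigid prime alternating diagrams
-/

set_option autoImplicit false
set_option linter.unusedSectionVars false

namespace Pool.Agent.H758.SQ

open Finset Matrix
open Pool.Agent.H762.TG (Multigraph dot_self dot_self_nonneg eq_zero_of_dot)
open Pool.Agent.H758.SR (rank IsIsometry Extends)

section G

variable {V E : Type} [Fintype E] [DecidableEq V]

/-- The correction terms of the double branched cover do not descend to a proper subquotient of the
linking form: let `H` be a subgroup of `E → ℤ` which contains the cuts and the flows, such that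
any two vectors `δ` and `δ'` with all entries `1` or `-1` whose difference is in `2 H` and which are
orthogonal to `H` (see `Orth`) have projections of the same square to the real span of the cuts
(see `SameSquare`); then `H` is the sum of the lattices of cuts and of flows. -/
def Rigid (G : Multigraph V E) : Prop :=
  ∀ H : Submodule ℤ (E → ℤ), G.cuts ⊔ G.flows ≤ H → (∀ δ δ' : E → ℤ, Pm δ → Pm δ' →
    Orth G.cuts G.flows H δ → (∃ h ∈ H, δ' = δ + (2 : ℤ) • h) →
      SameSquare G.cuts G.flows δ δ') → H ≤ G.cuts ⊔ G.flows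

theorem exists_mul_mem (G : Multigraph V E) [DecidableEq E] (h : det G ≠ 0) (z : E → ℤ) :
    ∃ k : ℤ, 0 < k ∧ k • z ∈ G.cuts ⊔ G.flows := by
  refine ⟨(det G : ℤ), by exact_mod_cast Nat.pos_of_ne_zero h, ?_⟩
  have h1 := (G.cuts ⊔ G.flows).toAddSubgroup.nsmul_index_mem z
  have h2 : ((det G : ℕ) : ℤ) • z = det G • z := natCast_zsmul z (det G)
  rw [h2]
  exact h1

theorem Special.rigid [Fintype V] [DecidableEq E] {G : Multigraph V E} (hO : Odd (det G))
    (h : Special G) : Rigid G := by
  have hd := dual_graph G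
  have ho := oddDet_of_odd hO
  have hc := cub_graph G
  have hs := exists_mul_mem G (fun h0 => by rw [h0] at hO; simp at hO)
  rcases h with h | h
  · exact rg2_of_rg hd (rg_of_even hd hs ho hc h)
  · exact rg2_of_rg hd ((rg_of_even hd.symm (fun z => by rw [sup_comm]; exact hs z) ho.symm
      hc.symm h).symm hd.symm)

theorem Anisotropic.rigid [Fintype V] [DecidableEq E] {G : Multigraph V E} (hO : Odd (det G))
    (h : Anisotropic G) : Rigid G :=
  rg2_of_rg (dual_graph G) (rg_of_aniso (dual_graph G)
    (exists_mul_mem G (fun h0 => by rw [h0] at hO; simp at hO)) (oddDet_of_odd hO) (cub_graph G) h)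

end G

variable {n : ℕ} {V E : Fin n → Type} [∀ i, Fintype (V i)] [∀ i, DecidableEq (V i)]
    [∀ i, Fintype (E i)] [∀ i, DecidableEq (E i)] {G : ∀ i, Multigraph (V i) (E i)}

/-- a rigid summand is not met by the metabolizer -/
theorem triv_of_rigid {κ κ' : Type} [Fintype κ] [DecidableEq κ] [Fintype κ'] [DecidableEq κ']
    {f : Sm (fun j => (G j).cuts) →ₗ[ℤ] (κ → ℤ)} {g : Sm (fun j => (G j).flows) →ₗ[ℤ] (κ' → ℤ)}
    (hE : Emb (Sm fun j => (G j).cuts) (Sm fun j => (G j).flows) f g)
    (hO : ∀ j, Odd (det (G j))) {j : Fin n} (hR : Rigid (G j)) :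
    Triv (fun j => (G j).cuts) (fun j => (G j).flows) f {j} :=
  triv_of_rg2 hE (fun j => dual_graph (G j)) (fun j => oddDet_of_odd (hO j))
    (fun j => cub_graph (G j)) hR

/-- **The main theorem.** -/
theorem main4 (hP : ∀ i, Prime (G i)) (hO : ∀ i, Odd (det (G i))) (hR : ∀ i, Rigid (G i)) :
    LatticeSlice (sum G) ↔ ∃ σ : Fin n → Fin n, ∀ i, σ (σ i) = i ∧ σ i ≠ i ∧
      Mirror (G i) (G (σ i)) := by
  constructor
  · intro h
    obtain ⟨f, g, hE⟩ := emb_of_slice h
    exact forward_of_triv hP hO hE fun j => triv_of_rigid hE hO (hR j)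
  · rintro ⟨_, hσ⟩
    exact slice_of_pairs hσ

end Pool.Agent.H758.SQ
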