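import Pool.Agent.H758.SQ.X

/-!
# Summands with even lattices
-/

set_option autoImplicit false
set_option linter.unusedSectionVars false

namespace Pool.Agent.H758.SQ

open Finset Matrix
open Pool.Agent.H762.TG (Multigraph dot_self dot_self_nonneg eq_zero_of_dot)
open Pool.Agent.H762.TG.Multigraph

section L

variable {E κ κ' : Type} [Fintype E] [DecidableEq E] [Fintype κ] [DecidableEq κ] [Fintype κ']
  [DecidableEq κ'] {C F : Submodule ℤ (E → ℤ)} {f : C →ₗ[ℤ] (κ → ℤ)} {g : F →ₗ[ℤ] (κ' → ℤ)}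

/-- the functional given by an odd vector is given by an odd function -/
theorem Emb.exists_odd_of (h : Emb C F f g) {w : κ → ℤ} (hw : OddV w) :
    ∃ z : E → ℤ, OddV z ∧ ∀ x : C, f x ⬝ᵥ w = (x : E → ℤ) ⬝ᵥ z := by
  obtain ⟨z₀, hz₀⟩ := h.dual.repC
    { toFun := fun x => f x ⬝ᵥ w
      map_add' := fun a b => by rw [map_add, add_dotProduct]
      map_smul' := fun c a => by rw [map_smul, smul_dotProduct]; rfl }
  have hz1 : ∀ x : C, f x ⬝ᵥ w = (x : E → ℤ) ⬝ᵥ z₀ := hz₀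
  have hev : ∀ x : C, (2 : ℤ) ∣ (x : E → ℤ) ⬝ᵥ (z₀ - fun _ => 1) := by
    intro x
    have h1 := dot_mod_two (z := w) (x := f x) hw
    have h2 := dot_mod_two (z := fun _ : E => (1 : ℤ)) (x := (x : E → ℤ)) fun _ => odd_one
    rw [hz1, h.isoC] at h1
    rw [dotProduct_sub]
    have h3 := dvd_sub h1 h2
    rwa [sub_sub_sub_cancel_right] at h3
  choose s hs using hev
  obtain ⟨t, ht⟩ := h.dual.repC
    { toFun := s
      map_add' := fun a b => by
        have h1 := hs (a + b)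
        rw [Submodule.coe_add, add_dotProduct, hs a, hs b] at h1
        linarith
      map_smul' := fun c a => by
        have h1 := hs (c • a)
        rw [Submodule.coe_smul, smul_dotProduct, hs a, smul_eq_mul] at h1
        simp only [RingHom.id_apply, smul_eq_mul]
        linarith }
  have ht1 : ∀ x : C, s x = (x : E → ℤ) ⬝ᵥ t := ht
  refine ⟨fun e => 1 + 2 * t e, fun e => ⟨t e, by ring⟩, fun x => ?_⟩
  have h1 : (fun e => 1 + 2 * t e) = (fun _ => (1 : ℤ)) + (2 : ℤ) • t := by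
    funext e; simp
  rw [h1, dotProduct_add, dotProduct_smul, ← ht1, hz1, smul_eq_mul, ← hs, dotProduct_sub]
  ring

/-- **Sharpness**: the two compatible embeddings are cubiquitous. -/
theorem Emb.sharp (h : Emb C F f g) (ho : OddDet C F) (hc : Cub C F) {w : κ → ℤ} (hw : OddV w) :
    ∃ c : C, Pm (w - (2 : ℤ) • f c) := by
  obtain ⟨z, hzo, hz⟩ := h.exists_odd_of hw
  obtain ⟨w', hw'⟩ := (h.comp z).1 ⟨w, hz⟩
  obtain ⟨δ, hδ, c, hcC, y, hyF, he⟩ := hc z hzo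
  have e1 : ∀ x : C, f x ⬝ᵥ (w - (2 : ℤ) • f ⟨c, hcC⟩) = (x : E → ℤ) ⬝ᵥ δ := by
    intro x
    rw [dotProduct_sub, dotProduct_smul, hz, h.isoC, he, dotProduct_add, dotProduct_add,
      dotProduct_smul, dotProduct_smul, h.dual.orth _ x.2 _ hyF]
    simp
  have e2 : ∀ x : F, g x ⬝ᵥ (w' - (2 : ℤ) • g ⟨y, hyF⟩) = (x : E → ℤ) ⬝ᵥ δ := by
    intro x
    rw [dotProduct_sub, dotProduct_smul, hw', h.isoF, he, dotProduct_add, dotProduct_add,
      dotProduct_smul, dotProduct_smul, dotProduct_comm (x : E → ℤ) c,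
      h.dual.orth _ hcC _ x.2]
    simp
  have o1 := h.odd ho hδ.odd e1
  have o2 := h.symm.odd ho.symm hδ.odd e2
  have hnorm := h.norm e1 e2
  rw [norm_of_pm hδ, ← h.rk] at hnorm
  push_cast at hnorm
  have l1 := card_le_of_odd o1
  have l2 := card_le_of_odd o2
  exact ⟨⟨c, hcC⟩, pm_of_norm o1 (by linarith)⟩

/-- odd multiples are sums of cuts and flows -/
theorem odd_split (hs : ∀ z : E → ℤ, ∃ k : ℤ, 0 < k ∧ k • z ∈ C ⊔ F) (ho : OddDet C F)
    (t : E → ℤ) : ∃ k : ℤ, Odd k ∧ k • t ∈ C ⊔ F := by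
  classical
  have hex : ∃ k : ℕ, 0 < k ∧ (k : ℤ) • t ∈ C ⊔ F := by
    obtain ⟨k, hk, hx⟩ := hs t
    exact ⟨k.toNat, by omega, by rw [Int.toNat_of_nonneg hk.le]; exact hx⟩
  obtain ⟨h1, hx⟩ := Nat.find_spec hex
  refine ⟨(Nat.find hex : ℤ), ?_, hx⟩
  by_contra hev
  rw [Int.not_odd_iff_even] at hev
  obtain ⟨m, hm⟩ : ∃ m : ℕ, Nat.find hex = 2 * m := by
    have : Even (Nat.find hex) := by exact_mod_cast hev
    obtain ⟨m, hm⟩ := this
    exact ⟨m, by omega⟩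
  have h2 : (m : ℤ) • t ∈ C ⊔ F := by
    apply ho
    rw [smul_smul]
    rw [hm] at hx
    exact_mod_cast hx
  exact Nat.find_min hex (m := m) (by omega) ⟨by omega, h2⟩

end L

section S

variable {n : ℕ} {E : Fin n → Type} [∀ j, Fintype (E j)] [∀ j, DecidableEq (E j)]
  {κ κ' : Type} [Fintype κ] [DecidableEq κ] [Fintype κ'] [DecidableEq κ']
  {C F : ∀ j, Submodule ℤ (E j → ℤ)} {f : Sm C →ₗ[ℤ] (κ → ℤ)} {g : Sm F →ₗ[ℤ] (κ' → ℤ)}

theorem cub_Sm (hc : ∀ j, Cub (C j) (F j)) : Cub (Sm C) (Sm F) := by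
  intro z hz
  choose δ hδ c hcC y hyF he using fun j => hc j (fun e => z ⟨j, e⟩) fun e => hz _
  refine ⟨fun p => δ p.1 p.2, fun p => hδ p.1 p.2, fun p => c p.1 p.2, fun j => hcC j,
    fun p => y p.1 p.2, fun j => hyF j, ?_⟩
  funext ⟨j, e⟩
  exact congrFun (he j) e

theorem Triv.symm (h : Emb (Sm C) (Sm F) f g) {X : Finset (Fin n)} (hX : Triv C F f X) :
    Triv F C g X := by
  intro z hz hw
  rw [sup_comm]
  exact hX z hz ((h.comp z).2 hw)

theorem inj_dot (j : Fin n) (y : F j) (x : (Σ j, E j) → ℤ) :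
    (inj F j y : (Σ j, E j) → ℤ) ⬝ᵥ x = (y : E j → ℤ) ⬝ᵥ fun e => x ⟨j, e⟩ := by
  rw [inj_apply, ex_dot]

theorem inj_dot_inj (j : Fin n) (y y' : F j) :
    (inj F j y : (Σ j, E j) → ℤ) ⬝ᵥ (inj F j y' : (Σ j, E j) → ℤ) =
      (y : E j → ℤ) ⬝ᵥ (y' : E j → ℤ) := by
  rw [inj_dot]
  congr 1
  funext e
  exact ex_same j _ e

/-- a single summand with an even lattice of flows -/
theorem triv_of_even (h : Emb (Sm C) (Sm F) f g) (hd : ∀ j, Dual (C j) (F j))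
    (ho : ∀ j, OddDet (C j) (F j)) (hc : ∀ j, Cub (C j) (F j)) {j : Fin n}
    (hev : ∀ y ∈ F j, Even (y ⬝ᵥ y)) : Triv C F f {j} := by
  intro z hz ⟨w, hw⟩
  obtain ⟨w', hw'⟩ := (h.comp z).1 ⟨w, hw⟩
  obtain ⟨m, hm, a, haC, b, hbF, hab⟩ := h.split z
  have hfb : m • w' = g ⟨b, hbF⟩ :=
    h.symm.smul_eq hw' (x := ⟨b, hbF⟩) haC (by rw [hab, add_comm])
  have hb0 : ∀ k, k ≠ j → (fun e => b ⟨k, e⟩) = 0 := by
    intro k hkj
    have h1 : (fun e => a ⟨k, e⟩) + (fun e => b ⟨k, e⟩) = 0 := by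
      funext e
      have h2 := congrFun hab ⟨k, e⟩
      rw [Pi.smul_apply, hz ⟨k, e⟩ (by simpa using hkj), smul_zero] at h2
      exact h2.symm
    have h3 : (fun e => b ⟨k, e⟩) ∈ C k := by
      rw [eq_neg_of_add_eq_zero_right h1]
      exact (C k).neg_mem (haC k)
    exact eq_zero_of_dot ((hd k).orth _ h3 _ (hbF k))
  have hbj : (⟨b, hbF⟩ : Sm F) = inj F j ⟨fun e => b ⟨j, e⟩, hbF j⟩ := by
    apply Subtype.ext
    funext ⟨k, e⟩
    by_cases hk : k = j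
    · subst hk
      rw [inj_apply, ex_same]
    · rw [inj_apply, ex_ne _ _ hk]
      exact congrFun (hb0 k hk) e
  -- the split of the j-th pair
  have hsp : ∀ t : E j → ℤ, ∃ k : ℤ, 0 < k ∧ k • t ∈ C j ⊔ F j := by
    intro t
    obtain ⟨k, hk, x, hx, y, hy, hxy⟩ := h.split (ex j t)
    refine ⟨k, hk, Submodule.mem_sup.2 ⟨_, hx j, _, hy j, ?_⟩⟩
    funext e
    have h1 := congrFun hxy ⟨j, e⟩
    rw [Pi.smul_apply, ex_same] at h1
    exact h1.symm
  -- an odd vector orthogonal to the image of the j-th lattice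
  obtain ⟨v, hvo, hv⟩ : ∃ v : κ' → ℤ, OddV v ∧ ∀ y : F j, g (inj F j y) ⬝ᵥ v = 0 := by
    obtain ⟨t, ht⟩ := (hd j).repF
      { toFun := fun y => g (inj F j y) ⬝ᵥ (fun _ => (1 : ℤ))
        map_add' := fun a b => by rw [map_add, map_add, add_dotProduct]
        map_smul' := fun c a => by rw [map_smul, map_smul, smul_dotProduct]; rfl }
    have ht1 : ∀ y : F j, g (inj F j y) ⬝ᵥ (fun _ => (1 : ℤ)) = (y : E j → ℤ) ⬝ᵥ t := ht
    obtain ⟨k, hk, hkt⟩ := odd_split hsp (ho j) t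
    obtain ⟨c, hcC, y₀, hy₀, hcy⟩ := Submodule.mem_sup.1 hkt
    have h1 : ∀ y : F j, y₀ ⬝ᵥ (y : E j → ℤ) = k * (g (inj F j y) ⬝ᵥ (fun _ => (1 : ℤ))) := by
      intro y
      have h2 : (y : E j → ℤ) ⬝ᵥ (k • t) = (y : E j → ℤ) ⬝ᵥ c + (y : E j → ℤ) ⬝ᵥ y₀ := by
        rw [← hcy, dotProduct_add]
      rw [dotProduct_comm (y : E j → ℤ) c, (hd j).orth _ hcC _ y.2, zero_add, dotProduct_smul,
        smul_eq_mul, ← ht1] at h2
      rw [dotProduct_comm, ← h2]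
    obtain ⟨b', hb'⟩ := gram_odd (hd j).symm (ho j).symm ⟨y₀, hy₀⟩ fun y => by
      change Even (y₀ ⬝ᵥ (y : E j → ℤ))
      rw [h1]
      apply Even.mul_left
      have h3 := dot_mod_two (z := fun _ : κ' => (1 : ℤ)) (x := g (inj F j y)) fun _ => odd_one
      rw [h.isoF, inj_dot_inj] at h3
      have h4 := hev y y.2
      have h5 := Even.add (even_iff_two_dvd.2 h3) h4
      rwa [sub_add_cancel] at h5
    refine ⟨k • (fun _ => (1 : ℤ)) - (2 : ℤ) • g (inj F j b'), fun i => ?_, fun y => ?_⟩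
    · obtain ⟨r, hr⟩ := hk
      refine ⟨r - g (inj F j b') i, ?_⟩
      simp only [Pi.sub_apply, Pi.smul_apply, smul_eq_mul, hr]
      ring
    · rw [dotProduct_sub, dotProduct_smul, dotProduct_smul, smul_eq_mul, smul_eq_mul, ← h1,
        h.isoF, inj_dot_inj]
      have h6 : y₀ = (2 : ℤ) • (b' : E j → ℤ) := congrArg Subtype.val hb'
      rw [h6, smul_dotProduct, smul_eq_mul, dotProduct_comm (y : E j → ℤ), sub_self]
  -- decomposition of vectors of the sum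
  have hO := (oddDet_Sm ho).symm
  have hC := (cub_Sm hc).symm
  have hdec : ∀ c : Sm F, ∃ cj : F j, ∃ cr : Sm F, c = cr + inj F j cj ∧
      ∀ y : F j, g (inj F j y) ⬝ᵥ g cr = 0 := by
    intro c
    refine ⟨⟨fun e => (c : (Σ j, E j) → ℤ) ⟨j, e⟩, c.2 j⟩,
      c - inj F j ⟨fun e => (c : (Σ j, E j) → ℤ) ⟨j, e⟩, c.2 j⟩, by abel, fun y => ?_⟩
    rw [h.isoF, inj_dot]
    have h1 : (fun e => ((c - inj F j ⟨fun e => (c : (Σ j, E j) → ℤ) ⟨j, e⟩, c.2 j⟩ : Sm F) :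
        (Σ j, E j) → ℤ) ⟨j, e⟩) = 0 := by
      funext e
      change (c : (Σ j, E j) → ℤ) ⟨j, e⟩ - ex j _ ⟨j, e⟩ = 0
      rw [ex_same]; simp
    rw [h1, dotProduct_zero]
  have hsub : ∀ (u : κ' → ℤ), OddV u → ∀ s : κ' → ℤ, OddV (u - (2 : ℤ) • s) := by
    intro u hu s i
    obtain ⟨r, hr⟩ := hu i
    exact ⟨r - s i, by rw [Pi.sub_apply, Pi.smul_apply, smul_eq_mul, hr]; ring⟩
  have hnrm : ∀ u s : κ' → ℤ, u ⬝ᵥ s = 0 → (u + (2 : ℤ) • s) ⬝ᵥ (u + (2 : ℤ) • s) =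
      u ⬝ᵥ u + 4 * (s ⬝ᵥ s) := by
    intro u s hus
    rw [add_dotProduct, dotProduct_add, dotProduct_add, dotProduct_smul, smul_dotProduct,
      smul_dotProduct, dotProduct_smul, hus, dotProduct_comm s u, hus]
    simp only [smul_eq_mul]
    ring
  -- a ±1 vector orthogonal to the image of the j-th lattice
  obtain ⟨u, hu, huo⟩ : ∃ u : κ' → ℤ, Pm u ∧ ∀ y : F j, g (inj F j y) ⬝ᵥ u = 0 := by
    obtain ⟨c, hcp⟩ := h.symm.sharp hO hC hvo
    obtain ⟨cj, cr, hce, hcr⟩ := hdec c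
    have ho1 := hsub v hvo (g cr)
    have hort : ∀ y : F j, g (inj F j y) ⬝ᵥ (v - (2 : ℤ) • g cr) = 0 := by
      intro y
      rw [dotProduct_sub, dotProduct_smul, hv, hcr, smul_zero, sub_zero]
    refine ⟨v - (2 : ℤ) • g cr, pm_of_norm ho1 ?_, hort⟩
    have h1 : v - (2 : ℤ) • g c = (v - (2 : ℤ) • g cr) + (2 : ℤ) • (-g (inj F j cj)) := by
      rw [hce, map_add, smul_add, smul_neg]; abel
    have h2 := norm_of_pm hcp
    rw [h1, hnrm _ _ (by rw [dotProduct_neg, dotProduct_comm, hort, neg_zero])] at h2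
    have h3 := dot_self_nonneg (-g (inj F j cj))
    linarith
  -- the vector `w'` is in the image
  obtain ⟨c, hcp⟩ := h.symm.sharp (w := u + (2 : ℤ) • w') hO hC (by
    intro i
    obtain ⟨r, hr⟩ := hu.odd i
    exact ⟨r + w' i, by rw [Pi.add_apply, Pi.smul_apply, smul_eq_mul, hr]; ring⟩)
  obtain ⟨cj, cr, hce, hcr⟩ := hdec c
  have ho1 := hsub u hu.odd (g cr)
  have hort : ∀ y : F j, g (inj F j y) ⬝ᵥ (u - (2 : ℤ) • g cr) = 0 := by
    intro y
    rw [dotProduct_sub, dotProduct_smul, huo, hcr, smul_zero, sub_zero]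
  have hort2 : (u - (2 : ℤ) • g cr) ⬝ᵥ (w' - g (inj F j cj)) = 0 := by
    rw [dotProduct_sub, dotProduct_comm _ (g (inj F j cj)), hort, sub_zero]
    have h1 : (u - (2 : ℤ) • g cr) ⬝ᵥ (m • w') = 0 := by
      rw [hfb, hbj, dotProduct_comm, hort]
    rw [dotProduct_smul, smul_eq_mul] at h1
    exact (mul_eq_zero.1 h1).resolve_left hm.ne'
  have h1 : u + (2 : ℤ) • w' - (2 : ℤ) • g c =
      (u - (2 : ℤ) • g cr) + (2 : ℤ) • (w' - g (inj F j cj)) := by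
    rw [hce, map_add, smul_add, smul_sub]; abel
  have h2 := norm_of_pm hcp
  rw [h1, hnrm _ _ hort2] at h2
  have h3 := card_le_of_odd ho1
  have h4 := dot_self_nonneg (w' - g (inj F j cj))
  have h5 : w' = g (inj F j cj) :=
    sub_eq_zero.1 (eq_zero_of_dot (u := w' - g (inj F j cj)) (by linarith))
  rw [mem_sup_Sm]
  intro k
  by_cases hk : k = j
  · subst hk
    refine Submodule.mem_sup.2 ⟨(fun e => z ⟨k, e⟩) - (cj : E k → ℤ), ?_, cj, cj.2,
      sub_add_cancel _ _⟩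
    apply (hd k).memC
    intro y hy
    have h6 := hw' (inj F k ⟨y, hy⟩)
    rw [h5, h.isoF, inj_dot_inj, inj_dot] at h6
    change y ⬝ᵥ (cj : E k → ℤ) = y ⬝ᵥ fun e => z ⟨k, e⟩ at h6
    rw [dotProduct_sub, h6, sub_self]
  · have h6 : (fun e => z ⟨k, e⟩) = 0 := funext fun e => hz ⟨k, e⟩ (by simpa using hk)
    rw [h6]
    exact Submodule.zero_mem _

end S

end Pool.Agent.H758.SQ
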