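import Pool.Agent.H758.SQ.Y2

/-!
# Sums of prime alternating diagrams which are special or have anisotropic linking forms
-/

set_option autoImplicit false
set_option linter.unusedSectionVars false

namespace Pool.Agent.H758.SQ

open Finset Matrix
open Pool.Agent.H762.TG (Multigraph dot_self dot_self_nonneg eq_zero_of_dot)
open Pool.Agent.H758.SR (rank IsIsometry Extends)

section G

variable {V E : Type} [Fintype E] [DecidableEq V]

/-- The alternating diagram with the Tait graph `G` is special: all flows or all cuts have even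
squares (the Tait graph or its dual is bipartite). -/
def Special (G : Multigraph V E) : Prop :=
  (∀ y ∈ G.flows, Even (y ⬝ᵥ y)) ∨ ∀ x ∈ G.cuts, Even (x ⬝ᵥ x)

end G

variable {n : ℕ} {V E : Fin n → Type} [∀ i, Fintype (V i)] [∀ i, DecidableEq (V i)]
    [∀ i, Fintype (E i)] [∀ i, DecidableEq (E i)] {G : ∀ i, Multigraph (V i) (E i)}

theorem forward2 (hP : ∀ i, Prime (G i)) (hO : ∀ i, Odd (det (G i)))
    (hA : ∀ i, Anisotropic (G i) ∨ Special (G i)) (h : LatticeSlice (sum G)) :
    ∃ σ : Fin n → Fin n, ∀ i, σ (σ i) = i ∧ σ i ≠ i ∧ Mirror (G i) (G (σ i)) := by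
  classical
  obtain ⟨f, g, hE⟩ := emb_of_slice h
  have hd : ∀ j, Dual (G j).cuts (G j).flows := fun j => dual_graph (G j)
  have ho : ∀ j, OddDet (G j).cuts (G j).flows := fun j => oddDet_of_odd (hO j)
  have hc : ∀ j, Cub (G j).cuts (G j).flows := fun j => cub_graph (G j)
  have ha : ∀ j, Aniso (G j).cuts (G j).flows ∨ (∀ y ∈ (G j).flows, Even (y ⬝ᵥ y)) ∨
    ∀ x ∈ (G j).cuts, Even (x ⬝ᵥ x) := fun j => hA j
  have ht := triv_of hE hd ho hc ha
  have ht' := fun j => (ht j).symm hE
  have u1 := fun j => unit_triv hE ho hc ht j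
  have u2 := fun j => unit_triv hE.symm (fun j => (ho j).symm) (fun j => (hc j).symm) ht' j
  have s1 : ∀ j, ∃ (τ : E j → Fin (rank (sum G).cuts)) (η : E j → ℤˣ), Std f j τ η := by
    intro j
    obtain ⟨τ, η, a1, a2, a3⟩ := rigid_cuts (G j) (fun e => prime_no_loop (hP j) e)
      (f.comp (inj (fun j => (G j).cuts) j)) (fun a b => by
        change f (inj _ j a) ⬝ᵥ f (inj _ j b) = _
        rw [hE.isoC, inj_apply, inj_apply, ex_dot]
        congr 1
        funext e
        exact ex_same j _ e) (fun y hy i => u1 j y hy i)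
    exact ⟨τ, η, a1, a2, a3⟩
  have s2 : ∀ j, ∃ (τ : E j → Fin (rank (sum G).flows)) (η : E j → ℤˣ), Std g j τ η := by
    intro j
    obtain ⟨τ, η, a1, a2, a3⟩ := Pool.Agent.H754.Special.rigid (G j)
      (fun e => prime_no_bridge (hP j) e)
      (g.comp (inj (fun j => (G j).flows) j)) (fun a b => by
        change g (inj _ j a) ⬝ᵥ g (inj _ j b) = _
        rw [hE.isoF, inj_apply, inj_apply, ex_dot]
        congr 1
        funext e
        exact ex_same j _ e) (fun y hy => unit_iff.2 fun i => u2 j y (unit_iff.1 hy) i)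
    exact ⟨τ, η, a1, a2, a3⟩
  choose τ η hs using s1
  choose τ' η' hs' using s2
  have t1 := used_twice_of_triv hE hd ht (fun j e => prime_no_bridge (hP j) e) hs
  have t2 := used_twice_of_triv hE.symm (fun j => (hd j).symm) ht'
    (fun j e => prime_no_loop (hP j) e) hs'
  obtain ⟨hκ, π, ε, hπ, hz⟩ := exists_partner hE hs hs' t1 t2
  exact mirror_pairs hP (fun p => (hπ p).1) (fun p => (hπ p).2.1) (fun p => (hπ p).2.2)
    fun x => twist_iff hE hκ (fun p => (hπ p).1) (fun p => (hπ p).2.2) hz x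

/-- **The main theorem.** -/
theorem main2 (hP : ∀ i, Prime (G i)) (hO : ∀ i, Odd (det (G i)))
    (hA : ∀ i, Anisotropic (G i) ∨ Special (G i)) :
    LatticeSlice (sum G) ↔ ∃ σ : Fin n → Fin n, ∀ i, σ (σ i) = i ∧ σ i ≠ i ∧
      Mirror (G i) (G (σ i)) :=
  ⟨forward2 hP hO hA, fun ⟨_, hσ⟩ => slice_of_pairs hσ⟩

end Pool.Agent.H758.SQ
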