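import Pool.Agent.H758.SR.Defs
import Pool.Agent.H762.TG.Conf

/-!
# Sums of alternating knots with square-free determinant: definitions
-/

set_option autoImplicit false

namespace Pool.Agent.H758.SQ

open Finset Matrix
open Pool.Agent.H762.TG (Multigraph)
open Pool.Agent.H758.SR (rank IsIsometry Extends)

section

variable {V E : Type} [Fintype E] [DecidableEq V]

/-- The condition imposed by Donaldson's theorem on an alternating link with the Tait graph `G` if
the link bounds a disc (more generally, if its double branched cover bounds a rational homology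
ball): the lattices of cuts and of flows embed isometrically in the standard lattices of their
ranks, and an integral function `z` on the crossings defines on the lattice of cuts a functional
which extends to the first standard lattice if and only if it defines on the lattice of flows a
functional which extends to the second one. -/
def LatticeSlice (G : Multigraph V E) : Prop :=
  ∃ (φ : (E → ℤ) → Fin (rank G.cuts) → ℤ) (ψ : (E → ℤ) → Fin (rank G.flows) → ℤ),
    IsIsometry G.cuts φ ∧ IsIsometry G.flows ψ ∧ ∀ z, Extends G.cuts φ z ↔ Extends G.flows ψ z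

/-- The graph has at least two edges and its lattice of cuts is indecomposable: if the restrictions
of all cuts to `A` (and zero outside `A`) are cuts then `A` is empty or the set of all edges. -/
def Prime [DecidableEq E] (G : Multigraph V E) : Prop :=
  2 ≤ Fintype.card E ∧ ∀ A : Finset E, (∀ x ∈ G.cuts, (fun e => if e ∈ A then x e else 0) ∈
    G.cuts) → A = ∅ ∨ A = univ

/-- The determinant of the alternating link: the index of the sum of the lattices of cuts and of
flows in the lattice of all integral functions on the edges. -/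
noncomputable def det (G : Multigraph V E) : ℕ := (G.cuts ⊔ G.flows).toAddSubgroup.index

/-- The linking form of the double branched cover is anisotropic: if an integral function `z` is the
sum of a rational cut `c / N` and a rational flow `f / N`, and the square of `c / N` is an integer,
then `z` is the sum of an integral cut and an integral flow. -/
def Anisotropic (G : Multigraph V E) : Prop :=
  ∀ z : E → ℤ, ∀ c ∈ G.cuts, ∀ f ∈ G.flows, ∀ N : ℤ, N ≠ 0 → N • z = c + f →
    N ^ 2 ∣ c ⬝ᵥ c → z ∈ G.cuts ⊔ G.flows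

/-- The link of `G'` is the mirror image of the link of `G`, up to mutation: there is a bijection
of the sets of edges which takes the flows of `G` to the cuts of `G'`, up to signs. -/
def Mirror {V' E' : Type} (G : Multigraph V E) (G' : Multigraph V' E') : Prop :=
  ∃ (φ : E ≃ E') (ε : E → ℤˣ), ∀ x : E' → ℤ, x ∈ G'.cuts ↔
    (fun e => (ε e : ℤ) * x (φ e)) ∈ G.flows

end

/-- The disjoint union of finitely many graphs. -/
def sum {n : ℕ} {V E : Fin n → Type} (G : ∀ i, Multigraph (V i) (E i)) :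
    Multigraph (Σ i, V i) (Σ i, E i) :=
  ⟨fun e => ⟨e.1, (G e.1).src e.2⟩, fun e => ⟨e.1, (G e.1).tgt e.2⟩⟩

/-! ### Dual pairs of lattices -/

section

variable {E : Type} [Fintype E]

/-- A pair of lattices which are orthogonal complements of each other, such that all functionals
are given by integral functions. -/
structure Dual (C F : Submodule ℤ (E → ℤ)) : Prop where
  orth : ∀ x ∈ C, ∀ y ∈ F, x ⬝ᵥ y = 0
  repC : ∀ s : C →ₗ[ℤ] ℤ, ∃ z : E → ℤ, ∀ x : C, s x = (x : E → ℤ) ⬝ᵥ z
  repF : ∀ s : F →ₗ[ℤ] ℤ, ∃ z : E → ℤ, ∀ y : F, s y = (y : E → ℤ) ⬝ᵥ z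
  memF : ∀ z, (∀ x ∈ C, x ⬝ᵥ z = 0) → z ∈ F
  memC : ∀ z, (∀ y ∈ F, y ⬝ᵥ z = 0) → z ∈ C

theorem Dual.symm {C F : Submodule ℤ (E → ℤ)} (h : Dual C F) : Dual F C where
  orth := fun y hy x hx => by rw [dotProduct_comm]; exact h.orth x hx y hy
  repC := h.repF
  repF := h.repC
  memF := h.memC
  memC := h.memF

/-- all values are `1` or `-1` -/
def Pm {K : Type} (v : K → ℤ) : Prop := ∀ k, v k = 1 ∨ v k = -1

/-- all values are odd -/
def OddV {K : Type} (v : K → ℤ) : Prop := ∀ k, Odd (v k)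

/-- every odd vector is congruent to a vector of entries `±1` -/
def Cub (C F : Submodule ℤ (E → ℤ)) : Prop :=
  ∀ z, OddV z → ∃ δ, Pm δ ∧ ∃ c ∈ C, ∃ f ∈ F, z = δ + (2 : ℤ) • c + (2 : ℤ) • f

/-- the determinant is odd -/
def OddDet (C F : Submodule ℤ (E → ℤ)) : Prop :=
  ∀ z : E → ℤ, (2 : ℤ) • z ∈ C ⊔ F → z ∈ C ⊔ F

/-- the linking form is anisotropic -/
def Aniso (C F : Submodule ℤ (E → ℤ)) : Prop :=
  ∀ z : E → ℤ, ∀ c ∈ C, ∀ f ∈ F, ∀ N : ℤ, N ≠ 0 → N • z = c + f →
    N ^ 2 ∣ c ⬝ᵥ c → z ∈ C ⊔ F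

/-- compatible isometric embeddings of the two lattices in the standard lattices of their ranks -/
structure Emb {κ κ' : Type} [Fintype κ] [Fintype κ'] (C F : Submodule ℤ (E → ℤ))
    (f : C →ₗ[ℤ] (κ → ℤ)) (g : F →ₗ[ℤ] (κ' → ℤ)) : Prop where
  dual : Dual C F
  isoC : ∀ x y : C, f x ⬝ᵥ f y = (x : E → ℤ) ⬝ᵥ (y : E → ℤ)
  isoF : ∀ x y : F, g x ⬝ᵥ g y = (x : E → ℤ) ⬝ᵥ (y : E → ℤ)
  rkC : Module.finrank ℤ C = Fintype.card κ
  rkF : Module.finrank ℤ F = Fintype.card κ'
  rk : Fintype.card κ + Fintype.card κ' = Fintype.card E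
  comp : ∀ z : E → ℤ, (∃ w, ∀ x : C, f x ⬝ᵥ w = (x : E → ℤ) ⬝ᵥ z) ↔
    ∃ w, ∀ y : F, g y ⬝ᵥ w = (y : E → ℤ) ⬝ᵥ z

theorem Emb.symm {κ κ' : Type} [Fintype κ] [Fintype κ'] {C F : Submodule ℤ (E → ℤ)}
    {f : C →ₗ[ℤ] (κ → ℤ)} {g : F →ₗ[ℤ] (κ' → ℤ)} (h : Emb C F f g) : Emb F C g f where
  dual := h.dual.symm
  isoC := h.isoF
  isoF := h.isoC
  rkC := h.rkF
  rkF := h.rkC
  rk := by rw [add_comm]; exact h.rk
  comp := fun z => (h.comp z).symm

end

section

variable {n : ℕ} {E : Fin n → Type}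

/-- the sum of lattices -/
def Sm (C : ∀ j, Submodule ℤ (E j → ℤ)) : Submodule ℤ ((Σ j, E j) → ℤ) where
  carrier := {x | ∀ j, (fun e => x ⟨j, e⟩) ∈ C j}
  add_mem' := fun hx hy j => (C j).add_mem (hx j) (hy j)
  zero_mem' := fun j => (C j).zero_mem
  smul_mem' := fun c _ hx j => (C j).smul_mem c (hx j)

theorem mem_Sm {C : ∀ j, Submodule ℤ (E j → ℤ)} {x : (Σ j, E j) → ℤ} :
    x ∈ Sm C ↔ ∀ j, (fun e => x ⟨j, e⟩) ∈ C j := Iff.rfl

/-- extension by zero -/
noncomputable def ex (j : Fin n) : (E j → ℤ) →ₗ[ℤ] ((Σ j, E j) → ℤ) where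
  toFun := fun x => Function.extend (Sigma.mk j) x 0
  map_add' := by
    intro x y
    funext ⟨i, e⟩
    by_cases h : i = j
    · subst h
      rw [Pi.add_apply, sigma_mk_injective.extend_apply, sigma_mk_injective.extend_apply,
        sigma_mk_injective.extend_apply, Pi.add_apply]
    · have h1 : ¬ ∃ a, Sigma.mk j a = (⟨i, e⟩ : Σ j, E j) :=
        fun ⟨a, ha⟩ => h (congrArg Sigma.fst ha).symm
      rw [Pi.add_apply, Function.extend_apply' _ _ _ h1, Function.extend_apply' _ _ _ h1,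
        Function.extend_apply' _ _ _ h1, Pi.zero_apply, add_zero]
  map_smul' := by
    intro c x
    funext ⟨i, e⟩
    by_cases h : i = j
    · subst h
      rw [Pi.smul_apply, sigma_mk_injective.extend_apply, sigma_mk_injective.extend_apply,
        Pi.smul_apply]
      rfl
    · have h1 : ¬ ∃ a, Sigma.mk j a = (⟨i, e⟩ : Σ j, E j) :=
        fun ⟨a, ha⟩ => h (congrArg Sigma.fst ha).symm
      rw [Pi.smul_apply, Function.extend_apply' _ _ _ h1, Function.extend_apply' _ _ _ h1,
        Pi.zero_apply, smul_zero]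

theorem ex_same (j : Fin n) (x : E j → ℤ) (e : E j) : ex j x ⟨j, e⟩ = x e :=
  sigma_mk_injective.extend_apply x 0 e

theorem ex_ne {i j : Fin n} (x : E j → ℤ) (e : E i) (h : i ≠ j) : ex j x ⟨i, e⟩ = 0 :=
  Function.extend_apply' _ _ _ fun ⟨_, ha⟩ => h (congrArg Sigma.fst ha).symm

theorem dot_sum [∀ j, Fintype (E j)] (x y : (Σ j, E j) → ℤ) :
    x ⬝ᵥ y = ∑ j, (fun e => x ⟨j, e⟩) ⬝ᵥ (fun e => y ⟨j, e⟩) := by
  rw [dotProduct, Fintype.sum_sigma]
  rfl

theorem ex_dot [∀ j, Fintype (E j)] (j : Fin n) (x : E j → ℤ) (y : (Σ j, E j) → ℤ) :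
    ex j x ⬝ᵥ y = x ⬝ᵥ (fun e => y ⟨j, e⟩) := by
  rw [dot_sum, sum_eq_single j]
  · congr 1
    funext e
    exact ex_same j x e
  · intro i _ hi
    apply sum_eq_zero
    intro e _
    change ex j x ⟨i, e⟩ * _ = 0
    rw [ex_ne x e hi, zero_mul]
  · intro h
    exact absurd (mem_univ j) h

theorem ex_mem {C : ∀ j, Submodule ℤ (E j → ℤ)} {j : Fin n} {x : E j → ℤ} (hx : x ∈ C j) :
    ex j x ∈ Sm C := by
  intro i
  by_cases h : i = j
  · subst h
    simpa only [ex_same] using hx
  · simp only [ex_ne x _ h]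
    exact (C i).zero_mem

/-- inclusion of a summand -/
noncomputable def inj (C : ∀ j, Submodule ℤ (E j → ℤ)) (j : Fin n) : C j →ₗ[ℤ] Sm C :=
  ((ex j).comp (C j).subtype).codRestrict (Sm C) fun x => ex_mem x.2

theorem inj_apply (C : ∀ j, Submodule ℤ (E j → ℤ)) (j : Fin n) (x : C j) :
    (inj C j x : (Σ j, E j) → ℤ) = ex j (x : E j → ℤ) := rfl

end

end Pool.Agent.H758.SQ
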