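import Pool.Agent.H758.SQ.Simple

/-!
# The slice condition for a sum from the one for the summands
-/

set_option autoImplicit false
set_option linter.unusedSectionVars false

namespace Pool.Agent.H758.SQ

open Finset Matrix
open Pool.Agent.H762.TG (Multigraph dot_self dot_self_nonneg eq_zero_of_dot)
open Pool.Agent.H758.SR (rank IsIsometry Extends)

section J

variable {n : ℕ} {E : Fin (n + 1) → Type} [∀ j, Fintype (E j)] [∀ j, DecidableEq (E j)]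
  {κ₁ κ₁' κ₂ κ₂' : Type} [Fintype κ₁] [Fintype κ₁'] [Fintype κ₂] [Fintype κ₂']
  {C F : ∀ j, Submodule ℤ (E j → ℤ)} {j : Fin (n + 1)}

/-- the component in the `j`-th summand -/
def prj1 (C : ∀ j, Submodule ℤ (E j → ℤ)) (j : Fin (n + 1)) : Sm C →ₗ[ℤ] C j where
  toFun z := ⟨fun e => (z : (Σ j, E j) → ℤ) ⟨j, e⟩, z.2 j⟩
  map_add' _ _ := rfl
  map_smul' _ _ := rfl

/-- the component in the other summands -/
def prj2 (C : ∀ j, Submodule ℤ (E j → ℤ)) (j : Fin (n + 1)) :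
    Sm C →ₗ[ℤ] Sm (fun i : Fin n => C (j.succAbove i)) where
  toFun z := ⟨fun p => (z : (Σ j, E j) → ℤ) (oth j p), fun i => z.2 (j.succAbove i)⟩
  map_add' _ _ := rfl
  map_smul' _ _ := rfl

/-- the sum of two homomorphisms -/
def join (f₁ : C j →ₗ[ℤ] (κ₁ → ℤ))
    (f₂ : Sm (fun i : Fin n => C (j.succAbove i)) →ₗ[ℤ] (κ₂ → ℤ)) :
    Sm C →ₗ[ℤ] (κ₁ ⊕ κ₂ → ℤ) where
  toFun z := Sum.elim (f₁ (prj1 C j z)) (f₂ (prj2 C j z))
  map_add' x y := by
    funext s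
    rcases s with s | s
    · simp
    · simp
  map_smul' c x := by
    funext s
    rcases s with s | s
    · simp
    · simp

theorem elim_dot (a : κ₁ → ℤ) (b : κ₂ → ℤ) (w : κ₁ ⊕ κ₂ → ℤ) :
    Sum.elim a b ⬝ᵥ w = a ⬝ᵥ (fun i => w (Sum.inl i)) + b ⬝ᵥ fun i => w (Sum.inr i) := by
  rw [dotProduct, Fintype.sum_sum_type]
  rfl

theorem dot_oth (j : Fin (n + 1)) (x z : (Σ j, E j) → ℤ) :
    x ⬝ᵥ z = (fun e => x ⟨j, e⟩) ⬝ᵥ (fun e => z ⟨j, e⟩) +
      (fun p => x (oth j p)) ⬝ᵥ fun p => z (oth j p) := by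
  rw [dot_sum, Fin.sum_univ_succAbove _ j, dot_sum (fun p => x (oth j p))]
  rfl

theorem join_ext (f₁ : C j →ₗ[ℤ] (κ₁ → ℤ))
    (f₂ : Sm (fun i : Fin n => C (j.succAbove i)) →ₗ[ℤ] (κ₂ → ℤ)) (z : (Σ j, E j) → ℤ) :
    (∃ w, ∀ x : Sm C, join f₁ f₂ x ⬝ᵥ w = (x : (Σ j, E j) → ℤ) ⬝ᵥ z) ↔
      (∃ w, ∀ x : C j, f₁ x ⬝ᵥ w = (x : E j → ℤ) ⬝ᵥ fun e => z ⟨j, e⟩) ∧
      ∃ w, ∀ x : Sm (fun i : Fin n => C (j.succAbove i)), f₂ x ⬝ᵥ w =
        (x : (Σ i : Fin n, E (j.succAbove i)) → ℤ) ⬝ᵥ fun p => z (oth j p) := by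
  constructor
  · rintro ⟨w, hw⟩
    constructor
    · refine ⟨fun i => w (Sum.inl i), fun x => ?_⟩
      have h1 := hw (inj C j x)
      change Sum.elim (f₁ (prj1 C j (inj C j x))) (f₂ (prj2 C j (inj C j x))) ⬝ᵥ w = _ at h1
      have h2 : prj1 C j (inj C j x) = x := Subtype.ext (funext fun e => ex_same j _ e)
      have h3 : prj2 C j (inj C j x) = 0 := Subtype.ext (funext fun p =>
        ex_ne _ _ (Fin.succAbove_ne j p.1))
      rw [elim_dot, h2, h3, map_zero, zero_dotProduct, add_zero, inj_dot] at h1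
      exact h1
    · refine ⟨fun i => w (Sum.inr i), fun x => ?_⟩
      have h1 := hw (incl C j x)
      change Sum.elim (f₁ (prj1 C j (incl C j x))) (f₂ (prj2 C j (incl C j x))) ⬝ᵥ w = _ at h1
      have h2 : prj1 C j (incl C j x) = 0 := Subtype.ext (funext fun e => incl_self j x e)
      have h3 : prj2 C j (incl C j x) = x := Subtype.ext (funext fun p => incl_oth j x p)
      rw [elim_dot, h2, h3, map_zero, zero_dotProduct, zero_add, incl_dot] at h1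
      exact h1
  · rintro ⟨⟨w₁, h₁⟩, w₂, h₂⟩
    refine ⟨Sum.elim w₁ w₂, fun x => ?_⟩
    change Sum.elim (f₁ (prj1 C j x)) (f₂ (prj2 C j x)) ⬝ᵥ Sum.elim w₁ w₂ = _
    rw [elim_dot, dot_oth j]
    have e1 := h₁ (prj1 C j x)
    have e2 := h₂ (prj2 C j x)
    exact congrArg₂ (· + ·) e1 e2

theorem join_iso {f₁ : C j →ₗ[ℤ] (κ₁ → ℤ)}
    {f₂ : Sm (fun i : Fin n => C (j.succAbove i)) →ₗ[ℤ] (κ₂ → ℤ)}
    (h₁ : ∀ x y : C j, f₁ x ⬝ᵥ f₁ y = (x : E j → ℤ) ⬝ᵥ (y : E j → ℤ))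
    (h₂ : ∀ x y : Sm (fun i : Fin n => C (j.succAbove i)), f₂ x ⬝ᵥ f₂ y =
      (x : (Σ i : Fin n, E (j.succAbove i)) → ℤ) ⬝ᵥ (y : (Σ i : Fin n, E (j.succAbove i)) → ℤ))
    (x y : Sm C) : join f₁ f₂ x ⬝ᵥ join f₁ f₂ y =
      (x : (Σ j, E j) → ℤ) ⬝ᵥ (y : (Σ j, E j) → ℤ) := by
  change Sum.elim (f₁ (prj1 C j x)) (f₂ (prj2 C j x)) ⬝ᵥ
    Sum.elim (f₁ (prj1 C j y)) (f₂ (prj2 C j y)) = _
  rw [elim_dot, dot_oth j]
  exact congrArg₂ (· + ·) (h₁ _ _) (h₂ _ _)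

theorem join_emb {f₁ : C j →ₗ[ℤ] (κ₁ → ℤ)} {g₁ : F j →ₗ[ℤ] (κ₁' → ℤ)}
    {f₂ : Sm (fun i : Fin n => C (j.succAbove i)) →ₗ[ℤ] (κ₂ → ℤ)}
    {g₂ : Sm (fun i : Fin n => F (j.succAbove i)) →ₗ[ℤ] (κ₂' → ℤ)}
    (h₁ : Emb (C j) (F j) f₁ g₁)
    (h₂ : Emb (Sm fun i : Fin n => C (j.succAbove i)) (Sm fun i : Fin n => F (j.succAbove i))
      f₂ g₂) (hd : Dual (Sm C) (Sm F))
    (hrk : Module.finrank ℤ (Sm C) + Module.finrank ℤ (Sm F) = Fintype.card (Σ j, E j)) :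
    Emb (Sm C) (Sm F) (join f₁ f₂) (join g₁ g₂) := by
  have hcard : Fintype.card (Σ i, E i) = Fintype.card (E j) +
      Fintype.card (Σ i : Fin n, E (j.succAbove i)) := by
    rw [Fintype.card_sigma, Fintype.card_sigma, Fin.sum_univ_succAbove _ j]
  have l1 := rank_le C j
  have l2 := rank_le F j
  rw [h₁.rkC, h₂.rkC] at l1
  rw [h₁.rkF, h₂.rkF] at l2
  have r1 := h₁.rk
  have r2 := h₂.rk
  exact
    { dual := hd
      isoC := join_iso h₁.isoC h₂.isoC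
      isoF := join_iso h₁.isoF h₂.isoF
      rkC := by rw [Fintype.card_sum]; omega
      rkF := by rw [Fintype.card_sum]; omega
      rk := by rw [Fintype.card_sum, Fintype.card_sum]; omega
      comp := fun z => by
        rw [join_ext f₁ f₂, join_ext g₁ g₂]
        exact and_congr (h₁.comp _) (h₂.comp _) }

end J

/-- the embeddings of a single graph -/
theorem emb_of_slice1 {V E : Type} [Fintype V] [DecidableEq V] [Fintype E] [DecidableEq E]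
    {G : Multigraph V E} (h : LatticeSlice G) :
    ∃ (f : G.cuts →ₗ[ℤ] (Fin (rank G.cuts) → ℤ)) (g : G.flows →ₗ[ℤ] (Fin (rank G.flows) → ℤ)),
      Emb G.cuts G.flows f g := by
  obtain ⟨φ, ψ, hφ, hψ, hglue⟩ := h
  refine ⟨(AddMonoidHom.mk' (fun x : G.cuts => φ x)
      fun x y => (hφ x x.2 y y.2).1).toIntLinearMap,
    (AddMonoidHom.mk' (fun x : G.flows => ψ x)
      fun x y => (hψ x x.2 y y.2).1).toIntLinearMap,
    dual_graph G, fun a b => (hφ a a.2 b b.2).2, fun a b => (hψ a a.2 b b.2).2, ?_, ?_, ?_, ?_⟩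
  · rw [Fintype.card_fin, SR.rank]
  · rw [Fintype.card_fin, SR.rank]
  · rw [Fintype.card_fin, Fintype.card_fin]; exact G.finrank_add
  · intro z
    have h1 : (∃ w, ∀ x : G.cuts, φ x ⬝ᵥ w = (x : E → ℤ) ⬝ᵥ z) ↔ Extends G.cuts φ z :=
      ⟨fun ⟨w, hw⟩ => ⟨w, fun x hx => hw ⟨x, hx⟩⟩, fun ⟨w, hw⟩ => ⟨w, fun x => hw x x.2⟩⟩
    have h2 : (∃ w, ∀ x : G.flows, ψ x ⬝ᵥ w = (x : E → ℤ) ⬝ᵥ z) ↔ Extends G.flows ψ z :=
      ⟨fun ⟨w, hw⟩ => ⟨w, fun x hx => hw ⟨x, hx⟩⟩, fun ⟨w, hw⟩ => ⟨w, fun x => hw x x.2⟩⟩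
    exact h1.trans ((hglue z).trans h2.symm)

/-- the sum of a diagram with the slice condition and a sum with the slice condition -/
theorem slice_insert {n : ℕ} {V E : Fin (n + 1) → Type} [∀ i, Fintype (V i)]
    [∀ i, DecidableEq (V i)] [∀ i, Fintype (E i)] [∀ i, DecidableEq (E i)]
    {G : ∀ i, Multigraph (V i) (E i)} (j : Fin (n + 1)) (h₁ : LatticeSlice (G j))
    (h₂ : LatticeSlice (sum fun i : Fin n => G (j.succAbove i))) : LatticeSlice (sum G) := by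
  obtain ⟨f₁, g₁, e₁⟩ := emb_of_slice1 h₁
  obtain ⟨f₂, g₂, e₂⟩ := emb_of_slice h₂
  have hd := dual_graph (sum G)
  have hrk := (sum G).finrank_add
  rw [cuts_sum, flows_sum] at hd hrk
  exact slice_of_emb' cuts_sum flows_sum (join_emb (C := fun i => (G i).cuts)
    (F := fun i => (G i).flows) e₁ e₂ hd hrk)

/-- the backward direction -/
theorem backward_simple (n : ℕ) : ∀ {V E : Fin n → Type} [∀ i, Fintype (V i)]
    [∀ i, DecidableEq (V i)] [∀ i, Fintype (E i)] [∀ i, DecidableEq (E i)]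
    {G : ∀ i, Multigraph (V i) (E i)},
    (∃ σ : Fin n → Fin n, ∀ i, σ (σ i) = i ∧ (σ i = i → LatticeSlice (G i)) ∧
      (σ i ≠ i → Mirror (G i) (G (σ i)))) → LatticeSlice (sum G) := by
  induction n with
  | zero =>
    intro V E _ _ _ _ G _
    exact slice_of_pairs (σ := id) fun i => i.elim0
  | succ n ih =>
    intro V E _ _ _ _ G ⟨σ, hσ⟩
    by_cases hfix : ∀ i, σ i ≠ i
    · exact slice_of_pairs fun i => ⟨(hσ i).1, hfix i, (hσ i).2.2 (hfix i)⟩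
    · push Not at hfix
      obtain ⟨j, hj⟩ := hfix
      have hne : ∀ k, ∃ l, σ (j.succAbove k) = j.succAbove l := by
        intro k
        rcases Fin.eq_self_or_eq_succAbove j (σ (j.succAbove k)) with h | h
        · have h1 := (hσ (j.succAbove k)).1
          rw [h, hj] at h1
          exact absurd h1.symm (Fin.succAbove_ne j k)
        · exact h
      choose τ hτ using hne
      refine slice_insert j ((hσ j).2.1 hj) (ih ⟨τ, fun k => ⟨?_, fun h => ?_, fun h => ?_⟩⟩)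
      · have h1 := (hσ (j.succAbove k)).1
        rw [hτ, hτ] at h1
        exact Fin.succAbove_right_injective h1
      · exact (hσ (j.succAbove k)).2.1 (by rw [hτ, h])
      · have h1 := (hσ (j.succAbove k)).2.2 (by
          rw [hτ]
          exact fun h' => h (Fin.succAbove_right_injective h'))
        rwa [hτ] at h1

/-- **The main theorem.** -/
theorem main5 {n : ℕ} {V E : Fin n → Type} [∀ i, Fintype (V i)] [∀ i, DecidableEq (V i)]
    [∀ i, Fintype (E i)] [∀ i, DecidableEq (E i)] {G : ∀ i, Multigraph (V i) (E i)}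
    (hP : ∀ i, Prime (G i)) (hO : ∀ i, Odd (det (G i))) (hS : ∀ i, Simple (G i)) :
    LatticeSlice (sum G) ↔ ∃ σ : Fin n → Fin n, ∀ i, σ (σ i) = i ∧
      (σ i = i → LatticeSlice (G i)) ∧ (σ i ≠ i → Mirror (G i) (G (σ i))) :=
  ⟨forward_simple n hP hO hS, backward_simple n⟩

end Pool.Agent.H758.SQ
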