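import Pool.Agent.H758.SQ.Defs
import Pool.Agent.H758.TR.Graph

/-!
# Compatible embeddings of dual pairs of lattices
-/

set_option autoImplicit false
set_option linter.unusedSectionVars false

namespace Pool.Agent.H758.SQ

open Finset Matrix
open Pool.Agent.H762.TG (Multigraph dot_self dot_self_nonneg eq_zero_of_dot)
open Pool.Agent.H762.TG.Multigraph
open Pool.Agent.H758.SR (rank IsIsometry Extends)

section rep

variable {E : Type} [Fintype E] [DecidableEq E]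

theorem exists_proj (B : Submodule ℤ (E → ℤ)) (hs : ∀ (k : ℤ) (v : E → ℤ), k ≠ 0 → k • v ∈ B → v ∈ B) :
    ∃ p : (E → ℤ) →ₗ[ℤ] B, ∀ x : B, p x = x := by
  have htf : Module.IsTorsionFree ℤ ((E → ℤ) ⧸ B) := by
    refine Module.IsTorsionFree.of_smul_eq_zero ?_
    intro k x hx
    obtain ⟨v, rfl⟩ := Submodule.Quotient.mk_surjective B x
    by_cases hk : k = 0
    · exact Or.inl hk
    right
    rw [← Submodule.Quotient.mk_smul, Submodule.Quotient.mk_eq_zero] at hx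
    rw [Submodule.Quotient.mk_eq_zero]
    exact hs k v hk hx
  obtain ⟨s, hs'⟩ := Module.projective_lifting_property B.mkQ (LinearMap.id) B.mkQ_surjective
  have hp : ∀ v, v - s (B.mkQ v) ∈ B := by
    intro v
    rw [← Submodule.Quotient.mk_eq_zero]
    have h1 := congrArg (fun l => l (B.mkQ v)) hs'
    simp only [LinearMap.comp_apply, LinearMap.id_apply] at h1
    change B.mkQ (v - s (B.mkQ v)) = 0
    rw [map_sub, h1, sub_self]
  refine ⟨(LinearMap.id - s.comp B.mkQ).codRestrict B fun v => hp v, fun x => ?_⟩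
  apply Subtype.ext
  change (x : E → ℤ) - s (B.mkQ x) = x
  have h1 : B.mkQ (x : E → ℤ) = 0 := (Submodule.Quotient.mk_eq_zero B).2 x.2
  rw [h1, map_zero, sub_zero]

theorem exists_rep (B : Submodule ℤ (E → ℤ)) (hs : ∀ (k : ℤ) (v : E → ℤ), k ≠ 0 → k • v ∈ B → v ∈ B)
    (s : B →ₗ[ℤ] ℤ) : ∃ z : E → ℤ, ∀ x : B, s x = (x : E → ℤ) ⬝ᵥ z := by
  obtain ⟨p, hp⟩ := exists_proj B hs
  refine ⟨fun e => s (p (Pi.single e 1)), fun x => ?_⟩
  have h2 : (x : E → ℤ) = ∑ e, (x : E → ℤ) e • (Pi.single e (1 : ℤ) : E → ℤ) := by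
    funext j
    rw [Finset.sum_apply, sum_eq_single_of_mem j (mem_univ j)]
    · simp
    · intro i _ hi
      simp [hi.symm]
  have h3 : s x = s (p (x : E → ℤ)) := by rw [hp]
  rw [h3]
  conv_lhs => rw [h2]
  rw [map_sum, map_sum, dotProduct]
  apply sum_congr rfl
  intro e _
  rw [map_smul, map_smul, smul_eq_mul]

theorem dual_of {C F : Submodule ℤ (E → ℤ)} (h1 : ∀ x ∈ C, ∀ y ∈ F, x ⬝ᵥ y = 0)
    (h2 : ∀ z, (∀ x ∈ C, x ⬝ᵥ z = 0) → z ∈ F) (h3 : ∀ z, (∀ y ∈ F, y ⬝ᵥ z = 0) → z ∈ C) :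
    Dual C F where
  orth := h1
  repC := exists_rep C fun k v hk hv => h3 v fun y hy => by
    have h4 := h1 _ hv y hy
    rw [smul_dotProduct, smul_eq_mul] at h4
    rw [dotProduct_comm]
    exact (mul_eq_zero.1 h4).resolve_left hk
  repF := exists_rep F fun k v hk hv => h2 v fun x hx => by
    have h4 := h1 x hx _ hv
    rw [dotProduct_smul, smul_eq_mul] at h4
    exact (mul_eq_zero.1 h4).resolve_left hk
  memF := h2
  memC := h3

end rep

section G

variable {V E : Type} [Fintype V] [DecidableEq V] [Fintype E] [DecidableEq E]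

theorem dual_graph (G : Multigraph V E) : Dual G.cuts G.flows :=
  dual_of (fun _ hx _ hy => G.cuts_dot_flows hx hy) (fun _ hz => G.isFlow_of_dot hz)
    fun z hz => G.mem_cuts_of_dot fun y hy => by rw [dotProduct_comm]; exact hz y hy

theorem prime_no_loop {G : Multigraph V E} (h : Prime G) (e : E) : ∃ x ∈ G.cuts, x e ≠ 0 := by
  by_contra hcon
  push Not at hcon
  rcases h.2 {e} (fun x hx => by
    have : (fun e' => if e' ∈ ({e} : Finset E) then x e' else 0) = 0 := by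
      funext e'
      by_cases h' : e' = e
      · rw [h']; simp [hcon x hx]
      · simp [h']
    rw [this]
    exact G.cuts.zero_mem) with h1 | h1
  · exact (singleton_ne_empty e) h1
  · have h2 := h.1
    rw [← card_univ, ← h1, card_singleton] at h2
    omega

theorem prime_no_bridge {G : Multigraph V E} (h : Prime G) (e : E) : ∃ x ∈ G.flows, x e ≠ 0 := by
  by_contra hcon
  push Not at hcon
  rcases h.2 {e} (fun x hx => (dual_graph G).memC _ fun y hy => by
    rw [dotProduct]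
    apply sum_eq_zero
    intro e' _
    by_cases h' : e' = e
    · rw [h', hcon y hy, zero_mul]
    · simp [h']) with h1 | h1
  · exact (singleton_ne_empty e) h1
  · have h2 := h.1
    rw [← card_univ, ← h1, card_singleton] at h2
    omega

end G

section sym

variable {E : Type} [Fintype E] {C F : Submodule ℤ (E → ℤ)}

theorem OddDet.symm (h : OddDet C F) : OddDet F C := by
  intro z hz
  rw [sup_comm] at hz ⊢
  exact h z hz

theorem Cub.symm (h : Cub C F) : Cub F C := by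
  intro z hz
  obtain ⟨δ, hδ, c, hc, f, hf, he⟩ := h z hz
  exact ⟨δ, hδ, f, hf, c, hc, by rw [he]; abel⟩

theorem Aniso.symm (hd : Dual C F) (h : Aniso C F) : Aniso F C := by
  intro z c hc f hf N hN he hdv
  rw [sup_comm]
  refine h z f hf c hc N hN (by rw [he, add_comm]) ?_
  have h1 : (N • z) ⬝ᵥ (N • z) = c ⬝ᵥ c + f ⬝ᵥ f := by
    rw [he, add_dotProduct, dotProduct_add, dotProduct_add, hd.orth f hf c hc,
      dotProduct_comm c f, hd.orth f hf c hc]
    ring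
  rw [smul_dotProduct, dotProduct_smul, smul_eq_mul, smul_eq_mul] at h1
  have h2 : f ⬝ᵥ f = N ^ 2 * (z ⬝ᵥ z) - c ⬝ᵥ c := by linear_combination -h1
  rw [h2]
  exact dvd_sub (dvd_mul_right _ _) hdv

end sym

section L

variable {E κ κ' : Type} [Fintype E] [DecidableEq E] [Fintype κ] [DecidableEq κ] [Fintype κ']
  [DecidableEq κ'] {C F : Submodule ℤ (E → ℤ)} {f : C →ₗ[ℤ] (κ → ℤ)} {g : F →ₗ[ℤ] (κ' → ℤ)}

theorem Emb.inj (h : Emb C F f g) : Function.Injective f := by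
  rw [← LinearMap.ker_eq_bot, LinearMap.ker_eq_bot']
  intro x hx
  have h1 := h.isoC x x
  rw [hx, dotProduct_zero] at h1
  exact Subtype.ext (eq_zero_of_dot h1.symm)

/-- full rank implies finite index -/
theorem mul_of_rank {M : Type} [AddCommGroup M] [Module.Free ℤ M] [Module.Finite ℤ M]
    (f : M →ₗ[ℤ] (κ → ℤ)) (hf : Function.Injective f)
    (hr : Module.finrank ℤ M = Fintype.card κ) (v : κ → ℤ) :
    ∃ k : ℤ, 0 < k ∧ ∃ a, k • v = f a := by
  have h1 : Module.finrank ℤ (LinearMap.range f) = Module.finrank ℤ (κ → ℤ) := by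
    rw [LinearMap.finrank_range_of_inj hf, hr, Module.finrank_fintype_fun_eq_card]
  have h2 : Finite ((κ → ℤ) ⧸ LinearMap.range f) := Submodule.finiteQuotientOfFreeOfRankEq _ h1
  refine ⟨(Nat.card ((κ → ℤ) ⧸ LinearMap.range f) : ℤ), by exact_mod_cast Nat.card_pos, ?_⟩
  have h3 : Nat.card ((κ → ℤ) ⧸ LinearMap.range f) •
      (Submodule.Quotient.mk v : (κ → ℤ) ⧸ LinearMap.range f) = 0 := card_nsmul_eq_zero'
  rw [← Submodule.Quotient.mk_smul, Submodule.Quotient.mk_eq_zero] at h3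
  obtain ⟨a, ha⟩ := h3
  refine ⟨a, ?_⟩
  rw [ha]
  simp

theorem Emb.mul (h : Emb C F f g) (w : κ → ℤ) : ∃ k : ℤ, 0 < k ∧ ∃ x : C, k • w = f x :=
  mul_of_rank f h.inj h.rkC w

theorem Emb.split (h : Emb C F f g) (z : E → ℤ) :
    ∃ k : ℤ, 0 < k ∧ ∃ x ∈ C, ∃ y ∈ F, k • z = x + y := by
  let m : (C × F) →ₗ[ℤ] (E → ℤ) := C.subtype.coprod F.subtype
  have hm : ∀ a, m a = (a.1 : E → ℤ) + (a.2 : E → ℤ) := fun a => rfl
  have hi : Function.Injective m := by
    rw [← LinearMap.ker_eq_bot, LinearMap.ker_eq_bot']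
    intro a ha
    rw [hm] at ha
    have h1 : (a.1 : E → ℤ) ⬝ᵥ (a.1 : E → ℤ) = 0 := by
      have h2 := congrArg (fun v => (a.1 : E → ℤ) ⬝ᵥ v) ha
      simp only [dotProduct_add, dotProduct_zero] at h2
      rw [h.dual.orth _ a.1.2 _ a.2.2, add_zero] at h2
      exact h2
    have h3 := eq_zero_of_dot h1
    rw [h3, zero_add] at ha
    exact Prod.ext (Subtype.ext h3) (Subtype.ext ha)
  obtain ⟨k, hk, a, ha⟩ := mul_of_rank m hi (by rw [Module.finrank_prod, h.rkC, h.rkF, h.rk]) z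
  exact ⟨k, hk, a.1, a.1.2, a.2, a.2.2, ha⟩

/-- vectors orthogonal to the image vanish -/
theorem Emb.eq_zero (h : Emb C F f g) {w : κ → ℤ} (hw : ∀ x : C, f x ⬝ᵥ w = 0) : w = 0 := by
  obtain ⟨k, hk, x, hx⟩ := h.mul w
  have h1 := hw x
  rw [← hx, smul_dotProduct, smul_eq_mul] at h1
  exact eq_zero_of_dot ((mul_eq_zero.1 h1).resolve_left hk.ne')

/-- a multiple of an extension -/
theorem Emb.smul_eq (h : Emb C F f g) {z : E → ℤ} {w : κ → ℤ}
    (hw : ∀ x : C, f x ⬝ᵥ w = (x : E → ℤ) ⬝ᵥ z) {k : ℤ} {x : C} {y : E → ℤ} (hy : y ∈ F)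
    (hz : k • z = (x : E → ℤ) + y) : k • w = f x := by
  rw [← sub_eq_zero]
  apply h.eq_zero
  intro x'
  rw [dotProduct_sub, dotProduct_smul, hw, h.isoC, smul_eq_mul]
  have h1 : (x' : E → ℤ) ⬝ᵥ (k • z) = (x' : E → ℤ) ⬝ᵥ (x : E → ℤ) := by
    rw [hz, dotProduct_add, h.dual.orth _ x'.2 _ hy, add_zero]
  rw [← h1, dotProduct_smul, smul_eq_mul, sub_self]

theorem Emb.norm (h : Emb C F f g) {z : E → ℤ} {w : κ → ℤ} {w' : κ' → ℤ}
    (hw : ∀ x : C, f x ⬝ᵥ w = (x : E → ℤ) ⬝ᵥ z) (hw' : ∀ y : F, g y ⬝ᵥ w' = (y : E → ℤ) ⬝ᵥ z) :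
    z ⬝ᵥ z = w ⬝ᵥ w + w' ⬝ᵥ w' := by
  obtain ⟨k, hk, x, hx, y, hy, hz⟩ := h.split z
  have h1 := h.smul_eq hw (x := ⟨x, hx⟩) hy hz
  have h2 := h.symm.smul_eq hw' (x := ⟨y, hy⟩) hx (by rw [hz, add_comm])
  have h3 : (k • z) ⬝ᵥ (k • z) = (k • w) ⬝ᵥ (k • w) + (k • w') ⬝ᵥ (k • w') := by
    rw [h1, h2, h.isoC, h.isoF, hz, add_dotProduct, dotProduct_add, dotProduct_add,
      h.dual.orth x hx y hy, dotProduct_comm y x, h.dual.orth x hx y hy]
    simp
  simp only [smul_dotProduct, dotProduct_smul, smul_eq_mul] at h3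
  have h4 : k * k * (z ⬝ᵥ z) = k * k * (w ⬝ᵥ w + w' ⬝ᵥ w') := by linear_combination h3
  exact mul_left_cancel₀ (mul_ne_zero hk.ne' hk.ne') h4

/-- the Gram matrix is non-degenerate modulo two -/
theorem gram_odd (hd : Dual C F) (ho : OddDet C F) (x : C)
    (hx : ∀ x' : C, Even ((x : E → ℤ) ⬝ᵥ (x' : E → ℤ))) : ∃ x'' : C, x = (2 : ℤ) • x'' := by
  choose s hs using fun x' => even_iff_two_dvd.1 (hx x')
  let sl : C →ₗ[ℤ] ℤ :=
    { toFun := s
      map_add' := fun a b => by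
        have h1 := hs (a + b)
        rw [Submodule.coe_add, dotProduct_add, hs a, hs b] at h1
        linarith
      map_smul' := fun c a => by
        have h1 := hs (c • a)
        rw [Submodule.coe_smul, dotProduct_smul, hs a, smul_eq_mul] at h1
        simp only [RingHom.id_apply, smul_eq_mul]
        linarith }
  obtain ⟨z, hz⟩ := hd.repC sl
  have h1 : (2 : ℤ) • z - (x : E → ℤ) ∈ F := by
    apply hd.memF
    intro x' hx'
    have h2 := hz ⟨x', hx'⟩
    have h3 := hs ⟨x', hx'⟩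
    change s ⟨x', hx'⟩ = x' ⬝ᵥ z at h2
    rw [dotProduct_sub, dotProduct_smul, ← h2, smul_eq_mul, dotProduct_comm x' (x : E → ℤ)]
    change (x : E → ℤ) ⬝ᵥ x' = _ at h3
    rw [h3, sub_self]
  have h2 : z ∈ C ⊔ F := by
    apply ho
    have h3 : (2 : ℤ) • z = (x : E → ℤ) + ((2 : ℤ) • z - (x : E → ℤ)) := by abel
    rw [h3]
    exact Submodule.add_mem_sup x.2 h1
  obtain ⟨c, hc, f', hf', he⟩ := Submodule.mem_sup.1 h2
  refine ⟨⟨c, hc⟩, Subtype.ext ?_⟩
  change (x : E → ℤ) = (2 : ℤ) • c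
  have h3 : (x : E → ℤ) - (2 : ℤ) • c = (2 : ℤ) • f' - ((2 : ℤ) • z - (x : E → ℤ)) := by
    rw [← he, smul_add]; abel
  have h4 : (x : E → ℤ) - (2 : ℤ) • c ∈ F := by
    rw [h3]; exact F.sub_mem (F.smul_mem _ hf') h1
  have h5 : (x : E → ℤ) - (2 : ℤ) • c ∈ C := C.sub_mem x.2 (C.smul_mem _ hc)
  exact sub_eq_zero.1 (eq_zero_of_dot (hd.orth _ h5 _ h4))

theorem dot_mod_two {K : Type} [Fintype K] {z x : K → ℤ} (hz : OddV z) :
    (2 : ℤ) ∣ x ⬝ᵥ z - x ⬝ᵥ x := by
  rw [dotProduct, dotProduct, ← sum_sub_distrib]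
  apply dvd_sum
  intro e _
  obtain ⟨m, hm⟩ := hz e
  have h1 : x e * z e - x e * x e = 2 * (x e * m) + (x e - x e * x e) := by rw [hm]; ring
  rw [h1]
  refine dvd_add (dvd_mul_right _ _) ?_
  rcases Int.even_or_odd (x e) with ⟨a, ha⟩ | ⟨a, ha⟩
  · rw [ha]; exact ⟨a - a * (a + a), by ring⟩
  · rw [ha]; exact ⟨-(a * (2 * a + 1)), by ring⟩

/-- an odd multiple is in the image -/
theorem Emb.odd_mul (h : Emb C F f g) (ho : OddDet C F) (v : κ → ℤ) :
    ∃ k : ℤ, Odd k ∧ ∃ x : C, k • v = f x := by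
  classical
  have hex : ∃ k : ℕ, 0 < k ∧ ∃ x : C, (k : ℤ) • v = f x := by
    obtain ⟨k, hk, x, hx⟩ := h.mul v
    exact ⟨k.toNat, by omega, x, by rw [Int.toNat_of_nonneg hk.le]; exact hx⟩
  obtain ⟨h1, x, hx⟩ := Nat.find_spec hex
  refine ⟨(Nat.find hex : ℤ), ?_, x, hx⟩
  by_contra hev
  rw [Int.not_odd_iff_even] at hev
  obtain ⟨m, hm⟩ : ∃ m : ℕ, Nat.find hex = 2 * m := by
    have : Even (Nat.find hex) := by exact_mod_cast hev
    obtain ⟨m, hm⟩ := this
    exact ⟨m, by omega⟩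
  obtain ⟨x'', hx''⟩ := gram_odd h.dual ho x fun x' => by
    rw [← h.isoC, ← hx, hm]
    refine ⟨(m : ℤ) * (v ⬝ᵥ f x'), ?_⟩
    rw [smul_dotProduct, smul_eq_mul]
    push_cast
    ring
  have h2 : (m : ℤ) • v = f x'' := by
    rw [hx'', map_smul, hm] at hx
    funext i
    have h3 := congrFun hx i
    simp only [Pi.smul_apply, smul_eq_mul] at h3 ⊢
    push_cast at h3
    linarith
  exact Nat.find_min hex (m := m) (by omega) ⟨by omega, x'', h2⟩

theorem Emb.odd (h : Emb C F f g) (ho : OddDet C F) {z : E → ℤ} (hz : OddV z) {w : κ → ℤ}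
    (hw : ∀ x : C, f x ⬝ᵥ w = (x : E → ℤ) ⬝ᵥ z) : OddV w := by
  intro i
  obtain ⟨k, hk, x, hx⟩ := h.odd_mul ho (Pi.single i 1)
  have h1 := hw x
  have h2 := dot_mod_two (x := (x : E → ℤ)) hz
  rw [← h1, ← h.isoC, ← hx] at h2
  simp only [smul_dotProduct, dotProduct_smul, single_dotProduct, Pi.single_eq_same, one_mul,
    smul_eq_mul] at h2
  rw [← Int.not_even_iff_odd]
  intro hev
  rw [← Int.not_even_iff_odd] at hk
  have h3 : Even (k * (k * 1)) := by
    have h4 : Even (k * w i - k * (k * 1)) := even_iff_two_dvd.2 h2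
    have h5 : Even (k * w i) := hev.mul_left k
    exact (Int.even_sub.1 h4).1 h5
  rw [mul_one, Int.even_mul] at h3
  exact hk (h3.elim id id)

/-- an odd element -/
theorem Emb.exists_odd (h : Emb C F f g) :
    ∃ z : E → ℤ, OddV z ∧ ∃ w, ∀ x : C, f x ⬝ᵥ w = (x : E → ℤ) ⬝ᵥ z := by
  obtain ⟨z₀, hz₀⟩ := h.dual.repC
    { toFun := fun x => f x ⬝ᵥ (fun _ => (1 : ℤ))
      map_add' := fun a b => by rw [map_add, add_dotProduct]
      map_smul' := fun c a => by rw [map_smul, smul_dotProduct]; rfl }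
  have hz1 : ∀ x : C, f x ⬝ᵥ (fun _ => (1 : ℤ)) = (x : E → ℤ) ⬝ᵥ z₀ := hz₀
  -- half of the difference
  have hev : ∀ x : C, (2 : ℤ) ∣ (x : E → ℤ) ⬝ᵥ (z₀ - fun _ => 1) := by
    intro x
    have h1 := dot_mod_two (z := fun _ : κ => (1 : ℤ)) (x := f x) fun _ => odd_one
    have h2 := dot_mod_two (z := fun _ : E => (1 : ℤ)) (x := (x : E → ℤ)) fun _ => odd_one
    rw [hz1, h.isoC] at h1
    rw [dotProduct_sub]
    have h3 := dvd_sub h1 h2
    rwa [sub_sub_sub_cancel_right] at h3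
  choose s hs using hev
  obtain ⟨t, ht⟩ := h.dual.repC
    { toFun := s
      map_add' := fun a b => by
        have h1 := hs (a + b)
        rw [Submodule.coe_add, add_dotProduct, hs a, hs b] at h1
        linarith
      map_smul' := fun c a => by
        have h1 := hs (c • a)
        rw [Submodule.coe_smul, smul_dotProduct, hs a, smul_eq_mul] at h1
        simp only [RingHom.id_apply, smul_eq_mul]
        linarith }
  have ht1 : ∀ x : C, s x = (x : E → ℤ) ⬝ᵥ t := ht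
  refine ⟨fun e => 1 + 2 * t e, fun e => ⟨t e, by ring⟩, fun _ => 1, fun x => ?_⟩
  have h1 : (fun e => 1 + 2 * t e) = (fun _ => (1 : ℤ)) + (2 : ℤ) • t := by
    funext e; simp
  rw [h1, dotProduct_add, dotProduct_smul, ← ht1, hz1, smul_eq_mul, ← hs, dotProduct_sub]
  ring

end L

end Pool.Agent.H758.SQ
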