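import Pool.Agent.H758.SQ.Join

/-!
# Determinants which are squares of primes
-/

set_option autoImplicit false
set_option linter.unusedSectionVars false

namespace Pool.Agent.H758.SQ

open Finset Matrix
open Pool.Agent.H762.TG (Multigraph dot_self dot_self_nonneg eq_zero_of_dot)
open Pool.Agent.H758.SR (rank IsIsometry Extends)

section L

variable {E : Type} [Fintype E] [DecidableEq E] {C F : Submodule ℤ (E → ℤ)}

/-- the orthogonal complement of `H` for the linking form -/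
def Hp (C F H : Submodule ℤ (E → ℤ)) : Submodule ℤ (E → ℤ) where
  carrier := {y | Orth C F H y}
  add_mem' := by
    intro a b ha hb z hz N c hc hf
    rw [add_dotProduct]
    exact dvd_add (ha z hz N c hc hf) (hb z hz N c hc hf)
  zero_mem' := by
    intro z hz N c hc hf
    rw [zero_dotProduct]
    exact dvd_zero _
  smul_mem' := by
    intro k a ha z hz N c hc hf
    rw [smul_dotProduct, smul_eq_mul]
    exact dvd_mul_of_dvd_right (ha z hz N c hc hf) _

theorem mem_Hp {H : Submodule ℤ (E → ℤ)} {y : E → ℤ} : y ∈ Hp C F H ↔ Orth C F H y := Iff.rfl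

/-- the factor two can be cancelled -/
theorem orth_two (hd : Dual C F) (hs : ∀ z : E → ℤ, ∃ k : ℤ, 0 < k ∧ k • z ∈ C ⊔ F)
    (ho : OddDet C F) {u z c : E → ℤ} {N : ℤ} (hc : c ∈ C) (hf : N • z - c ∈ F)
    (h : N ∣ 2 * (u ⬝ᵥ c)) : N ∣ u ⬝ᵥ c := by
  obtain ⟨k, hk, hkz⟩ := odd_split hs ho z
  obtain ⟨c', hc', y, hy, hcy⟩ := Submodule.mem_sup.1 hkz
  have h3 : k • c = N • c' := by
    have h4 : k • c - N • c' ∈ F := by
      have h5 : k • c - N • c' = N • y - k • (N • z - c) := by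
        have h6 : N • (k • z) = N • c' + N • y := by rw [← hcy, smul_add]
        have h7 : k • (N • z) = N • (k • z) := smul_comm _ _ _
        rw [smul_sub, h7, h6]; abel
      rw [h5]
      exact F.sub_mem (F.smul_mem _ hy) (F.smul_mem _ hf)
    have h5 : k • c - N • c' ∈ C := C.sub_mem (C.smul_mem _ hc) (C.smul_mem _ hc')
    exact sub_eq_zero.1 (eq_zero_of_dot (hd.orth _ h5 _ h4))
  have h4 : k * (u ⬝ᵥ c) = N * (u ⬝ᵥ c') := by
    have h5 := congrArg (fun v => u ⬝ᵥ v) h3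
    simpa only [dotProduct_smul, smul_eq_mul] using h5
  obtain ⟨r, hr⟩ := hk
  obtain ⟨s, hs'⟩ := h
  refine ⟨(u ⬝ᵥ c') - r * s, ?_⟩
  have h5 : u ⬝ᵥ c = k * (u ⬝ᵥ c) - r * (2 * (u ⬝ᵥ c)) := by rw [hr]; ring
  rw [h5, h4, hs']
  ring

/-- the squares of the elements of `H` are integral -/
theorem desc_sq (hd : Dual C F) (hs : ∀ z : E → ℤ, ∃ k : ℤ, 0 < k ∧ k • z ∈ C ⊔ F)
    (ho : OddDet C F) (hc : Cub C F) {H : Submodule ℤ (E → ℤ)} (hH : C ⊔ F ≤ H)
    (hD : ∀ δ δ' : E → ℤ, Pm δ → Pm δ' → Orth C F H δ → (∃ h ∈ H, δ' = δ + (2 : ℤ) • h) →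
      SameSquare C F δ δ') {z : E → ℤ} (hz : z ∈ H) {N : ℤ} {c : E → ℤ} (hcC : c ∈ C)
    (hyF : N • z - c ∈ F) : N ^ 2 ∣ c ⬝ᵥ c := by
  obtain ⟨δ, hδ, hδm⟩ := exists_pm_spin hs ho hc
  obtain ⟨δ', hδ', t, ht, he⟩ := exists_pm_class hc (sub_two_odd hδ.odd z)
  obtain ⟨a, haC, b, hbF, hab⟩ := Submodule.mem_sup.1 hδm
  obtain ⟨p, hpC, q, hqF, hpq⟩ := Submodule.mem_sup.1 ht
  have horth : Orth C F H δ := by
    intro z' _ M c' hc' hf'
    have h1 := hd.orth _ haC _ hf'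
    rw [dotProduct_sub, dotProduct_smul, smul_eq_mul] at h1
    rw [← hab, add_dotProduct, dotProduct_comm b, hd.orth _ hc' _ hbF, add_zero]
    exact ⟨a ⬝ᵥ z', by linarith⟩
  have h1 := hD δ δ' hδ hδ' horth ⟨z + t, H.add_mem hz (hH ht), by rw [he, smul_add, add_assoc]⟩
    N (N • a) (C.smul_mem _ haC) (N • a + (2 : ℤ) • c + (2 * N) • p)
    (C.add_mem (C.add_mem (C.smul_mem _ haC) (C.smul_mem _ hcC)) (C.smul_mem _ hpC))
    (by
      have h2 : N • δ - N • a = N • b := by rw [← hab, smul_add]; abel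
      rw [h2]; exact F.smul_mem _ hbF)
    (by
      have h2 : N • δ' - (N • a + (2 : ℤ) • c + (2 * N) • p) =
          N • b + (2 : ℤ) • (N • z - c) + (2 * N) • q := by
        rw [he, ← hab, ← hpq]
        funext e
        simp only [Pi.smul_apply, Pi.add_apply, Pi.sub_apply, smul_eq_mul]
        ring
      rw [h2]
      exact F.add_mem (F.add_mem (F.smul_mem _ hbF) (F.smul_mem _ hyF)) (F.smul_mem _ hqF))
  have e1 : a ⬝ᵥ c = N * (a ⬝ᵥ z) := by
    have h2 := hd.orth _ haC _ hyF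
    rw [dotProduct_sub, dotProduct_smul, smul_eq_mul] at h2
    linarith
  have e2 : p ⬝ᵥ c = N * (p ⬝ᵥ z) := by
    have h2 := hd.orth _ hpC _ hyF
    rw [dotProduct_sub, dotProduct_smul, smul_eq_mul] at h2
    linarith
  simp only [add_dotProduct, dotProduct_add, smul_dotProduct, dotProduct_smul, smul_eq_mul,
    dotProduct_comm c a, dotProduct_comm c p, e1, e2, dotProduct_comm p a] at h1
  refine ⟨-(a ⬝ᵥ z) - (a ⬝ᵥ p) - 2 * (p ⬝ᵥ z) - (p ⬝ᵥ p), ?_⟩
  have h4 : 4 * (c ⬝ᵥ c) = 4 * (N ^ 2 * (-(a ⬝ᵥ z) - (a ⬝ᵥ p) - 2 * (p ⬝ᵥ z) - (p ⬝ᵥ p))) := by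
    linear_combination -h1
  linarith

/-- `H` is isotropic -/
theorem desc_le (hd : Dual C F) (hs : ∀ z : E → ℤ, ∃ k : ℤ, 0 < k ∧ k • z ∈ C ⊔ F)
    (ho : OddDet C F) (hc : Cub C F) {H : Submodule ℤ (E → ℤ)} (hH : C ⊔ F ≤ H)
    (hD : ∀ δ δ' : E → ℤ, Pm δ → Pm δ' → Orth C F H δ → (∃ h ∈ H, δ' = δ + (2 : ℤ) • h) →
      SameSquare C F δ δ') : H ≤ Hp C F H := by
  intro y hy z hz N c hcC hf
  by_cases hN : N = 0
  · subst hN
    rw [zero_smul, zero_sub] at hf
    have h1 : c = 0 := eq_zero_of_dot (hd.orth _ hcC _ (by simpa using F.neg_mem hf))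
    rw [h1, dotProduct_zero]
  obtain ⟨k, hk, hky⟩ := hs y
  obtain ⟨a, ha, b, hb, hab⟩ := Submodule.mem_sup.1 hky
  have hby : k • y - a ∈ F := by rw [← hab]; simpa using hb
  -- the squares of `y`, `z` and `y + z` with the multiple `k N`
  have s1 := desc_sq hd hs ho hc hH hD hy (N := k * N) (c := N • a) (C.smul_mem _ ha) (by
    have h1 : (k * N) • y - N • a = N • (k • y - a) := by
      rw [smul_sub, smul_smul, mul_comm N k]
    rw [h1]; exact F.smul_mem _ hby)
  have s2 := desc_sq hd hs ho hc hH hD hz (N := k * N) (c := k • c) (C.smul_mem _ hcC) (by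
    have h1 : (k * N) • z - k • c = k • (N • z - c) := by
      rw [smul_sub, smul_smul]
    rw [h1]; exact F.smul_mem _ hf)
  have s3 := desc_sq hd hs ho hc hH hD (H.add_mem hy hz) (N := k * N) (c := N • a + k • c)
    (C.add_mem (C.smul_mem _ ha) (C.smul_mem _ hcC)) (by
    have h1 : (k * N) • (y + z) - (N • a + k • c) = N • (k • y - a) + k • (N • z - c) := by
      funext e
      simp only [Pi.smul_apply, Pi.add_apply, Pi.sub_apply, smul_eq_mul]
      ring
    rw [h1]; exact F.add_mem (F.smul_mem _ hby) (F.smul_mem _ hf))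
  have e1 : a ⬝ᵥ c = k * (y ⬝ᵥ c) := by
    have h2 : (k • y) ⬝ᵥ c = a ⬝ᵥ c + b ⬝ᵥ c := by rw [← hab, add_dotProduct]
    rw [dotProduct_comm b c, hd.orth _ hcC _ hb, add_zero, smul_dotProduct, smul_eq_mul] at h2
    exact h2.symm
  apply orth_two hd hs ho hcC hf
  have h5 := dvd_sub (dvd_sub s3 s1) s2
  have h6 : (N • a + k • c) ⬝ᵥ (N • a + k • c) - (N • a) ⬝ᵥ (N • a) - (k • c) ⬝ᵥ (k • c) =
      (k ^ 2 * N) * (2 * (y ⬝ᵥ c)) := by
    simp only [add_dotProduct, dotProduct_add, smul_dotProduct, dotProduct_smul, smul_eq_mul,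
      dotProduct_comm c a, e1]
    ring
  rw [h6] at h5
  have h7 : (k * N) ^ 2 = (k ^ 2 * N) * N := by ring
  rw [h7] at h5
  exact Int.dvd_of_mul_dvd_mul_left (mul_ne_zero (pow_ne_zero _ hk.ne') hN) h5

/-- the linking form is nondegenerate -/
theorem le_of_Hp_top (hd : Dual C F) (hs : ∀ z : E → ℤ, ∃ k : ℤ, 0 < k ∧ k • z ∈ C ⊔ F)
    {H : Submodule ℤ (E → ℤ)} (h : Hp C F H = ⊤) : H ≤ C ⊔ F := by
  intro z hz
  obtain ⟨N, hN, hNz⟩ := hs z
  obtain ⟨c, hc, f, hf, hcf⟩ := Submodule.mem_sup.1 hNz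
  have h1 : ∀ e, ∃ t, c e = N * t := by
    intro e
    have h2 : (Pi.single e (1 : ℤ) : E → ℤ) ∈ Hp C F H := by rw [h]; trivial
    have h3 := h2 z hz N c hc (by rw [← hcf]; simpa using hf)
    rwa [single_dotProduct, one_mul] at h3
  choose t ht using h1
  have hct : c = N • t := funext ht
  have htC : t ∈ C := by
    apply hd.memC
    intro y hy
    have h2 := hd.orth _ hc _ hy
    rw [hct, smul_dotProduct, smul_eq_mul] at h2
    rw [dotProduct_comm]
    exact (mul_eq_zero.1 h2).resolve_left hN.ne'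
  have htF : z - t ∈ F := by
    apply hd.memF
    intro x hx
    have h2 := hd.orth _ hx _ hf
    have h3 : f = N • (z - t) := by
      rw [smul_sub, ← hct, ← hcf]; abel
    rw [h3, dotProduct_smul, smul_eq_mul] at h2
    exact (mul_eq_zero.1 h2).resolve_left hN.ne'
  have h2 : z = t + (z - t) := by abel
  rw [h2]
  exact Submodule.add_mem_sup htC htF

theorem prime_sq_index {A : Type} [AddCommGroup A] {L H K : AddSubgroup A} (h1 : L ≤ H)
    (h2 : H ≤ K) (hLH : ¬ H ≤ L) (hK : K ≠ ⊤) {p : ℕ} (hp : p.Prime) (hL : L.index = p ^ 2) :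
    K ≤ H := by
  have e1 := AddSubgroup.relIndex_mul_index h1
  have e2 := AddSubgroup.relIndex_mul_index h2
  rw [hL] at e1
  rw [← e2] at e1
  have n1 : L.relIndex H ≠ 1 := fun h => hLH (AddSubgroup.relIndex_eq_one.1 h)
  have n2 : K.index ≠ 1 := fun h => hK (AddSubgroup.index_eq_one.1 h)
  rw [← AddSubgroup.relIndex_eq_one]
  have hpos : 0 < p := hp.pos
  obtain ⟨i, hi, hi'⟩ := (Nat.dvd_prime_pow hp).1 (Dvd.intro _ e1)
  obtain ⟨j, hj, hj'⟩ := (Nat.dvd_prime_pow hp).1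
    (Dvd.intro_left (L.relIndex H * H.relIndex K) (by rw [mul_assoc]; exact e1))
  have i1 : 1 ≤ i := by
    rcases Nat.eq_zero_or_pos i with h | h
    · rw [h, pow_zero] at hi'; exact absurd hi' n1
    · exact h
  have j1 : 1 ≤ j := by
    rcases Nat.eq_zero_or_pos j with h | h
    · rw [h, pow_zero] at hj'; exact absurd hj' n2
    · exact h
  obtain ⟨a, ha⟩ := pow_dvd_pow p i1
  obtain ⟨b, hb⟩ := pow_dvd_pow p j1
  rw [hi', hj', ha, hb] at e1
  have h3 : (p ^ 1 * p ^ 1) * (a * H.relIndex K * b) = (p ^ 1 * p ^ 1) * 1 := by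
    rw [mul_one]
    calc _ = p ^ 1 * a * (H.relIndex K * (p ^ 1 * b)) := by ring
      _ = p ^ 2 := e1
      _ = _ := by ring
  have h4 := Nat.eq_of_mul_eq_mul_left (by positivity) h3
  exact Nat.eq_one_of_mul_eq_one_left (Nat.eq_one_of_mul_eq_one_right h4)

end L

/-- determinants which are squares of primes -/
theorem simple_of_prime_sq {V E : Type} [Fintype V] [DecidableEq V] [Fintype E] [DecidableEq E]
    {G : Multigraph V E} (hO : Odd (det G)) {p : ℕ} (hp : p.Prime) (h : det G = p ^ 2) :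
    Simple G := by
  intro H hH
  by_contra hcon
  push Not at hcon
  obtain ⟨h1, y, hy, hyH⟩ := hcon
  have hd := dual_graph G
  have hs := exists_mul_mem G (fun h0 => by rw [h0] at hO; simp at hO)
  have hle := desc_le hd hs (oddDet_of_odd hO) (cub_graph G) hH.1 hH.2
  have h2 := prime_sq_index (L := (G.cuts ⊔ G.flows).toAddSubgroup) (H := H.toAddSubgroup)
    (K := (Hp G.cuts G.flows H).toAddSubgroup) hH.1 hle h1 (fun ht => h1 (le_of_Hp_top hd hs (by
      rw [eq_top_iff]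
      intro x _
      have h3 : x ∈ (Hp G.cuts G.flows H).toAddSubgroup := by rw [ht]; trivial
      exact h3))) hp h
  exact hyH (h2 hy)

/-- a rigid graph does not satisfy the slice condition -/
theorem Rigid.not_slice {V E : Type} [Fintype V] [DecidableEq V] [Fintype E] [DecidableEq E]
    {G : Multigraph V E} (hP : Prime G) (hO : Odd (det G)) (hR : Rigid G) : ¬ LatticeSlice G := by
  intro h
  have h1 : LatticeSlice (sum fun _ : Fin 1 => G) := by
    apply backward_simple 1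
    exact ⟨id, fun i => ⟨rfl, fun _ => h, fun h => absurd rfl h⟩⟩
  obtain ⟨σ, hσ⟩ := (main4 (fun _ => hP) (fun _ => hO) (fun _ => hR)).1 h1
  exact (hσ 0).2.1 (Subsingleton.elim _ _)

end Pool.Agent.H758.SQ
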