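import Pool.Agent.H758.SQ.Main3

/-!
# Summands whose correction terms do not descend
-/

set_option autoImplicit false
set_option linter.unusedSectionVars false

namespace Pool.Agent.H758.SQ

open Finset Matrix
open Pool.Agent.H762.TG (Multigraph dot_self dot_self_nonneg eq_zero_of_dot)
open Pool.Agent.H758.SR (rank IsIsometry Extends)

section L

variable {E : Type} [Fintype E] [DecidableEq E]

/-- The class of `δ` is orthogonal to `H` for the linking form: the projections of `δ` and of the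
elements of `H` to the real span of `C` have integral scalar products. -/
def Orth (C F H : Submodule ℤ (E → ℤ)) (δ : E → ℤ) : Prop :=
  ∀ z ∈ H, ∀ N : ℤ, ∀ c ∈ C, N • z - c ∈ F → N ∣ δ ⬝ᵥ c

/-- the correction terms of a non-trivial subgroup are not constant on the cosets which are
orthogonal to the subgroup -/
def Rg2 (C F : Submodule ℤ (E → ℤ)) : Prop :=
  ∀ H : Submodule ℤ (E → ℤ), C ⊔ F ≤ H → (∀ δ δ' : E → ℤ, Pm δ → Pm δ' → Orth C F H δ →
    (∃ h ∈ H, δ' = δ + (2 : ℤ) • h) → SameSquare C F δ δ') → H ≤ C ⊔ F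

variable {C F : Submodule ℤ (E → ℤ)}

theorem rg2_of_rg (hd : Dual C F) (h : Rg C F) : Rg2 C F := by
  intro H hH hc z hz
  apply h
  intro k δ δ' hδ hδ' hm ⟨t, ht, he⟩
  apply hc δ δ' hδ hδ'
  · intro z' _ N c hcC hf
    obtain ⟨a, ha, b, hb, rfl⟩ := Submodule.mem_sup.1 hm
    have h1 := hd.orth _ ha _ hf
    rw [dotProduct_sub, dotProduct_smul, smul_eq_mul] at h1
    rw [add_dotProduct, dotProduct_comm b, hd.orth _ hcC _ hb, add_zero]
    exact ⟨a ⬝ᵥ z', by linarith⟩
  · refine ⟨k • z + t, H.add_mem (H.smul_mem _ hz) (hH ht), ?_⟩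
    rw [he, smul_add, smul_smul, add_assoc]

/-- a character which does not vanish on a given element -/
theorem exists_char2 (P : Submodule ℤ (E → ℤ)) {m : ℤ} (hm : m ≠ 0) (hP : ∀ z : E → ℤ, m • z ∈ P)
    {y : E → ℤ} (hy : y ∉ P) :
    ∃ r : E → ℤ, (∀ y' ∈ P, m ∣ y' ⬝ᵥ r) ∧ ¬ m ∣ y ⬝ᵥ r := by
  have ha : (Submodule.Quotient.mk y : (E → ℤ) ⧸ P) ≠ 0 := by
    rwa [Ne, Submodule.Quotient.mk_eq_zero]
  obtain ⟨χ, hχ⟩ := CharacterModule.exists_character_apply_ne_zero_of_ne_zero ha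
  have hq : ∀ e : E, ∃ q : ℚ, (q : AddCircle (1 : ℚ)) =
      χ (Submodule.Quotient.mk (Pi.single e 1)) := fun e => QuotientAddGroup.mk_surjective _
  choose q hq using hq
  have hr : ∀ e, ∃ r : ℤ, (r : ℚ) = m * q e := by
    intro e
    have h1 : m • χ (Submodule.Quotient.mk (Pi.single e 1)) = 0 := by
      rw [← map_zsmul, ← Submodule.Quotient.mk_smul, (Submodule.Quotient.mk_eq_zero P).2 (hP _),
        map_zero]
    rw [← hq, ← AddCircle.coe_zsmul] at h1
    obtain ⟨r, hr⟩ := (AddCircle.coe_eq_zero_iff (1 : ℚ)).1 h1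
    exact ⟨r, by simpa using hr⟩
  choose r hr using hr
  have key : ∀ v : E → ℤ, χ (Submodule.Quotient.mk v) =
      ((∑ e, (v e : ℚ) * q e : ℚ) : AddCircle (1 : ℚ)) := by
    intro v
    have h1 : v = ∑ e, v e • (Pi.single e (1 : ℤ) : E → ℤ) := by
      funext i
      rw [Finset.sum_apply, sum_eq_single_of_mem i (mem_univ i)]
      · simp
      · intro e _ he
        rw [Pi.smul_apply, Pi.single_eq_of_ne (Ne.symm he), smul_zero]
    have h2 : (Submodule.Quotient.mk v : (E → ℤ) ⧸ P) =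
        ∑ e, v e • (Submodule.Quotient.mk (Pi.single e (1 : ℤ)) : (E → ℤ) ⧸ P) := by
      conv_lhs => rw [h1]
      rw [← Submodule.mkQ_apply, map_sum]
      rfl
    rw [h2, map_sum]
    have h3 : ∀ e, χ (v e • (Submodule.Quotient.mk (Pi.single e (1 : ℤ)) : (E → ℤ) ⧸ P)) =
        (((v e : ℚ) * q e : ℚ) : AddCircle (1 : ℚ)) := by
      intro e
      rw [map_zsmul, ← hq, ← AddCircle.coe_zsmul, zsmul_eq_mul]
    rw [sum_congr rfl fun e _ => h3 e]
    exact (map_sum (QuotientAddGroup.mk' (AddSubgroup.zmultiples (1 : ℚ)))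
      (fun e => (v e : ℚ) * q e) univ).symm
  have key2 : ∀ v : E → ℤ, χ (Submodule.Quotient.mk v) = 0 ↔ m ∣ v ⬝ᵥ r := by
    intro v
    have hm' : (m : ℚ) ≠ 0 := by exact_mod_cast hm
    have h1 : ((v ⬝ᵥ r : ℤ) : ℚ) = m * ∑ e, (v e : ℚ) * q e := by
      rw [dotProduct, mul_sum]
      push_cast
      apply sum_congr rfl
      intro e _
      rw [hr]; ring
    rw [key, AddCircle.coe_eq_zero_iff]
    constructor
    · rintro ⟨k, hk⟩
      refine ⟨k, ?_⟩
      have h2 : ((v ⬝ᵥ r : ℤ) : ℚ) = ((m * k : ℤ) : ℚ) := by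
        rw [h1, ← hk]
        push_cast
        simp
      exact_mod_cast h2
    · rintro ⟨k, hk⟩
      refine ⟨k, ?_⟩
      have h2 : (m : ℚ) * ∑ e, (v e : ℚ) * q e = m * k := by
        rw [← h1, hk]; push_cast; ring
      rw [mul_left_cancel₀ hm' h2]
      simp
  refine ⟨r, fun y' hy' => (key2 y').1 ?_, fun h => hχ ((key2 y).2 h)⟩
  rw [(Submodule.Quotient.mk_eq_zero P).2 hy', map_zero]

end L

section S

variable {n : ℕ} {E : Fin n → Type} [∀ j, Fintype (E j)] [∀ j, DecidableEq (E j)]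
  {κ κ' : Type} [Fintype κ] [DecidableEq κ] [Fintype κ'] [DecidableEq κ']
  {C F : ∀ j, Submodule ℤ (E j → ℤ)} {f : Sm C →ₗ[ℤ] (κ → ℤ)} {g : Sm F →ₗ[ℤ] (κ' → ℤ)}

/-- the intersection of the metabolizer with a summand -/
noncomputable def Mt (f : Sm C →ₗ[ℤ] (κ → ℤ)) (j : Fin n) : Submodule ℤ (E j → ℤ) where
  carrier := {z | Ext f (ex j z)}
  add_mem' := by
    intro a b ha hb
    change Ext f (ex j (a + b))
    have h1 := Ext.add_smul ha hb 1
    rwa [one_smul, ← map_add] at h1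
  zero_mem' := ⟨0, fun x => by rw [map_zero, dotProduct_zero, dotProduct_zero]⟩
  smul_mem' := by
    rintro c y ⟨w, hw⟩
    exact ⟨c • w, fun x => by rw [dotProduct_smul, hw, map_smul, dotProduct_smul]⟩

theorem mt_le (h : Emb (Sm C) (Sm F) f g) (j : Fin n) : C j ⊔ F j ≤ Mt f j := by
  intro z hz
  apply ext_of_mem h
  rw [mem_sup_Sm]
  intro i
  by_cases hi : i = j
  · subst hi
    simp only [ex_same]
    exact hz
  · simp only [ex_ne _ _ hi]
    exact Submodule.zero_mem _

/-- the restrictions of the extendable vectors to a summand are all vectors orthogonal to the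
intersection of the metabolizer with this summand -/
theorem surj2 (h : Emb (Sm C) (Sm F) f g) (hd : ∀ j, Dual (C j) (F j)) (j : Fin n) {y : E j → ℤ}
    (hy : Orth (C j) (F j) (Mt f j) y) :
    ∃ z : (Σ j, E j) → ℤ, (∀ e, z ⟨j, e⟩ = y e) ∧ Ext f z := by
  suffices hP : y ∈ prj f j from hP
  by_contra hP
  have hC : ∀ c ∈ C j, c ∈ prj f j := by
    intro c hc
    refine ⟨ex j c, fun e => ex_same j c e, f (inj C j ⟨c, hc⟩), fun x => ?_⟩
    rw [h.isoC]
    rfl
  have hF : ∀ y ∈ F j, y ∈ prj f j := by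
    intro y hy
    refine ⟨ex j y, fun e => ex_same j y e, 0, fun x => ?_⟩
    rw [dotProduct_zero, h.dual.orth _ x.2 _ (ex_mem hy)]
  -- a common multiple
  obtain ⟨p, hp0, hpP⟩ : ∃ p : ℤ, p ≠ 0 ∧ ∀ z : E j → ℤ, p • z ∈ prj f j := by
    choose k hk hkm using fun e : E j => split_one h j (Pi.single e (1 : ℤ))
    refine ⟨∏ e, k e, prod_ne_zero_iff.2 fun e _ => (hk e).ne', fun z => ?_⟩
    have h1 : (∏ e, k e) • z = ∑ e, ((∏ i ∈ univ.erase e, k i) * z e) •
        (k e • (Pi.single e (1 : ℤ) : E j → ℤ)) := by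
      funext i
      rw [Finset.sum_apply, sum_eq_single_of_mem i (mem_univ i)]
      · simp only [Pi.smul_apply, Pi.single_eq_same, smul_eq_mul, mul_one]
        rw [← mul_prod_erase univ k (mem_univ i)]
        ring
      · intro e _ he
        simp only [Pi.smul_apply, Pi.single_eq_of_ne (Ne.symm he), smul_zero]
    rw [h1]
    apply Submodule.sum_mem
    intro e _
    apply Submodule.smul_mem
    obtain ⟨a, ha, b, hb, hab⟩ := Submodule.mem_sup.1 (hkm e)
    rw [← hab]
    exact (prj f j).add_mem (hC a ha) (hF b hb)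
  obtain ⟨r, hr, hrn⟩ := exists_char2 (prj f j) hp0 hpP hP
  obtain ⟨t, ht⟩ := exists_div (hd j).repF hp0 fun y hy => hr y (hF y hy)
  set c1 : E j → ℤ := r - p • t with hc1
  have hc1C : c1 ∈ C j := by
    apply (hd j).memC
    intro y hy
    rw [hc1, dotProduct_sub, dotProduct_smul, smul_eq_mul, ht y hy, sub_self]
  have hc1p : ∀ y ∈ prj f j, p ∣ y ⬝ᵥ c1 := by
    intro y hy
    rw [hc1, dotProduct_sub, dotProduct_smul, smul_eq_mul]
    exact dvd_sub (hr y hy) (dvd_mul_right _ _)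
  obtain ⟨z, hz⟩ := exists_div (hd j).repC hp0 fun x hx => hc1p x (hC x hx)
  have hf1 : p • z - c1 ∈ F j := by
    apply (hd j).memF
    intro x hx
    rw [dotProduct_sub, dotProduct_smul, smul_eq_mul, hz x hx, sub_self]
  -- the image of `c1` is divisible by `p`
  have hdiv : ∀ i, p ∣ f (inj C j ⟨c1, hc1C⟩) i := by
    intro i
    obtain ⟨y, hy⟩ := h.dual.repC
      { toFun := fun x => f x ⬝ᵥ (Pi.single i (1 : ℤ))
        map_add' := fun a b => by rw [map_add, add_dotProduct]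
        map_smul' := fun c a => by rw [map_smul, smul_dotProduct]; rfl }
    have hy1 : ∀ x : Sm C, f x ⬝ᵥ (Pi.single i (1 : ℤ)) = (x : (Σ j, E j) → ℤ) ⬝ᵥ y := hy
    have h1 := hy1 (inj C j ⟨c1, hc1C⟩)
    rw [dotProduct_single, mul_one, inj_apply, ex_dot] at h1
    rw [h1, dotProduct_comm]
    exact hc1p _ ⟨y, fun e => rfl, _, hy1⟩
  choose w hw using hdiv
  have hfw : f (inj C j ⟨c1, hc1C⟩) = p • w := by
    funext i
    rw [hw, Pi.smul_apply, smul_eq_mul]
  have hzM : z ∈ Mt f j := by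
    refine ⟨w, fun x => ?_⟩
    have h1 := h.isoC x (inj C j ⟨c1, hc1C⟩)
    rw [hfw, dotProduct_smul, smul_eq_mul, inj_apply, dotProduct_comm (x : (Σ j, E j) → ℤ),
      ex_dot] at h1
    change _ = c1 ⬝ᵥ _ at h1
    rw [dotProduct_comm c1] at h1
    have h2 := hz _ (x.2 j)
    rw [dotProduct_comm (x : (Σ j, E j) → ℤ), ex_dot, dotProduct_comm z]
    exact mul_left_cancel₀ hp0 (h1.trans h2)
  have h1 := hy z hzM p c1 hc1C hf1
  apply hrn
  have h2 : y ⬝ᵥ r = y ⬝ᵥ c1 + p * (y ⬝ᵥ t) := by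
    rw [hc1, dotProduct_sub, dotProduct_smul, smul_eq_mul]; ring
  rw [h2]
  exact dvd_add h1 (dvd_mul_right _ _)

/-- an odd multiple annihilates, so that the factor two can be cancelled -/
theorem orth_of_two {j : Fin n} (hd : Dual (C j) (F j)) (hs : ∀ z : E j → ℤ, ∃ k : ℤ, 0 < k ∧ k • z ∈ C j ⊔ F j)
    (ho : OddDet (C j) (F j)) {H : Submodule ℤ (E j → ℤ)} {u : E j → ℤ}
    (hu : Orth (C j) (F j) H ((2 : ℤ) • u)) : Orth (C j) (F j) H u := by
  intro z hz N c hc hf
  obtain ⟨k, hk, hkz⟩ := odd_split hs ho z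
  obtain ⟨c', hc', y, hy, hcy⟩ := Submodule.mem_sup.1 hkz
  have h1 := hu z hz k c' hc' (by rw [← hcy]; simpa using hy)
  rw [smul_dotProduct, smul_eq_mul] at h1
  have h2 : k ∣ u ⬝ᵥ c' := by
    have hcop : IsCoprime k 2 := by
      obtain ⟨r, hr⟩ := hk
      exact ⟨1, -r, by rw [hr]; ring⟩
    exact hcop.dvd_of_dvd_mul_left h1
  -- `k c = N c'`
  have h3 : k • c = N • c' := by
    have h4 : k • c - N • c' ∈ F j := by
      have h5 : k • c - N • c' = N • y - k • (N • z - c) := by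
        have h6 : N • (k • z) = N • c' + N • y := by rw [← hcy, smul_add]
        have h7 : k • (N • z) = N • (k • z) := smul_comm _ _ _
        rw [smul_sub, h7, h6]; abel
      rw [h5]
      exact (F j).sub_mem ((F j).smul_mem _ hy) ((F j).smul_mem _ hf)
    have h5 : k • c - N • c' ∈ C j := (C j).sub_mem ((C j).smul_mem _ hc) ((C j).smul_mem _ hc')
    exact sub_eq_zero.1 (eq_zero_of_dot (hd.orth _ h5 _ h4))
  obtain ⟨s, hs'⟩ := h2
  have hk0 : k ≠ 0 := by
    rintro rfl
    simp at hk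
  refine ⟨s, mul_left_cancel₀ hk0 ?_⟩
  have h4 : k * (u ⬝ᵥ c) = N * (u ⬝ᵥ c') := by
    have h5 := congrArg (fun v => u ⬝ᵥ v) h3
    simpa only [dotProduct_smul, smul_eq_mul] using h5
  rw [h4, hs']; ring

/-- a vector of entries `±1` on one summand which is orthogonal to the metabolizer extends to a
vector of entries `±1` on all summands -/
theorem extend_pm (h : Emb (Sm C) (Sm F) f g) (hd : ∀ j, Dual (C j) (F j))
    (ho : ∀ j, OddDet (C j) (F j)) (hc : ∀ j, Cub (C j) (F j)) (j : Fin n) {δ : E j → ℤ}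
    (hδ : Pm δ) (hy : Orth (C j) (F j) (Mt f j) δ) :
    ∃ Δ : (Σ j, E j) → ℤ, Pm Δ ∧ (∀ e, Δ ⟨j, e⟩ = δ e) ∧ Ext f Δ := by
  choose δ₀ hδ₀ hm₀ using fun i => exists_pm_spin (split_one h i) (ho i) (hc i)
  have hev : ∀ e, ∃ t, δ e - δ₀ j e = 2 * t := by
    intro e
    obtain ⟨a, ha'⟩ := hδ.odd e
    obtain ⟨b, hb⟩ := (hδ₀ j).odd e
    exact ⟨a - b, by rw [ha', hb]; ring⟩
  choose u hu using hev
  have hu2 : (2 : ℤ) • u = δ - δ₀ j := by
    funext e
    rw [Pi.smul_apply, smul_eq_mul, ← hu]; rfl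
  have horth : Orth (C j) (F j) (Mt f j) u := by
    apply orth_of_two (hd j) (split_one h j) (ho j)
    intro z hz N c hcC hf
    rw [hu2, sub_dotProduct]
    apply dvd_sub (hy z hz N c hcC hf)
    obtain ⟨a, ha, b, hb, hab⟩ := Submodule.mem_sup.1 (hm₀ j)
    have h1 := (hd j).orth _ ha _ hf
    rw [dotProduct_sub, dotProduct_smul, smul_eq_mul] at h1
    rw [← hab, add_dotProduct, dotProduct_comm b, (hd j).orth _ hcC _ hb, add_zero]
    exact ⟨a ⬝ᵥ z, by linarith⟩
  obtain ⟨z₁, hz₁, hE₁⟩ := surj2 h hd j horth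
  set Δ₀ : (Σ j, E j) → ℤ := fun p => δ₀ p.1 p.2 with hΔ₀
  have hE₀ : Ext f Δ₀ := ext_of_mem h (mem_sup_Sm.2 fun i => hm₀ i)
  set Z : (Σ j, E j) → ℤ := Δ₀ + (2 : ℤ) • z₁ with hZ
  have hZE : Ext f Z := hE₀.add_smul hE₁ 2
  have hZo : OddV Z := fun p => sub_two_odd (fun p : Σ j, E j => (hδ₀ p.1).odd p.2) z₁ p
  have hZj : ∀ e, Z ⟨j, e⟩ = δ e := by
    intro e
    rw [hZ, Pi.add_apply, Pi.smul_apply, hz₁, smul_eq_mul, ← hu]
    ring
  have hex : ∀ i, ∃ δ' : E i → ℤ, ∃ t ∈ C i ⊔ F i, Pm δ' ∧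
      δ' = (fun e => Z ⟨i, e⟩) + (2 : ℤ) • t ∧ (i = j → t = 0) := by
    intro i
    by_cases hi : i = j
    · subst hi
      exact ⟨fun e => Z ⟨i, e⟩, 0, Submodule.zero_mem _, fun e => by
        change Z ⟨i, e⟩ = 1 ∨ Z ⟨i, e⟩ = -1
        rw [hZj]; exact hδ e, by simp, fun _ => rfl⟩
    · obtain ⟨δ', h1, t, h2, h3⟩ := exists_pm_class (hc i) (z := fun e => Z ⟨i, e⟩) fun e => hZo _
      exact ⟨δ', t, h2, h1, h3, fun h' => absurd h' hi⟩
  choose δ' t ht hpm he h0 using hex
  refine ⟨fun p => δ' p.1 p.2, fun p => hpm p.1 p.2, fun e => ?_, ?_⟩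
  · change δ' j e = _
    rw [he j, h0 j rfl, Pi.add_apply, Pi.smul_apply, Pi.zero_apply, smul_zero, add_zero]
    exact hZj e
  · have h1 : (fun p : Σ j, E j => δ' p.1 p.2) = Z + (2 : ℤ) • fun p => t p.1 p.2 := by
      funext ⟨i, e⟩
      exact congrFun (he i) e
    rw [h1]
    exact hZE.add_smul (ext_of_mem h (mem_sup_Sm.2 fun i => ht i)) 2

/-- **Key lemma**: the metabolizer does not meet a summand whose correction terms do not descend
to a quotient. -/
theorem triv_of_rg2 (h : Emb (Sm C) (Sm F) f g) (hd : ∀ j, Dual (C j) (F j))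
    (ho : ∀ j, OddDet (C j) (F j)) (hc : ∀ j, Cub (C j) (F j)) {j : Fin n}
    (hR : Rg2 (C j) (F j)) : Triv C F f {j} := by
  intro z hz hw
  have hO := oddDet_Sm ho
  rw [mem_sup_Sm]
  intro l
  by_cases hl : l = j
  · subst hl
    apply hR (Mt f l) (mt_le h l)
    · intro δ δ' hδ hδ' horth ⟨v, hv, he⟩ N c hcC c' hcC' hf hf'
      obtain ⟨Δ, hΔ, hΔl, hE⟩ := extend_pm h hd ho hc l hδ horth
      -- a multiple of `Δ`
      obtain ⟨M, hM, a, haC, b, hbF, hab⟩ := h.split Δ
      set Δ' : (Σ j, E j) → ℤ := Δ + (2 : ℤ) • ex l v with hΔ'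
      have hΔ'l : ∀ e, Δ' ⟨l, e⟩ = δ' e := by
        intro e
        rw [hΔ', Pi.add_apply, Pi.smul_apply, ex_same, hΔl, he]; rfl
      have hΔ'i : ∀ i, i ≠ l → ∀ e, Δ' ⟨i, e⟩ = Δ ⟨i, e⟩ := by
        intro i hi e
        rw [hΔ', Pi.add_apply, Pi.smul_apply, ex_ne _ _ hi, smul_zero, add_zero]
      have hΔ'pm : Pm Δ' := by
        rintro ⟨i, e⟩
        by_cases hi : i = l
        · subst hi
          rw [hΔ'l]; exact hδ' e
        · rw [hΔ'i i hi]; exact hΔ _
      have key : ∀ (D : (Σ j, E j) → ℤ) (d c : E l → ℤ), Pm D → Ext f D →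
          (∀ e, D ⟨l, e⟩ = d e) → (∀ i, i ≠ l → ∀ e, D ⟨i, e⟩ = Δ ⟨i, e⟩) → c ∈ C l →
          N • d - c ∈ F l →
          (M * M) * (c ⬝ᵥ c) + ∑ i ∈ univ.erase l,
            (N • fun e => a ⟨i, e⟩) ⬝ᵥ (N • fun e => a ⟨i, e⟩) = (N * M) ^ 2 * Fintype.card κ := by
        intro D d c hD hDE hDl hDi hcC hf
        have h1 := h.cut_pm hO hD hDE (N := N * M)
          (c := fun p : Σ j, E j => Function.update (fun i => N • fun e => a ⟨i, e⟩) l (M • c)
            p.1 p.2) (by
            intro i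
            by_cases hi : i = l
            · subst hi
              simp only [Function.update_self]
              exact (C i).smul_mem _ hcC
            · simp only [Function.update_of_ne hi]
              exact (C i).smul_mem _ (haC i)) (by
            intro i
            by_cases hi : i = l
            · subst hi
              simp only [Pi.sub_apply, Pi.smul_apply, Function.update_self, hDl]
              have h2 : (fun e => (N * M) • d e - M • c e) = M • (N • d - c) := by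
                funext e
                simp only [Pi.smul_apply, Pi.sub_apply, smul_eq_mul]
                ring
              rw [h2]
              exact (F i).smul_mem _ hf
            · simp only [Pi.sub_apply, Pi.smul_apply, Function.update_of_ne hi, hDi i hi]
              have h2 : (fun e => (N * M) • Δ ⟨i, e⟩ - N • a ⟨i, e⟩) = N • fun e => b ⟨i, e⟩ := by
                funext e
                have h3 := congrFun hab ⟨i, e⟩
                simp only [Pi.smul_apply, Pi.add_apply, smul_eq_mul] at h3 ⊢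
                linear_combination N * h3
              rw [h2]
              exact (F i).smul_mem _ (hbF i))
        rw [← h1, dot_sum, ← add_sum_erase univ _ (mem_univ l)]
        congr 1
        · simp only [Function.update_self]
          rw [smul_dotProduct, dotProduct_smul, smul_eq_mul, smul_eq_mul, mul_assoc]
        · apply sum_congr rfl
          intro i hi
          simp only [Function.update_of_ne (ne_of_mem_erase hi)]
      have k1 := key Δ δ c hΔ hE hΔl (fun _ _ _ => rfl) hcC hf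
      have k2 := key Δ' δ' c' hΔ'pm (hE.add_smul hv 2) hΔ'l hΔ'i hcC' hf'
      exact mul_left_cancel₀ (mul_ne_zero hM.ne' hM.ne') (by linarith)
    · change Ext f (ex l fun e => z ⟨l, e⟩)
      have h1 : (ex l fun e => z ⟨l, e⟩) = z := by
        funext ⟨i, e⟩
        by_cases hi : i = l
        · subst hi
          rw [ex_same]
        · rw [ex_ne _ _ hi]
          exact (hz ⟨i, e⟩ (by simpa using hi)).symm
      rw [h1]
      exact hw
  · have h1 : (fun e => z ⟨l, e⟩) = 0 := funext fun e => hz ⟨l, e⟩ (by simpa using hl)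
    rw [h1]
    exact Submodule.zero_mem _

end S

end Pool.Agent.H758.SQ
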