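import Pool.Agent.H758.SQ.L

/-!
# Sums of dual pairs: the embeddings of the summands are standard
-/

set_option autoImplicit false
set_option linter.unusedSectionVars false

namespace Pool.Agent.H758.SQ

open Finset Matrix
open Pool.Agent.H762.TG (Multigraph dot_self dot_self_nonneg eq_zero_of_dot)
open Pool.Agent.H762.TG.Multigraph

/-- a functional modulo a prime which vanishes on a proper sublattice -/
theorem exists_char {E : Type} [Fintype E] [DecidableEq E] (P : Submodule ℤ (E → ℤ)) (hP : P ≠ ⊤) :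
    ∃ p : ℕ, p.Prime ∧ ∃ r : E → ℤ, (∀ y ∈ P, (p : ℤ) ∣ y ⬝ᵥ r) ∧ ¬ ∀ e, (p : ℤ) ∣ r e := by
  rcases eq_top_or_exists_le_coatom P with h | ⟨N, hN, hPN⟩
  · exact absurd h hP
  · have hs : IsSimpleModule ℤ ((E → ℤ) ⧸ N) := isSimpleModule_iff_isCoatom.2 hN
    obtain ⟨I, hI, ⟨φ⟩⟩ := isSimpleModule_iff_quot_maximal.1 hs
    obtain ⟨a, rfl⟩ : ∃ a : ℤ, I = Ideal.span {a} := by
      obtain ⟨a, ha⟩ := (IsPrincipalIdealRing.principal I).principal
      exact ⟨a, ha⟩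
    have ha0 : a ≠ 0 := by
      rintro rfl
      have h1 : (Ideal.span {(0 : ℤ)}) = ⊥ := by simp
      rw [h1] at hI
      have h2 : Ideal.span {(2 : ℤ)} ≠ ⊤ := by
        intro h3
        have h4 := (Ideal.eq_top_iff_one _).1 h3
        rw [Ideal.mem_span_singleton] at h4
        revert h4
        decide
      have h5 := hI.eq_of_le h2 bot_le
      have h6 : (2 : ℤ) ∈ (⊥ : Ideal ℤ) := by
        rw [h5]; exact Ideal.mem_span_singleton_self 2
      rw [Ideal.mem_bot] at h6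
      revert h6
      decide
    have hap : _root_.Prime a := (Ideal.span_singleton_prime ha0).1 hI.isPrime
    have hpn : (a.natAbs).Prime := Int.prime_iff_natAbs_prime.1 hap
    let m : (E → ℤ) →ₗ[ℤ] (ℤ ⧸ Ideal.span {a}) := φ.toLinearMap.comp N.mkQ
    have hm : ∀ y, m y = 0 ↔ y ∈ N := by
      intro y
      change φ (N.mkQ y) = 0 ↔ _
      rw [LinearEquiv.map_eq_zero_iff]
      exact Submodule.Quotient.mk_eq_zero N
    choose r hr using fun e => Ideal.Quotient.mk_surjective (m (Pi.single e 1))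
    have hmy : ∀ y : E → ℤ, m y = Ideal.Quotient.mk (Ideal.span {a}) (y ⬝ᵥ r) := by
      intro y
      have h2 : y = ∑ e, y e • (Pi.single e (1 : ℤ) : E → ℤ) := by
        funext j
        rw [Finset.sum_apply, sum_eq_single_of_mem j (mem_univ j)]
        · simp
        · intro i _ hi
          simp [hi.symm]
      conv_lhs => rw [h2]
      rw [map_sum, dotProduct, map_sum]
      apply sum_congr rfl
      intro e _
      rw [map_smul, ← hr, map_mul, zsmul_eq_mul]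
      rfl
    refine ⟨a.natAbs, hpn, r, fun y hy => ?_, fun hall => ?_⟩
    · have h1 := (hm y).2 (hPN hy)
      rw [hmy, Ideal.Quotient.eq_zero_iff_mem, Ideal.mem_span_singleton] at h1
      exact Int.natAbs_dvd.2 h1
    · apply hN.1
      rw [eq_top_iff]
      intro y _
      rw [← hm, hmy, Ideal.Quotient.eq_zero_iff_mem, Ideal.mem_span_singleton]
      apply dvd_sum
      intro e _
      exact dvd_mul_of_dvd_right (Int.natAbs_dvd.1 (hall e)) _

/-- division of a functional -/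
theorem exists_div {E : Type} [Fintype E] {B : Submodule ℤ (E → ℤ)}
    (hB : ∀ s : B →ₗ[ℤ] ℤ, ∃ z : E → ℤ, ∀ x : B, s x = (x : E → ℤ) ⬝ᵥ z) {p : ℤ} (hp : p ≠ 0)
    {r : E → ℤ} (h : ∀ x ∈ B, p ∣ x ⬝ᵥ r) : ∃ t : E → ℤ, ∀ x ∈ B, x ⬝ᵥ r = p * (x ⬝ᵥ t) := by
  choose s hs using fun x : B => h x x.2
  obtain ⟨t, ht⟩ := hB
    { toFun := s
      map_add' := fun a b => by
        have h1 := hs (a + b)
        rw [Submodule.coe_add, add_dotProduct, hs a, hs b, ← mul_add] at h1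
        exact (mul_left_cancel₀ hp h1).symm
      map_smul' := fun c a => by
        have h1 := hs (c • a)
        rw [Submodule.coe_smul, smul_dotProduct, hs a, smul_eq_mul] at h1
        simp only [RingHom.id_apply, smul_eq_mul]
        refine mul_left_cancel₀ hp ?_
        rw [← h1]; ring }
  exact ⟨t, fun x hx => by rw [hs ⟨x, hx⟩, ← ht ⟨x, hx⟩]; rfl⟩

theorem card_le_of_odd {κ : Type} [Fintype κ] {w : κ → ℤ} (hw : OddV w) :
    (Fintype.card κ : ℤ) ≤ w ⬝ᵥ w := by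
  rw [dotProduct, ← card_univ, card_eq_sum_ones]
  push_cast
  apply sum_le_sum
  intro i _
  have h1 : w i ≠ 0 := fun h0 => by
    have := hw i
    rw [h0] at this
    exact absurd this (by decide)
  have h2 : 0 < w i * w i := mul_self_pos.2 h1
  linarith

theorem pm_of_norm {κ : Type} [Fintype κ] {w : κ → ℤ} (hw : OddV w)
    (h : w ⬝ᵥ w ≤ (Fintype.card κ : ℤ)) : Pm w := by
  have h1 : ∀ i ∈ (univ : Finset κ), (1 : ℤ) ≤ w i * w i := by
    intro i _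
    have h1 : w i ≠ 0 := fun h0 => by
      have := hw i
      rw [h0] at this
      exact absurd this (by decide)
    have h2 : 0 < w i * w i := mul_self_pos.2 h1
    linarith
  have h2 : ∑ _i : κ, (1 : ℤ) = ∑ i, w i * w i := by
    apply le_antisymm (sum_le_sum h1)
    have h3 : ∑ _i : κ, (1 : ℤ) = (Fintype.card κ : ℤ) := by simp
    rw [h3]
    exact h
  intro i
  have h3 := (sum_eq_sum_iff_of_le h1).1 h2 i (mem_univ i)
  have h4 : (w i - 1) * (w i + 1) = 0 := by linear_combination -h3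
  rcases mul_eq_zero.1 h4 with h5 | h5
  · left; linarith
  · right; linarith

theorem norm_of_pm {κ : Type} [Fintype κ] {w : κ → ℤ} (hw : Pm w) :
    w ⬝ᵥ w = (Fintype.card κ : ℤ) := by
  rw [dotProduct, ← card_univ, card_eq_sum_ones]
  push_cast
  apply sum_congr rfl
  intro i _
  rcases hw i with h | h <;> rw [h] <;> norm_num

theorem Pm.odd {κ : Type} {w : κ → ℤ} (hw : Pm w) : OddV w := by
  intro i
  rcases hw i with h | h <;> rw [h] <;> decide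

section S

variable {n : ℕ} {E : Fin n → Type} [∀ j, Fintype (E j)] [∀ j, DecidableEq (E j)]
  {κ κ' : Type} [Fintype κ] [DecidableEq κ] [Fintype κ'] [DecidableEq κ']
  {C F : ∀ j, Submodule ℤ (E j → ℤ)} {f : Sm C →ₗ[ℤ] (κ → ℤ)} {g : Sm F →ₗ[ℤ] (κ' → ℤ)}

/-- the restrictions of the vectors which define extendable functionals -/
def prj (f : Sm C →ₗ[ℤ] (κ → ℤ)) (j : Fin n) : Submodule ℤ (E j → ℤ) where
  carrier := {y | ∃ z : (Σ j, E j) → ℤ, (∀ e, z ⟨j, e⟩ = y e) ∧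
    ∃ w, ∀ x : Sm C, f x ⬝ᵥ w = (x : (Σ j, E j) → ℤ) ⬝ᵥ z}
  add_mem' := by
    rintro y y' ⟨z, hz, w, hw⟩ ⟨z', hz', w', hw'⟩
    exact ⟨z + z', fun e => by rw [Pi.add_apply, Pi.add_apply, hz, hz'], w + w', fun x => by
      rw [dotProduct_add, dotProduct_add, hw, hw']⟩
  zero_mem' := ⟨0, fun e => rfl, 0, fun x => by rw [dotProduct_zero, dotProduct_zero]⟩
  smul_mem' := by
    rintro c y ⟨z, hz, w, hw⟩
    exact ⟨c • z, fun e => by rw [Pi.smul_apply, Pi.smul_apply, hz], c • w, fun x => by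
      rw [dotProduct_smul, dotProduct_smul, hw]⟩

theorem surj (h : Emb (Sm C) (Sm F) f g) (hd : ∀ j, Dual (C j) (F j))
    (ha : ∀ j, Aniso (C j) (F j)) (j : Fin n) (y : E j → ℤ) :
    ∃ z : (Σ j, E j) → ℤ, (∀ e, z ⟨j, e⟩ = y e) ∧
      ∃ w, ∀ x : Sm C, f x ⬝ᵥ w = (x : (Σ j, E j) → ℤ) ⬝ᵥ z := by
  suffices hP : prj f j = ⊤ by
    have h1 : y ∈ prj f j := by rw [hP]; trivial
    exact h1
  by_contra hP
  obtain ⟨p, hp, r, hr, hrn⟩ := exists_char (prj f j) hP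
  have hp0 : (p : ℤ) ≠ 0 := by exact_mod_cast hp.ne_zero
  have hC : ∀ c ∈ C j, c ∈ prj f j := by
    intro c hc
    refine ⟨ex j c, fun e => ex_same j c e, f (inj C j ⟨c, hc⟩), fun x => ?_⟩
    rw [h.isoC]
    rfl
  have hF : ∀ y ∈ F j, y ∈ prj f j := by
    intro y hy
    refine ⟨ex j y, fun e => ex_same j y e, 0, fun x => ?_⟩
    rw [dotProduct_zero, h.dual.orth _ x.2 _ (ex_mem hy)]
  obtain ⟨t, ht⟩ := exists_div (hd j).repF hp0 fun y hy => hr y (hF y hy)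
  set c1 : E j → ℤ := r - (p : ℤ) • t with hc1
  have hc1C : c1 ∈ C j := by
    apply (hd j).memC
    intro y hy
    rw [hc1, dotProduct_sub, dotProduct_smul, smul_eq_mul, ht y hy, sub_self]
  have hc1p : ∀ y ∈ prj f j, (p : ℤ) ∣ y ⬝ᵥ c1 := by
    intro y hy
    rw [hc1, dotProduct_sub, dotProduct_smul, smul_eq_mul]
    exact dvd_sub (hr y hy) (dvd_mul_right _ _)
  obtain ⟨z, hz⟩ := exists_div (hd j).repC hp0 fun x hx => hc1p x (hC x hx)
  have hf1 : (p : ℤ) • z - c1 ∈ F j := by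
    apply (hd j).memF
    intro x hx
    rw [dotProduct_sub, dotProduct_smul, smul_eq_mul, hz x hx, sub_self]
  -- the image of `c1` is divisible by `p`
  have hdiv : ∀ i, (p : ℤ) ∣ f (inj C j ⟨c1, hc1C⟩) i := by
    intro i
    obtain ⟨y, hy⟩ := h.dual.repC
      { toFun := fun x => f x ⬝ᵥ (Pi.single i (1 : ℤ))
        map_add' := fun a b => by rw [map_add, add_dotProduct]
        map_smul' := fun c a => by rw [map_smul, smul_dotProduct]; rfl }
    have hy1 : ∀ x : Sm C, f x ⬝ᵥ (Pi.single i (1 : ℤ)) = (x : (Σ j, E j) → ℤ) ⬝ᵥ y := hy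
    have h1 := hy1 (inj C j ⟨c1, hc1C⟩)
    rw [dotProduct_single, mul_one, inj_apply, ex_dot] at h1
    rw [h1, dotProduct_comm]
    exact hc1p _ ⟨y, fun e => rfl, _, hy1⟩
  choose w hw using hdiv
  have hfw : f (inj C j ⟨c1, hc1C⟩) = (p : ℤ) • w := by
    funext i
    rw [hw, Pi.smul_apply, smul_eq_mul]
  have hN : (p : ℤ) ^ 2 ∣ c1 ⬝ᵥ c1 := by
    have h1 := h.isoC (inj C j ⟨c1, hc1C⟩) (inj C j ⟨c1, hc1C⟩)
    rw [hfw, inj_apply, ex_dot] at h1
    have h2 : (fun e => (ex j c1) ⟨j, e⟩) = c1 := funext fun e => ex_same j c1 e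
    rw [h2, smul_dotProduct, dotProduct_smul, smul_eq_mul, smul_eq_mul] at h1
    rw [← h1]
    exact ⟨w ⬝ᵥ w, by ring⟩
  have hmem := ha j z c1 hc1C _ hf1 p hp0 (by abel) hN
  obtain ⟨c, hc, f', hf', he⟩ := Submodule.mem_sup.1 hmem
  have h3 : (p : ℤ) • c - c1 = ((p : ℤ) • z - c1) - (p : ℤ) • f' := by
    rw [← he, smul_add]; abel
  have h4 : (p : ℤ) • c - c1 ∈ F j := by
    rw [h3]; exact (F j).sub_mem hf1 ((F j).smul_mem _ hf')
  have h5 : (p : ℤ) • c - c1 ∈ C j := (C j).sub_mem ((C j).smul_mem _ hc) hc1C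
  have h6 := eq_zero_of_dot ((hd j).orth _ h5 _ h4)
  apply hrn
  intro e
  have h7 := congrFun h6 e
  have h8 := congrFun hc1 e
  simp only [Pi.sub_apply, Pi.smul_apply, smul_eq_mul, Pi.zero_apply] at h7 h8
  exact ⟨c e + t e, by linarith⟩

theorem mem_sup_Sm {z : (Σ j, E j) → ℤ} :
    z ∈ Sm C ⊔ Sm F ↔ ∀ j, (fun e => z ⟨j, e⟩) ∈ C j ⊔ F j := by
  constructor
  · intro hz j
    obtain ⟨x, hx, y, hy, rfl⟩ := Submodule.mem_sup.1 hz
    exact Submodule.mem_sup.2 ⟨_, hx j, _, hy j, rfl⟩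
  · intro hz
    choose x hx y hy he using fun j => Submodule.mem_sup.1 (hz j)
    refine Submodule.mem_sup.2 ⟨fun p => x p.1 p.2, fun j => hx j, fun p => y p.1 p.2,
      fun j => hy j, ?_⟩
    funext ⟨j, e⟩
    exact congrFun (he j) e

theorem oddDet_Sm (ho : ∀ j, OddDet (C j) (F j)) : OddDet (Sm C) (Sm F) := by
  intro z hz
  rw [mem_sup_Sm] at hz ⊢
  exact fun j => ho j _ (hz j)

theorem exists_pm (h : Emb (Sm C) (Sm F) f g) (hd : ∀ j, Dual (C j) (F j))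
    (ha : ∀ j, Aniso (C j) (F j)) (ho : ∀ j, OddDet (C j) (F j)) (hc : ∀ j, Cub (C j) (F j))
    (j : Fin n) {δ : E j → ℤ} (hδ : Pm δ) :
    (∃ ε : κ → ℤ, Pm ε ∧ ∀ x : C j, f (inj C j x) ⬝ᵥ ε = (x : E j → ℤ) ⬝ᵥ δ) ∧
    ∃ ε : κ' → ℤ, Pm ε ∧ ∀ x : F j, g (inj F j x) ⬝ᵥ ε = (x : E j → ℤ) ⬝ᵥ δ := by
  obtain ⟨z₀, hz₀, w₀, hw₀⟩ := h.exists_odd
  have hev : ∀ e, ∃ t, δ e - z₀ ⟨j, e⟩ = 2 * t := by
    intro e
    obtain ⟨a, ha'⟩ := hδ.odd e
    obtain ⟨b, hb⟩ := hz₀ ⟨j, e⟩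
    exact ⟨a - b, by rw [ha', hb]; ring⟩
  choose t ht using hev
  obtain ⟨z₁, hz₁, w₁, hw₁⟩ := surj h hd ha j t
  set z : (Σ j, E j) → ℤ := z₀ + (2 : ℤ) • z₁ with hz
  have hzo : OddV z := by
    intro p
    obtain ⟨b, hb⟩ := hz₀ p
    exact ⟨b + z₁ p, by rw [hz, Pi.add_apply, Pi.smul_apply, hb, smul_eq_mul]; ring⟩
  have hzj : ∀ e, z ⟨j, e⟩ = δ e := by
    intro e
    rw [hz, Pi.add_apply, Pi.smul_apply, hz₁, smul_eq_mul, ← ht]; ring
  set w : κ → ℤ := w₀ + (2 : ℤ) • w₁ with hwd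
  have hw : ∀ x : Sm C, f x ⬝ᵥ w = (x : (Σ j, E j) → ℤ) ⬝ᵥ z := by
    intro x
    rw [hwd, hz, dotProduct_add, dotProduct_add, dotProduct_smul, dotProduct_smul, hw₀, hw₁]
  obtain ⟨w', hw'⟩ := (h.comp z).1 ⟨w, hw⟩
  have hex : ∀ k, ∃ δ' : E k → ℤ, ∃ c ∈ C k, ∃ y ∈ F k, Pm δ' ∧
      (fun e => z ⟨k, e⟩) = δ' + (2 : ℤ) • c + (2 : ℤ) • y ∧ (k = j → c = 0 ∧ y = 0) := by
    intro k
    by_cases hk : k = j
    · subst hk
      exact ⟨fun e => z ⟨k, e⟩, 0, (C k).zero_mem, 0, (F k).zero_mem, fun e => by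
        change z ⟨k, e⟩ = 1 ∨ z ⟨k, e⟩ = -1
        rw [hzj]; exact hδ e, by simp, fun _ => ⟨rfl, rfl⟩⟩
    · obtain ⟨δ', h1, c, h2, y, h3, h4⟩ := hc k (fun e => z ⟨k, e⟩) fun e => hzo _
      exact ⟨δ', c, h2, y, h3, h1, h4, fun h' => absurd h' hk⟩
  choose δ' c hcC y hyF hpm hdec h0 using hex
  set Δ : (Σ j, E j) → ℤ := fun p => δ' p.1 p.2 with hΔ
  let cc : Sm C := ⟨fun p => c p.1 p.2, fun k => hcC k⟩
  let yy : Sm F := ⟨fun p => y p.1 p.2, fun k => hyF k⟩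
  have hzΔ : z = Δ + (2 : ℤ) • (cc : (Σ j, E j) → ℤ) + (2 : ℤ) • (yy : (Σ j, E j) → ℤ) := by
    funext ⟨k, e⟩
    exact congrFun (hdec k) e
  have hΔpm : Pm Δ := fun p => hpm p.1 p.2
  have e1 : ∀ x : Sm C, f x ⬝ᵥ (w - (2 : ℤ) • f cc) = (x : (Σ j, E j) → ℤ) ⬝ᵥ Δ := by
    intro x
    rw [dotProduct_sub, dotProduct_smul, hw, h.isoC, hzΔ, dotProduct_add, dotProduct_add,
      dotProduct_smul, dotProduct_smul, h.dual.orth _ x.2 _ yy.2]
    simp
  have e2 : ∀ x : Sm F, g x ⬝ᵥ (w' - (2 : ℤ) • g yy) = (x : (Σ j, E j) → ℤ) ⬝ᵥ Δ := by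
    intro x
    rw [dotProduct_sub, dotProduct_smul, hw', h.isoF, hzΔ, dotProduct_add, dotProduct_add,
      dotProduct_smul, dotProduct_smul, dotProduct_comm (x : (Σ j, E j) → ℤ)
        (cc : (Σ j, E j) → ℤ), h.dual.orth _ cc.2 _ x.2]
    simp
  have hO := oddDet_Sm ho
  have o1 := h.odd hO hΔpm.odd e1
  have o2 := h.symm.odd hO.symm hΔpm.odd e2
  have hnorm := h.norm e1 e2
  rw [norm_of_pm hΔpm, ← h.rk] at hnorm
  push_cast at hnorm
  have l1 := card_le_of_odd o1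
  have l2 := card_le_of_odd o2
  have hj : (fun e => Δ ⟨j, e⟩) = δ := by
    funext e
    have h1 := congrFun (hdec j) e
    rw [(h0 j rfl).1, (h0 j rfl).2, hzj] at h1
    simpa using h1.symm
  refine ⟨⟨_, pm_of_norm o1 (by linarith), fun x => ?_⟩, ⟨_, pm_of_norm o2 (by linarith), fun x => ?_⟩⟩
  · rw [e1, inj_apply, ex_dot, hj]
  · rw [e2, inj_apply, ex_dot, hj]

theorem unit_pres (h : Emb (Sm C) (Sm F) f g) (hd : ∀ j, Dual (C j) (F j))
    (ha : ∀ j, Aniso (C j) (F j)) (ho : ∀ j, OddDet (C j) (F j)) (hc : ∀ j, Cub (C j) (F j))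
    (j : Fin n) (x : C j) (hx : ∀ e, |(x : E j → ℤ) e| ≤ 1) (i : κ) :
    |f (inj C j x) i| ≤ 1 := by
  obtain ⟨ε, hε, he⟩ := (exists_pm h hd ha ho hc j
    (δ := fun e => if 0 ≤ (x : E j → ℤ) e then 1 else -1) (fun e => by
      by_cases h' : 0 ≤ (x : E j → ℤ) e
      · left; exact if_pos h'
      · right; exact if_neg h')).1
  have h1 := he x
  have h2 : (x : E j → ℤ) ⬝ᵥ (fun e => if 0 ≤ (x : E j → ℤ) e then (1 : ℤ) else -1) =
      (x : E j → ℤ) ⬝ᵥ (x : E j → ℤ) := by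
    rw [dotProduct, dotProduct]
    apply sum_congr rfl
    intro e _
    have h3 := abs_le.1 (hx e)
    have h4 : (x : E j → ℤ) e = -1 ∨ (x : E j → ℤ) e = 0 ∨ (x : E j → ℤ) e = 1 := by omega
    rcases h4 with h4 | h4 | h4 <;> rw [h4] <;> norm_num
  have h3 := h.isoC (inj C j x) (inj C j x)
  have h4 : (fun e => (ex j (x : E j → ℤ)) ⟨j, e⟩) = (x : E j → ℤ) :=
    funext fun e => ex_same j _ e
  rw [inj_apply, ex_dot, h4, ← h2, ← h1] at h3
  set v := f (inj C j x) with hv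
  have h5 : ∀ i ∈ (univ : Finset κ), v i * ε i ≤ v i * v i := by
    intro i _
    have := Int.le_self_sq (v i)
    have := Int.le_self_sq (-v i)
    rcases hε i with h' | h' <;> rw [h'] <;> nlinarith
  have h6 : ∑ i, v i * ε i = ∑ i, v i * v i := h3.symm
  have h7 := (sum_eq_sum_iff_of_le h5).1 h6 i (mem_univ i)
  have h8 : v i * (v i - ε i) = 0 := by linear_combination -h7
  rcases mul_eq_zero.1 h8 with h9 | h9
  · rw [h9]; norm_num
  · have h10 : v i = ε i := by linarith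
    rcases hε i with h' | h' <;> rw [h10, h'] <;> norm_num

/-- the embedding of the j-th lattice is standard -/
def Std (f : Sm C →ₗ[ℤ] (κ → ℤ)) (j : Fin n) (τ : E j → κ) (η : E j → ℤˣ) : Prop :=
  Function.Injective τ ∧ (∀ (x : C j) (e : E j), f (inj C j x) (τ e) = η e * (x : E j → ℤ) e) ∧
    ∀ (x : C j) (i : κ), (∀ e, τ e ≠ i) → f (inj C j x) i = 0

theorem eq_sum_inj (x : Sm C) : x = ∑ j, inj C j ⟨fun e => (x : (Σ j, E j) → ℤ) ⟨j, e⟩, x.2 j⟩ := by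
  apply Subtype.ext
  rw [AddSubmonoidClass.coe_finsetSum]
  funext ⟨k, e⟩
  rw [Finset.sum_apply, sum_eq_single_of_mem k (mem_univ k)]
  · rw [inj_apply, ex_same]
  · intro j _ hj
    rw [inj_apply, ex_ne _ _ (Ne.symm hj)]

theorem f_eq_sum (f : Sm C →ₗ[ℤ] (κ → ℤ)) (x : Sm C) (i : κ) :
    f x i = ∑ j, f (inj C j ⟨fun e => (x : (Σ j, E j) → ℤ) ⟨j, e⟩, x.2 j⟩) i := by
  conv_lhs => rw [eq_sum_inj x]
  rw [map_sum, Finset.sum_apply]

end S

end Pool.Agent.H758.SQ
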