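import Pool.Agent.H758.SQ.Split

/-!
# Sums of prime alternating diagrams without partial metabolizers
-/

set_option autoImplicit false
set_option linter.unusedSectionVars false

namespace Pool.Agent.H758.SQ

open Finset Matrix
open Pool.Agent.H762.TG (Multigraph dot_self dot_self_nonneg eq_zero_of_dot)
open Pool.Agent.H758.SR (rank IsIsometry Extends)

section G

variable {V E : Type} [Fintype E] [DecidableEq V]

/-- The correction terms of the double branched cover descend to the subquotient `H^⊥ / H` of the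
linking form: the subgroup `H` of `E → ℤ` contains the cuts and the flows, and any two vectors `δ`
and `δ'` with all entries `1` or `-1` whose difference is in `2 H` and which are orthogonal to `H`
(see `Orth`) have projections of the same square to the real span of the cuts (see `SameSquare`). -/
def Descends (G : Multigraph V E) (H : Submodule ℤ (E → ℤ)) : Prop :=
  G.cuts ⊔ G.flows ≤ H ∧ ∀ δ δ' : E → ℤ, Pm δ → Pm δ' → Orth G.cuts G.flows H δ →
    (∃ h ∈ H, δ' = δ + (2 : ℤ) • h) → SameSquare G.cuts G.flows δ δ'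

/-- There is no partial metabolizer to which the correction terms descend: if they descend to
`H^⊥ / H` then `H` is the sum of the lattices of cuts and of flows, or `H` contains all vectors
which are orthogonal to it. -/
def Simple (G : Multigraph V E) : Prop :=
  ∀ H : Submodule ℤ (E → ℤ), Descends G H →
    H ≤ G.cuts ⊔ G.flows ∨ ∀ y, Orth G.cuts G.flows H y → y ∈ H

theorem Rigid.simple {G : Multigraph V E} (h : Rigid G) : Simple G :=
  fun H hH => Or.inl (h H hH.1 hH.2)

end G

section S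

variable {n : ℕ} {E : Fin n → Type} [∀ j, Fintype (E j)] [∀ j, DecidableEq (E j)]
  {κ κ' : Type} [Fintype κ] [DecidableEq κ] [Fintype κ'] [DecidableEq κ']
  {C F : ∀ j, Submodule ℤ (E j → ℤ)} {f : Sm C →ₗ[ℤ] (κ → ℤ)} {g : Sm F →ₗ[ℤ] (κ' → ℤ)}

/-- the correction terms descend to the intersection of the metabolizer with a summand -/
theorem descends_mt (h : Emb (Sm C) (Sm F) f g) (hd : ∀ j, Dual (C j) (F j))
    (ho : ∀ j, OddDet (C j) (F j)) (hc : ∀ j, Cub (C j) (F j)) (l : Fin n) :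
    ∀ δ δ' : E l → ℤ, Pm δ → Pm δ' → Orth (C l) (F l) (Mt f l) δ →
      (∃ v ∈ Mt f l, δ' = δ + (2 : ℤ) • v) → SameSquare (C l) (F l) δ δ' := by
  have hO := oddDet_Sm ho
  intro δ δ' hδ hδ' horth ⟨v, hv, he⟩ N c hcC c' hcC' hf hf'
  obtain ⟨Δ, hΔ, hΔl, hE⟩ := extend_pm h hd ho hc l hδ horth
  obtain ⟨M, hM, a, haC, b, hbF, hab⟩ := h.split Δ
  set Δ' : (Σ j, E j) → ℤ := Δ + (2 : ℤ) • ex l v with hΔ'
  have hΔ'l : ∀ e, Δ' ⟨l, e⟩ = δ' e := by
    intro e
    rw [hΔ', Pi.add_apply, Pi.smul_apply, ex_same, hΔl, he]; rfl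
  have hΔ'i : ∀ i, i ≠ l → ∀ e, Δ' ⟨i, e⟩ = Δ ⟨i, e⟩ := by
    intro i hi e
    rw [hΔ', Pi.add_apply, Pi.smul_apply, ex_ne _ _ hi, smul_zero, add_zero]
  have hΔ'pm : Pm Δ' := by
    rintro ⟨i, e⟩
    by_cases hi : i = l
    · subst hi
      rw [hΔ'l]; exact hδ' e
    · rw [hΔ'i i hi]; exact hΔ _
  have key : ∀ (D : (Σ j, E j) → ℤ) (d c : E l → ℤ), Pm D → Ext f D →
      (∀ e, D ⟨l, e⟩ = d e) → (∀ i, i ≠ l → ∀ e, D ⟨i, e⟩ = Δ ⟨i, e⟩) → c ∈ C l →
      N • d - c ∈ F l →
      (M * M) * (c ⬝ᵥ c) + ∑ i ∈ univ.erase l,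
        (N • fun e => a ⟨i, e⟩) ⬝ᵥ (N • fun e => a ⟨i, e⟩) = (N * M) ^ 2 * Fintype.card κ := by
    intro D d c hD hDE hDl hDi hcC hf
    have h1 := h.cut_pm hO hD hDE (N := N * M)
      (c := fun p : Σ j, E j => Function.update (fun i => N • fun e => a ⟨i, e⟩) l (M • c)
        p.1 p.2) (by
        intro i
        by_cases hi : i = l
        · subst hi
          simp only [Function.update_self]
          exact (C i).smul_mem _ hcC
        · simp only [Function.update_of_ne hi]
          exact (C i).smul_mem _ (haC i)) (by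
        intro i
        by_cases hi : i = l
        · subst hi
          simp only [Pi.sub_apply, Pi.smul_apply, Function.update_self, hDl]
          have h2 : (fun e => (N * M) • d e - M • c e) = M • (N • d - c) := by
            funext e
            simp only [Pi.smul_apply, Pi.sub_apply, smul_eq_mul]
            ring
          rw [h2]
          exact (F i).smul_mem _ hf
        · simp only [Pi.sub_apply, Pi.smul_apply, Function.update_of_ne hi, hDi i hi]
          have h2 : (fun e => (N * M) • Δ ⟨i, e⟩ - N • a ⟨i, e⟩) = N • fun e => b ⟨i, e⟩ := by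
            funext e
            have h3 := congrFun hab ⟨i, e⟩
            simp only [Pi.smul_apply, Pi.add_apply, smul_eq_mul] at h3 ⊢
            linear_combination N * h3
          rw [h2]
          exact (F i).smul_mem _ (hbF i))
    rw [← h1, dot_sum, ← add_sum_erase univ _ (mem_univ l)]
    congr 1
    · simp only [Function.update_self]
      rw [smul_dotProduct, dotProduct_smul, smul_eq_mul, smul_eq_mul, mul_assoc]
    · apply sum_congr rfl
      intro i hi
      simp only [Function.update_of_ne (ne_of_mem_erase hi)]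
  have k1 := key Δ δ c hΔ hE hΔl (fun _ _ _ => rfl) hcC hf
  have k2 := key Δ' δ' c' hΔ'pm (hE.add_smul hv 2) hΔ'l hΔ'i hcC' hf'
  exact mul_left_cancel₀ (mul_ne_zero hM.ne' hM.ne') (by linarith)

theorem triv_of_mt_le {j : Fin n} (h : Mt f j ≤ C j ⊔ F j) : Triv C F f {j} := by
  intro z hz hw
  rw [mem_sup_Sm]
  intro l
  by_cases hl : l = j
  · subst hl
    apply h
    change Ext f (ex l fun e => z ⟨l, e⟩)
    have h1 : (ex l fun e => z ⟨l, e⟩) = z := by
      funext ⟨i, e⟩
      by_cases hi : i = l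
      · subst hi
        rw [ex_same]
      · rw [ex_ne _ _ hi]
        exact (hz ⟨i, e⟩ (by simpa using hi)).symm
    rw [h1]
    exact hw
  · have h1 : (fun e => z ⟨l, e⟩) = 0 := funext fun e => hz ⟨l, e⟩ (by simpa using hl)
    rw [h1]
    exact Submodule.zero_mem _

theorem mt_cases (h : Emb (Sm C) (Sm F) f g) (hd : ∀ j, Dual (C j) (F j))
    (ho : ∀ j, OddDet (C j) (F j)) (hc : ∀ j, Cub (C j) (F j)) {j : Fin n}
    (hS : ∀ H : Submodule ℤ (E j → ℤ), (C j ⊔ F j ≤ H ∧ ∀ δ δ' : E j → ℤ, Pm δ → Pm δ' →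
      Orth (C j) (F j) H δ → (∃ h ∈ H, δ' = δ + (2 : ℤ) • h) → SameSquare (C j) (F j) δ δ') →
      H ≤ C j ⊔ F j ∨ ∀ y, Orth (C j) (F j) H y → y ∈ H) :
    Triv C F f {j} ∨ Full (C j) (F j) (Mt f j) :=
  (hS (Mt f j) ⟨mt_le h j, descends_mt h hd ho hc j⟩).imp triv_of_mt_le fun h => h

end S

theorem slice_of_emb' {V E : Type} [Fintype V] [DecidableEq V] [Fintype E] [DecidableEq E]
    {G : Multigraph V E} {κ κ' : Type} [Fintype κ] [Fintype κ'] {C F : Submodule ℤ (E → ℤ)}
    (hC : G.cuts = C) (hF : G.flows = F) {f : C →ₗ[ℤ] (κ → ℤ)} {g : F →ₗ[ℤ] (κ' → ℤ)}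
    (h : Emb C F f g) : LatticeSlice G := by
  subst hC hF
  exact slice_of_emb h

section M

variable {n : ℕ} {E : Fin (n + 1) → Type} [∀ j, Fintype (E j)] [∀ j, DecidableEq (E j)]
  {κ κ' : Type} [Fintype κ] [DecidableEq κ] [Fintype κ'] [DecidableEq κ']
  {C F : ∀ j, Submodule ℤ (E j → ℤ)} {f : Sm C →ₗ[ℤ] (κ → ℤ)} {g : Sm F →ₗ[ℤ] (κ' → ℤ)}

theorem meta_emb (h : Emb (Sm C) (Sm F) f g) {j : Fin (n + 1)}
    (hM : Full (C j) (F j) (Mt f j)) (hdj : Dual (C j) (F j))
    (hdo : Dual (Sm fun i : Fin n => C (j.succAbove i)) (Sm fun i : Fin n => F (j.succAbove i)))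
    (hrj : Module.finrank ℤ (C j) + Module.finrank ℤ (F j) = Fintype.card (E j)) :
    (∃ (A : κ → Prop) (_ : DecidablePred A) (B : κ' → Prop) (_ : DecidablePred B)
      (f₁ : C j →ₗ[ℤ] ({i // A i} → ℤ)) (g₁ : F j →ₗ[ℤ] ({i // B i} → ℤ)),
        Emb (C j) (F j) f₁ g₁) ∧
    ∃ (A : κ → Prop) (_ : DecidablePred A) (B : κ' → Prop) (_ : DecidablePred B)
      (f₁ : Sm (fun i : Fin n => C (j.succAbove i)) →ₗ[ℤ] ({i // A i} → ℤ))
      (g₁ : Sm (fun i : Fin n => F (j.succAbove i)) →ₗ[ℤ] ({i // B i} → ℤ)),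
        Emb (Sm fun i : Fin n => C (j.succAbove i)) (Sm fun i : Fin n => F (j.succAbove i))
          f₁ g₁ := by
  classical
  have hM' := full_symm h hM
  let A : κ → Prop := fun i => ∃ x : C j, f (inj C j x) i ≠ 0
  let B : κ' → Prop := fun i => ∃ x : F j, g (inj F j x) i ≠ 0
  obtain ⟨a1, a2⟩ := meta_rank h hM A fun i => Iff.rfl
  obtain ⟨b1, b2⟩ := meta_rank h.symm hM' B fun i => Iff.rfl
  have cA := Fintype.card_subtype_compl A
  have cA' := Fintype.card_subtype_le A
  have cB := Fintype.card_subtype_compl B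
  have cB' := Fintype.card_subtype_le B
  have hcard : Fintype.card (Σ i, E i) = Fintype.card (E j) +
      Fintype.card (Σ i : Fin n, E (j.succAbove i)) := by
    rw [Fintype.card_sigma, Fintype.card_sigma, Fin.sum_univ_succAbove _ j]
  have hrk := h.rk
  constructor
  · refine ⟨A, inferInstance, B, inferInstance, _, _,
      sub_emb h (e := Sigma.mk j) sigma_mk_injective hdj
      (inj C j) (fun x z => by rw [inj_dot]; rfl) (fun z => z.2 j)
      (inj F j) (fun x z => by rw [inj_dot]; rfl) (fun z => z.2 j)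
      A (fun x i hi => by by_contra hne; exact hi ⟨x, hne⟩) (fun z hz i ⟨x, hx⟩ => ?_)
      B (fun x i hi => by by_contra hne; exact hi ⟨x, hne⟩) (fun z hz i ⟨x, hx⟩ => ?_)
      a1 b1 ?_⟩
    · rcases meta_coord h hM i with h3 | h3
      · exact absurd (h3 x) hx
      · exact h3 z fun e => congrFun hz e
    · rcases meta_coord h.symm hM' i with h3 | h3
      · exact absurd (h3 x) hx
      · exact h3 z fun e => congrFun hz e
    · rw [← a1, ← b1]; exact hrj
  · refine ⟨fun i => ¬ A i, inferInstance, fun i => ¬ B i, inferInstance, _, _,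
      sub_emb h (e := oth j) (oth_inj j) hdo
      (incl C j) (incl_dot j) (fun z i => z.2 (j.succAbove i))
      (incl F j) (incl_dot j) (fun z i => z.2 (j.succAbove i))
      (fun i => ¬ A i) (fun x i hi => ?_) (fun z hz i hi => ?_)
      (fun i => ¬ B i) (fun x i hi => ?_) (fun z hz i hi => ?_)
      a2 b2 ?_⟩
    · rw [not_not] at hi
      obtain ⟨y, hy⟩ := hi
      rcases meta_coord h hM i with h3 | h3
      · exact absurd (h3 y) hy
      · exact h3 _ (incl_self j x)
    · rw [eq_inj_of_oth j z hz]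
      by_contra hne
      exact hi ⟨_, hne⟩
    · rw [not_not] at hi
      obtain ⟨y, hy⟩ := hi
      rcases meta_coord h.symm hM' i with h3 | h3
      · exact absurd (h3 y) hy
      · exact h3 _ (incl_self j x)
    · rw [eq_inj_of_oth j z hz]
      by_contra hne
      exact hi ⟨_, hne⟩
    · omega

end M

/-- a summand in which the metabolizer is self-orthogonal splits off -/
theorem meta_split {n : ℕ} {V E : Fin (n + 1) → Type} [∀ i, Fintype (V i)]
    [∀ i, DecidableEq (V i)] [∀ i, Fintype (E i)] [∀ i, DecidableEq (E i)]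
    {G : ∀ i, Multigraph (V i) (E i)}
    {κ κ' : Type} [Fintype κ] [DecidableEq κ] [Fintype κ'] [DecidableEq κ']
    {f : Sm (fun j => (G j).cuts) →ₗ[ℤ] (κ → ℤ)} {g : Sm (fun j => (G j).flows) →ₗ[ℤ] (κ' → ℤ)}
    (h : Emb (Sm fun j => (G j).cuts) (Sm fun j => (G j).flows) f g) {j : Fin (n + 1)}
    (hM : Full (G j).cuts (G j).flows (Mt f j)) :
    LatticeSlice (G j) ∧ LatticeSlice (sum fun i : Fin n => G (j.succAbove i)) := by
  have hdo := dual_graph (sum fun i : Fin n => G (j.succAbove i))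
  rw [cuts_sum, flows_sum] at hdo
  obtain ⟨⟨A, _, B, _, f₁, g₁, h1⟩, ⟨A', _, B', _, f₂, g₂, h2⟩⟩ :=
    meta_emb h hM (dual_graph (G j)) hdo (G j).finrank_add
  exact ⟨slice_of_emb h1, slice_of_emb' cuts_sum flows_sum h2⟩

theorem simple_cases {n : ℕ} {V E : Fin n → Type} [∀ i, Fintype (V i)]
    [∀ i, DecidableEq (V i)] [∀ i, Fintype (E i)] [∀ i, DecidableEq (E i)]
    {G : ∀ i, Multigraph (V i) (E i)}
    {κ κ' : Type} [Fintype κ] [DecidableEq κ] [Fintype κ'] [DecidableEq κ']
    {f : Sm (fun j => (G j).cuts) →ₗ[ℤ] (κ → ℤ)} {g : Sm (fun j => (G j).flows) →ₗ[ℤ] (κ' → ℤ)}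
    (hE : Emb (Sm fun j => (G j).cuts) (Sm fun j => (G j).flows) f g)
    (hO : ∀ j, Odd (det (G j))) {j : Fin n} (hS : Simple (G j)) :
    Triv (fun j => (G j).cuts) (fun j => (G j).flows) f {j} ∨
      Full (G j).cuts (G j).flows (Mt f j) :=
  mt_cases hE (fun j => dual_graph (G j)) (fun j => oddDet_of_odd (hO j))
    (fun j => cub_graph (G j)) hS

/-- the forward direction -/
theorem forward_simple (n : ℕ) : ∀ {V E : Fin n → Type} [∀ i, Fintype (V i)]
    [∀ i, DecidableEq (V i)] [∀ i, Fintype (E i)] [∀ i, DecidableEq (E i)]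
    {G : ∀ i, Multigraph (V i) (E i)}, (∀ i, Prime (G i)) → (∀ i, Odd (det (G i))) →
    (∀ i, Simple (G i)) → LatticeSlice (sum G) →
    ∃ σ : Fin n → Fin n, ∀ i, σ (σ i) = i ∧ (σ i = i → LatticeSlice (G i)) ∧
      (σ i ≠ i → Mirror (G i) (G (σ i))) := by
  induction n with
  | zero =>
    intro V E _ _ _ _ G _ _ _ _
    exact ⟨id, fun i => i.elim0⟩
  | succ n ih =>
    intro V E _ _ _ _ G hP hO hS hL
    obtain ⟨f, g, hE⟩ := emb_of_slice hL
    by_cases hall : ∀ j, Triv (fun j => (G j).cuts) (fun j => (G j).flows) f {j}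
    · obtain ⟨σ, hσ⟩ := forward_of_triv hP hO hE hall
      exact ⟨σ, fun i => ⟨(hσ i).1, fun h => absurd h (hσ i).2.1, fun _ => (hσ i).2.2⟩⟩
    · push Not at hall
      obtain ⟨j, hj⟩ := hall
      have hM := (simple_cases hE hO (hS j)).resolve_left hj
      obtain ⟨h1, h2⟩ := meta_split hE hM
      obtain ⟨σ, hσ⟩ := ih (fun i => hP (j.succAbove i)) (fun i => hO (j.succAbove i))
        (fun i => hS (j.succAbove i)) h2
      refine ⟨Fin.insertNth (α := fun _ => Fin (n + 1)) j j fun k => j.succAbove (σ k),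
        fun i => ?_⟩
      rcases Fin.eq_self_or_eq_succAbove j i with rfl | ⟨k, rfl⟩
      · rw [Fin.insertNth_apply_same, Fin.insertNth_apply_same]
        exact ⟨rfl, fun _ => h1, fun h => absurd rfl h⟩
      · rw [Fin.insertNth_apply_succAbove, Fin.insertNth_apply_succAbove, (hσ k).1]
        exact ⟨rfl, fun h => (hσ k).2.1 (Fin.succAbove_right_injective h),
          fun h => (hσ k).2.2 fun h' => h (by rw [h'])⟩

end Pool.Agent.H758.SQ
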