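import Pool.Agent.H758.SQ.Sub

/-!
# A summand in which the metabolizer is self-orthogonal splits off
-/

set_option autoImplicit false
set_option linter.unusedSectionVars false

namespace Pool.Agent.H758.SQ

open Finset Matrix
open Pool.Agent.H762.TG (Multigraph dot_self dot_self_nonneg eq_zero_of_dot)
open Pool.Agent.H758.SR (rank IsIsometry Extends)

section S

variable {n : ℕ} {E : Fin n → Type} [∀ j, Fintype (E j)] [∀ j, DecidableEq (E j)]
  {κ κ' : Type} [Fintype κ] [DecidableEq κ] [Fintype κ'] [DecidableEq κ']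
  {C F : ∀ j, Submodule ℤ (E j → ℤ)} {f : Sm C →ₗ[ℤ] (κ → ℤ)} {g : Sm F →ₗ[ℤ] (κ' → ℤ)}

/-- the subgroup `H` contains all vectors which are orthogonal to it -/
def Full {E : Type} [Fintype E] (C F H : Submodule ℤ (E → ℤ)) : Prop := ∀ y, Orth C F H y → y ∈ H

theorem orth_symm {E : Type} [Fintype E] {C F H : Submodule ℤ (E → ℤ)} {y : E → ℤ}
    (h : Orth F C H y) : Orth C F H y := by
  intro z hz N c hc hf
  have h1 := h z hz N _ hf (by rw [sub_sub_cancel]; exact hc)
  rw [dotProduct_sub, dotProduct_smul, smul_eq_mul] at h1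
  have h2 := dvd_sub (dvd_mul_right N (y ⬝ᵥ z)) h1
  rwa [sub_sub_cancel] at h2

theorem mt_symm (h : Emb (Sm C) (Sm F) f g) (j : Fin n) : Mt (C := F) g j = Mt f j := by
  ext z
  exact (h.comp (ex j z)).symm

theorem full_symm (h : Emb (Sm C) (Sm F) f g) {j : Fin n} (hM : Full (C j) (F j) (Mt f j)) :
    Full (F j) (C j) (Mt (C := F) g j) := by
  rw [mt_symm h]
  exact fun y hy => hM y (orth_symm hy)

/-- restrictions of extendable vectors are orthogonal to the metabolizer -/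
theorem orth_of_ext (h : Emb (Sm C) (Sm F) f g) (j : Fin n) {z : (Σ j, E j) → ℤ} (hz : Ext f z) :
    Orth (C j) (F j) (Mt f j) fun e => z ⟨j, e⟩ := by
  intro v ⟨w, hw⟩ N c hc hf
  obtain ⟨u, hu⟩ := hz
  have h1 : N • w = f (inj C j ⟨c, hc⟩) := by
    apply h.smul_eq hw (ex_mem hf)
    rw [inj_apply, ← map_add, ← map_smul]
    congr 1
    abel
  have h2 := hu (inj C j ⟨c, hc⟩)
  rw [← h1, inj_apply, ex_dot, smul_dotProduct, smul_eq_mul] at h2
  exact ⟨w ⬝ᵥ u, by rw [h2, dotProduct_comm]⟩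

/-- each coordinate is used by the `j`-th summand or by the other ones, but not by both -/
theorem meta_coord (h : Emb (Sm C) (Sm F) f g) {j : Fin n} (hM : Full (C j) (F j) (Mt f j))
    (i : κ) : (∀ x : C j, f (inj C j x) i = 0) ∨
      ∀ z : Sm C, (∀ e, (z : (Σ j, E j) → ℤ) ⟨j, e⟩ = 0) → f z i = 0 := by
  obtain ⟨z, hz⟩ := h.dual.repC
    { toFun := fun x => f x ⬝ᵥ (Pi.single i (1 : ℤ))
      map_add' := fun a b => by rw [map_add, add_dotProduct]
      map_smul' := fun c a => by rw [map_smul, smul_dotProduct]; rfl }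
  have hz1 : ∀ x : Sm C, f x ⬝ᵥ (Pi.single i (1 : ℤ)) = (x : (Σ j, E j) → ℤ) ⬝ᵥ z := hz
  obtain ⟨w, hw⟩ := hM _ (orth_of_ext h j ⟨_, hz1⟩)
  -- the vector `w` is in the span of the image of the `j`-th summand
  obtain ⟨k, hk, hkm⟩ := split_one h j fun e => z ⟨j, e⟩
  obtain ⟨a, ha, b, hb, hab⟩ := Submodule.mem_sup.1 hkm
  have h1 : k • w = f (inj C j ⟨a, ha⟩) := by
    apply h.smul_eq hw (ex_mem hb)
    rw [inj_apply, ← map_add, ← map_smul, hab]
  have h2 : ∀ x : C j, f (inj C j x) ⬝ᵥ (Pi.single i 1 - w) = 0 := by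
    intro x
    rw [dotProduct_sub, hz1, hw, inj_apply, ex_dot, ex_dot]
    have h3 : (fun e => (ex j fun e => z ⟨j, e⟩) ⟨j, e⟩) = fun e => z ⟨j, e⟩ :=
      funext fun e => ex_same j _ e
    rw [h3, sub_self]
  have h3 : w ⬝ᵥ (Pi.single i 1 - w) = 0 := by
    have h4 := h2 ⟨a, ha⟩
    rw [← h1, smul_dotProduct, smul_eq_mul] at h4
    exact (mul_eq_zero.1 h4).resolve_left hk.ne'
  have h4 : w ⬝ᵥ w + (Pi.single i 1 - w) ⬝ᵥ (Pi.single i 1 - w) = 1 := by
    set u : κ → ℤ := Pi.single i 1 - w with hu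
    have h6 : (Pi.single i (1 : ℤ) : κ → ℤ) = w + u := by rw [hu]; abel
    have h5 : (Pi.single i (1 : ℤ) : κ → ℤ) ⬝ᵥ Pi.single i 1 = 1 := by simp
    rw [h6, add_dotProduct, dotProduct_add, dotProduct_add, h3, dotProduct_comm u w, h3] at h5
    linarith
  have h5 := dot_self_nonneg w
  have h6 := dot_self_nonneg (Pi.single i 1 - w)
  rcases (by omega : w ⬝ᵥ w = 0 ∨ (Pi.single i 1 - w) ⬝ᵥ (Pi.single i 1 - w) = 0) with h7 | h7
  · left
    intro x
    have h8 := eq_zero_of_dot h7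
    have h9 := h2 x
    rwa [h8, sub_zero, dotProduct_single, mul_one] at h9
  · right
    intro x hx
    have h8 := sub_eq_zero.1 (eq_zero_of_dot h7)
    have h9 := hw x
    rw [← h8, dotProduct_single, mul_one, dotProduct_comm, ex_dot] at h9
    have h10 : (fun e => (x : (Σ j, E j) → ℤ) ⟨j, e⟩) = 0 := funext hx
    rw [h9, h10, dotProduct_zero]

end S


section R

variable {n : ℕ} {E : Fin (n + 1) → Type} [∀ j, Fintype (E j)] [∀ j, DecidableEq (E j)]
  {κ κ' : Type} [Fintype κ] [DecidableEq κ] [Fintype κ'] [DecidableEq κ']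
  {C F : ∀ j, Submodule ℤ (E j → ℤ)} {f : Sm C →ₗ[ℤ] (κ → ℤ)} {g : Sm F →ₗ[ℤ] (κ' → ℤ)}

/-- the crossings of the other summands -/
def oth (j : Fin (n + 1)) (p : Σ i : Fin n, E (j.succAbove i)) : Σ i, E i :=
  ⟨j.succAbove p.1, p.2⟩

theorem oth_inj (j : Fin (n + 1)) : Function.Injective (oth (E := E) j) := by
  rintro ⟨i, a⟩ ⟨k, b⟩ h
  have h1 : i = k := Fin.succAbove_right_injective (congrArg Sigma.fst h)
  subst h1
  exact congrArg (Sigma.mk i) (sigma_mk_injective h)

/-- the inclusion of the sum of the other summands -/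
noncomputable def incl (C : ∀ j, Submodule ℤ (E j → ℤ)) (j : Fin (n + 1)) :
    Sm (fun i : Fin n => C (j.succAbove i)) →ₗ[ℤ] Sm C where
  toFun x := ⟨fun p => Fin.insertNth (α := fun i => E i → ℤ) j 0
    (fun i e => (x : (Σ i : Fin n, E (j.succAbove i)) → ℤ) ⟨i, e⟩) p.1 p.2, fun i => by
      rcases Fin.eq_self_or_eq_succAbove j i with rfl | ⟨k, rfl⟩
      · simp only [Fin.insertNth_apply_same]
        exact (C i).zero_mem
      · simp only [Fin.insertNth_apply_succAbove]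
        exact x.2 k⟩
  map_add' x y := by
    apply Subtype.ext
    funext ⟨i, e⟩
    rcases Fin.eq_self_or_eq_succAbove j i with rfl | ⟨k, rfl⟩
    · simp [Fin.insertNth_apply_same]
    · simp [Fin.insertNth_apply_succAbove]
  map_smul' c x := by
    apply Subtype.ext
    funext ⟨i, e⟩
    rcases Fin.eq_self_or_eq_succAbove j i with rfl | ⟨k, rfl⟩
    · simp [Fin.insertNth_apply_same]
    · simp [Fin.insertNth_apply_succAbove]

theorem incl_apply (j : Fin (n + 1)) (x : Sm (fun i : Fin n => C (j.succAbove i)))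
    (p : Σ j, E j) : (incl C j x : (Σ j, E j) → ℤ) p =
      Fin.insertNth (α := fun i => E i → ℤ) j 0
        (fun i e => (x : (Σ i : Fin n, E (j.succAbove i)) → ℤ) ⟨i, e⟩) p.1 p.2 := rfl

theorem incl_self (j : Fin (n + 1)) (x : Sm (fun i : Fin n => C (j.succAbove i))) (e : E j) :
    (incl C j x : (Σ j, E j) → ℤ) ⟨j, e⟩ = 0 := by
  rw [incl_apply]
  simp only [Fin.insertNth_apply_same]
  rfl

theorem incl_oth (j : Fin (n + 1)) (x : Sm (fun i : Fin n => C (j.succAbove i)))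
    (p : Σ i : Fin n, E (j.succAbove i)) :
    (incl C j x : (Σ j, E j) → ℤ) (oth j p) = (x : (Σ i : Fin n, E (j.succAbove i)) → ℤ) p := by
  rw [incl_apply]
  simp only [oth, Fin.insertNth_apply_succAbove]

theorem incl_dot (j : Fin (n + 1)) (x : Sm (fun i : Fin n => C (j.succAbove i)))
    (z : (Σ j, E j) → ℤ) : (incl C j x : (Σ j, E j) → ℤ) ⬝ᵥ z =
      (x : (Σ i : Fin n, E (j.succAbove i)) → ℤ) ⬝ᵥ (z ∘ oth j) := by
  rw [dot_sum, Fin.sum_univ_succAbove _ j, dot_sum]
  have h1 : (fun e => (incl C j x : (Σ j, E j) → ℤ) ⟨j, e⟩) = 0 := funext fun e => incl_self j x e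
  rw [h1, zero_dotProduct, zero_add]
  apply sum_congr rfl
  intro i _
  congr 1
  funext e
  exact incl_oth j x ⟨i, e⟩

/-- a vector which vanishes on the other summands -/
theorem eq_inj_of_oth (j : Fin (n + 1)) (z : Sm C)
    (hz : (z : (Σ j, E j) → ℤ) ∘ oth j = 0) :
    z = inj C j ⟨fun e => (z : (Σ j, E j) → ℤ) ⟨j, e⟩, z.2 j⟩ := by
  apply Subtype.ext
  funext ⟨i, e⟩
  rcases Fin.eq_self_or_eq_succAbove j i with rfl | ⟨k, rfl⟩
  · rw [inj_apply, ex_same]
  · rw [inj_apply, ex_ne _ _ (Fin.succAbove_ne j k)]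
    exact congrFun hz ⟨k, e⟩

/-- the rank is subadditive -/
theorem rank_le (C : ∀ j, Submodule ℤ (E j → ℤ)) (j : Fin (n + 1)) :
    Module.finrank ℤ (Sm C) ≤ Module.finrank ℤ (C j) +
      Module.finrank ℤ (Sm (fun i : Fin n => C (j.succAbove i))) := by
  rw [← Module.finrank_prod]
  let m : Sm C →ₗ[ℤ] (C j × Sm (fun i : Fin n => C (j.succAbove i))) :=
    { toFun := fun x => (⟨fun e => (x : (Σ j, E j) → ℤ) ⟨j, e⟩, x.2 j⟩,
        ⟨fun p => (x : (Σ j, E j) → ℤ) (oth j p), fun i => x.2 (j.succAbove i)⟩)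
      map_add' := fun _ _ => rfl
      map_smul' := fun _ _ => rfl }
  apply LinearMap.finrank_le_finrank_of_injective (f := m)
  intro x y hxy
  have h1 := congrArg Subtype.val (congrArg Prod.fst hxy)
  have h2 := congrArg Subtype.val (congrArg Prod.snd hxy)
  apply Subtype.ext
  funext ⟨i, e⟩
  rcases Fin.eq_self_or_eq_succAbove j i with rfl | ⟨k, rfl⟩
  · exact congrFun h1 e
  · exact congrFun h2 ⟨k, e⟩

/-- the ranks of the summands if the `j`-th one splits off -/
theorem meta_rank (h : Emb (Sm C) (Sm F) f g) {j : Fin (n + 1)}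
    (hM : Full (C j) (F j) (Mt f j)) (A : κ → Prop) [DecidablePred A]
    (hA : ∀ i, A i ↔ ∃ x : C j, f (inj C j x) i ≠ 0) :
    Module.finrank ℤ (C j) = Fintype.card {i // A i} ∧
      Module.finrank ℤ (Sm (fun i : Fin n => C (j.succAbove i))) = Fintype.card {i // ¬ A i} := by
  have h1 := sub_rank h (e := Sigma.mk j) (inj C j) (fun x z => by
    rw [inj_dot]; rfl) (fun x => funext fun e => ex_same j _ e) A fun x i hi => by
      by_contra hne
      exact hi ((hA i).2 ⟨x, hne⟩)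
  have h2 := sub_rank h (e := oth j) (incl C j) (incl_dot j)
    (fun x => funext fun p => incl_oth j x p) (fun i => ¬ A i) fun x i hi => by
      rw [not_not] at hi
      obtain ⟨y, hy⟩ := (hA i).1 hi
      rcases meta_coord h hM i with h3 | h3
      · exact absurd (h3 y) hy
      · exact h3 _ (incl_self j x)
  have h3 := rank_le C j
  rw [h.rkC] at h3
  have h4 := Fintype.card_subtype_compl A
  have h5 := Fintype.card_subtype_le A
  omega

end R

end Pool.Agent.H758.SQ
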