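import Pool.Agent.H758.SQ.Main4

/-!
# Splitting off a summand
-/

set_option autoImplicit false
set_option linter.unusedSectionVars false

namespace Pool.Agent.H758.SQ

open Finset Matrix
open Pool.Agent.H762.TG (Multigraph dot_self dot_self_nonneg eq_zero_of_dot)
open Pool.Agent.H758.SR (rank IsIsometry Extends)

section L

variable {E₁ E κ κ' : Type} [Fintype E₁] [DecidableEq E₁] [Fintype E] [DecidableEq E] [Fintype κ]
  [DecidableEq κ] [Fintype κ'] [DecidableEq κ'] {C F : Submodule ℤ (E → ℤ)}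
  {C₁ F₁ : Submodule ℤ (E₁ → ℤ)} {f : C →ₗ[ℤ] (κ → ℤ)} {g : F →ₗ[ℤ] (κ' → ℤ)}

/-- restriction of the coordinates -/
def rst (A : κ → Prop) : (κ → ℤ) →ₗ[ℤ] ({i // A i} → ℤ) where
  toFun v i := v i
  map_add' _ _ := rfl
  map_smul' _ _ := rfl

theorem rst_dot (A : κ → Prop) [DecidablePred A] {v : κ → ℤ} (hv : ∀ i, ¬ A i → v i = 0)
    (w : κ → ℤ) : rst A v ⬝ᵥ rst A w = v ⬝ᵥ w := by
  have h1 : rst A v ⬝ᵥ rst A w = ∑ i ∈ univ.filter A, v i * w i :=
    (Finset.sum_subtype _ (by simp) fun i => v i * w i).symm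
  rw [h1, sum_filter, dotProduct]
  apply sum_congr rfl
  intro i _
  by_cases hi : A i
  · rw [if_pos hi]
  · rw [if_neg hi, hv i hi, zero_mul]

/-- extension by zero of a vector on the coordinates in `A` -/
noncomputable def xtd (A : κ → Prop) (w : {i // A i} → ℤ) : κ → ℤ := by
  classical exact fun i => if h : A i then w ⟨i, h⟩ else 0

theorem rst_xtd (A : κ → Prop) (w : {i // A i} → ℤ) : rst A (xtd A w) = w := by
  funext ⟨i, hi⟩
  change xtd A w i = _
  unfold xtd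
  rw [dif_pos hi]

theorem xtd_off (A : κ → Prop) (w : {i // A i} → ℤ) {i : κ} (hi : ¬ A i) : xtd A w i = 0 := by
  unfold xtd
  rw [dif_neg hi]

/-- one half of the gluing condition for a summand -/
theorem sub_ext {e : E₁ → E} (he : Function.Injective e) (eC : C₁ →ₗ[ℤ] C)
    (hC : ∀ (x : C₁) (z : E → ℤ), (eC x : E → ℤ) ⬝ᵥ z = (x : E₁ → ℤ) ⬝ᵥ (z ∘ e))
    (rC : ∀ z : C, (z : E → ℤ) ∘ e ∈ C₁) (A : κ → Prop) [DecidablePred A]
    (hA : ∀ x i, ¬ A i → f (eC x) i = 0)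
    (hA2 : ∀ z : C, (z : E → ℤ) ∘ e = 0 → ∀ i, A i → f z i = 0) (z₁ : E₁ → ℤ) :
    (∃ w, ∀ x : C₁, ((rst A).comp (f.comp eC)) x ⬝ᵥ w = (x : E₁ → ℤ) ⬝ᵥ z₁) ↔
      ∃ w, ∀ x : C, f x ⬝ᵥ w = (x : E → ℤ) ⬝ᵥ Function.extend e z₁ 0 := by
  have hZ : (Function.extend e z₁ 0) ∘ e = z₁ := funext fun a => he.extend_apply z₁ 0 a
  constructor
  · rintro ⟨w, hw⟩
    refine ⟨xtd A w, fun z => ?_⟩
    set z' : C₁ := ⟨(z : E → ℤ) ∘ e, rC z⟩ with hz'
    have hres : ∀ x : C₁, (eC x : E → ℤ) ∘ e = x := by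
      intro x
      funext a
      have h1 := hC x (Pi.single (e a) 1)
      rw [dotProduct_single, mul_one] at h1
      have h2 : (Pi.single (e a) (1 : ℤ) : E → ℤ) ∘ e = Pi.single a 1 := by
        funext b
        by_cases hb : b = a
        · subst hb; simp
        · rw [Function.comp_apply, Pi.single_eq_of_ne (fun h => hb (he h)),
            Pi.single_eq_of_ne hb]
      rw [h2, dotProduct_single, mul_one] at h1
      exact h1
    have h1 : f z ⬝ᵥ xtd A w = f (eC z') ⬝ᵥ xtd A w := by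
      rw [← sub_eq_zero, ← sub_dotProduct, ← map_sub, dotProduct]
      apply sum_eq_zero
      intro i _
      by_cases hi : A i
      · rw [hA2 (z - eC z') (by
          have h2 := hres z'
          funext a
          have h3 := congrFun h2 a
          change (z : E → ℤ) (e a) - (eC z' : E → ℤ) (e a) = 0
          change (eC z' : E → ℤ) (e a) = (z : E → ℤ) (e a) at h3
          rw [h3, sub_self]) i hi, zero_mul]
      · rw [xtd_off A w hi, mul_zero]
    have h2 : f (eC z') ⬝ᵥ xtd A w = (z' : E₁ → ℤ) ⬝ᵥ z₁ := by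
      rw [← hw z', ← rst_dot A (hA z'), rst_xtd]
      rfl
    rw [h1, h2]
    have h3 : (z : E → ℤ) ⬝ᵥ Function.extend e z₁ 0 = ((z : E → ℤ) ∘ e) ⬝ᵥ z₁ := by
      rw [dotProduct, dotProduct]
      have h4 : ∑ a, ((z : E → ℤ) ∘ e) a * z₁ a =
          ∑ i ∈ univ.image e, (z : E → ℤ) i * Function.extend e z₁ 0 i := by
        rw [sum_image fun _ _ _ _ h => he h]
        apply sum_congr rfl
        intro a _
        rw [he.extend_apply]; rfl
      rw [h4]
      symm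
      apply sum_subset (subset_univ _)
      intro i _ hi
      rw [Function.extend_apply' _ _ _ fun ⟨a, ha⟩ => hi (mem_image.2 ⟨a, mem_univ _, ha⟩)]
      simp
    rw [h3]
  · rintro ⟨w, hw⟩
    refine ⟨rst A w, fun x => ?_⟩
    change rst A (f (eC x)) ⬝ᵥ rst A w = _
    rw [rst_dot A (hA x), hw, hC, hZ]

/-- the embedding of a summand -/
theorem sub_emb (h : Emb C F f g) {e : E₁ → E} (he : Function.Injective e) (hd : Dual C₁ F₁)
    (eC : C₁ →ₗ[ℤ] C)
    (hC : ∀ (x : C₁) (z : E → ℤ), (eC x : E → ℤ) ⬝ᵥ z = (x : E₁ → ℤ) ⬝ᵥ (z ∘ e))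
    (rC : ∀ z : C, (z : E → ℤ) ∘ e ∈ C₁)
    (eF : F₁ →ₗ[ℤ] F)
    (hF : ∀ (x : F₁) (z : E → ℤ), (eF x : E → ℤ) ⬝ᵥ z = (x : E₁ → ℤ) ⬝ᵥ (z ∘ e))
    (rF : ∀ z : F, (z : E → ℤ) ∘ e ∈ F₁)
    (A : κ → Prop) [DecidablePred A] (hA : ∀ x i, ¬ A i → f (eC x) i = 0)
    (hA2 : ∀ z : C, (z : E → ℤ) ∘ e = 0 → ∀ i, A i → f z i = 0)
    (B : κ' → Prop) [DecidablePred B] (hB : ∀ x i, ¬ B i → g (eF x) i = 0)
    (hB2 : ∀ z : F, (z : E → ℤ) ∘ e = 0 → ∀ i, B i → g z i = 0)
    (r1 : Module.finrank ℤ C₁ = Fintype.card {i // A i})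
    (r2 : Module.finrank ℤ F₁ = Fintype.card {i // B i})
    (r3 : Fintype.card {i // A i} + Fintype.card {i // B i} = Fintype.card E₁) :
    Emb C₁ F₁ ((rst A).comp (f.comp eC)) ((rst B).comp (g.comp eF)) where
  dual := hd
  isoC := by
    intro x y
    change rst A (f (eC x)) ⬝ᵥ rst A (f (eC y)) = _
    rw [rst_dot A (hA x), h.isoC, hC]
    congr 1
    funext a
    have h1 := hC y (Pi.single (e a) 1)
    rw [dotProduct_single, mul_one] at h1
    have h2 : (Pi.single (e a) (1 : ℤ) : E → ℤ) ∘ e = Pi.single a 1 := by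
      funext b
      by_cases hb : b = a
      · subst hb; simp
      · rw [Function.comp_apply, Pi.single_eq_of_ne (fun h => hb (he h)),
          Pi.single_eq_of_ne hb]
    rw [h2, dotProduct_single, mul_one] at h1
    exact h1
  isoF := by
    intro x y
    change rst B (g (eF x)) ⬝ᵥ rst B (g (eF y)) = _
    rw [rst_dot B (hB x), h.isoF, hF]
    congr 1
    funext a
    have h1 := hF y (Pi.single (e a) 1)
    rw [dotProduct_single, mul_one] at h1
    have h2 : (Pi.single (e a) (1 : ℤ) : E → ℤ) ∘ e = Pi.single a 1 := by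
      funext b
      by_cases hb : b = a
      · subst hb; simp
      · rw [Function.comp_apply, Pi.single_eq_of_ne (fun h => hb (he h)),
          Pi.single_eq_of_ne hb]
    rw [h2, dotProduct_single, mul_one] at h1
    exact h1
  rkC := r1
  rkF := r2
  rk := r3
  comp := by
    intro z
    rw [sub_ext he eC hC rC A hA hA2 z, sub_ext he eF hF rF B hB hB2 z]
    exact h.comp _

/-- the rank of a summand is at most the number of its coordinates -/
theorem sub_rank (h : Emb C F f g) {e : E₁ → E} (eC : C₁ →ₗ[ℤ] C)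
    (hC : ∀ (x : C₁) (z : E → ℤ), (eC x : E → ℤ) ⬝ᵥ z = (x : E₁ → ℤ) ⬝ᵥ (z ∘ e))
    (hres : ∀ x : C₁, (eC x : E → ℤ) ∘ e = x)
    (A : κ → Prop) [DecidablePred A] (hA : ∀ x i, ¬ A i → f (eC x) i = 0) :
    Module.finrank ℤ C₁ ≤ Fintype.card {i // A i} := by
  rw [← Module.finrank_fintype_fun_eq_card ℤ (η := {i // A i})]
  apply LinearMap.finrank_le_finrank_of_injective (f := (rst A).comp (f.comp eC))
  rw [← LinearMap.ker_eq_bot, LinearMap.ker_eq_bot']
  intro x hx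
  change rst A (f (eC x)) = 0 at hx
  have h1 : rst A (f (eC x)) ⬝ᵥ rst A (f (eC x)) = 0 := by rw [hx, dotProduct_zero]
  rw [rst_dot A (hA x), h.isoC, hC, hres] at h1
  exact Subtype.ext (eq_zero_of_dot h1)

/-- a pair of embeddings gives the slice condition -/
theorem slice_of_emb {V E : Type} [Fintype V] [DecidableEq V] [Fintype E] [DecidableEq E]
    {G : Multigraph V E} {κ κ' : Type} [Fintype κ] [Fintype κ'] {f : G.cuts →ₗ[ℤ] (κ → ℤ)}
    {g : G.flows →ₗ[ℤ] (κ' → ℤ)} (h : Emb G.cuts G.flows f g) : LatticeSlice G := by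
  classical
  have e1 : κ ≃ Fin (rank G.cuts) := Fintype.equivFinOfCardEq h.rkC.symm
  have e2 : κ' ≃ Fin (rank G.flows) := Fintype.equivFinOfCardEq h.rkF.symm
  have gen : ∀ {κ : Type} [Fintype κ] {m : ℕ} {L : Submodule ℤ (E → ℤ)} (f : L →ₗ[ℤ] (κ → ℤ))
      (hf : ∀ x y : L, f x ⬝ᵥ f y = (x : E → ℤ) ⬝ᵥ (y : E → ℤ)) (e : κ ≃ Fin m),
      ∃ φ : (E → ℤ) → Fin m → ℤ, IsIsometry L φ ∧
        ∀ z, Extends L φ z ↔ ∃ w, ∀ x : L, f x ⬝ᵥ w = (x : E → ℤ) ⬝ᵥ z := by
    intro κ _ m L f hf e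
    have hdot : ∀ v w : κ → ℤ, (fun i => v (e.symm i)) ⬝ᵥ (fun i => w (e.symm i)) = v ⬝ᵥ w := by
      intro v w
      rw [dotProduct, dotProduct, ← e.sum_comp]
      simp
    refine ⟨fun x => if hx : x ∈ L then fun i => f ⟨x, hx⟩ (e.symm i) else 0, ?_, ?_⟩
    · intro x hx y hy
      beta_reduce
      rw [dif_pos hx, dif_pos hy, dif_pos (L.add_mem hx hy)]
      constructor
      · have h1 : f ⟨x + y, L.add_mem hx hy⟩ = f ⟨x, hx⟩ + f ⟨y, hy⟩ := by
          rw [← map_add]; rfl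
        rw [h1]; rfl
      · rw [hdot, hf]
    · intro z
      constructor
      · rintro ⟨a, ha⟩
        refine ⟨fun k => a (e k), fun x => ?_⟩
        have h1 := ha x x.2
        beta_reduce at h1
        rw [dif_pos x.2] at h1
        rw [← h1, ← hdot]
        simp
      · rintro ⟨w, hw⟩
        refine ⟨fun i => w (e.symm i), fun x hx => ?_⟩
        beta_reduce
        rw [dif_pos hx, hdot]
        exact hw ⟨x, hx⟩
  obtain ⟨φ, hφ, h1⟩ := gen f h.isoC e1
  obtain ⟨ψ, hψ, h2⟩ := gen g h.isoF e2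
  exact ⟨φ, ψ, hφ, hψ, fun z => by rw [h1, h2]; exact h.comp z⟩

end L

end Pool.Agent.H758.SQ
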