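import Pool.Agent.H758.SQ.S

/-!
# Every coordinate is used at least twice; the twisting map
-/

set_option autoImplicit false
set_option linter.unusedSectionVars false

namespace Pool.Agent.H758.SQ

open Finset Matrix
open Pool.Agent.H762.TG (Multigraph dot_self dot_self_nonneg eq_zero_of_dot)
open Pool.Agent.H762.TG.Multigraph

variable {n : ℕ} {E : Fin n → Type} [∀ j, Fintype (E j)] [∀ j, DecidableEq (E j)]
  {κ κ' : Type} [Fintype κ] [DecidableEq κ] [Fintype κ'] [DecidableEq κ']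
  {C F : ∀ j, Submodule ℤ (E j → ℤ)} {f : Sm C →ₗ[ℤ] (κ → ℤ)} {g : Sm F →ₗ[ℤ] (κ' → ℤ)}

/-- unit vectors are not in the lattice -/
theorem no_unit {E : Type} [Fintype E] [DecidableEq E] {C F : Submodule ℤ (E → ℤ)}
    (hd : Dual C F) (hb : ∀ e, ∃ y ∈ F, y e ≠ 0) {c : E → ℤ} (hc : c ∈ C) : c ⬝ᵥ c ≠ 1 := by
  intro h
  obtain ⟨e, he⟩ : ∃ e, c e ≠ 0 := by
    by_contra hcon
    push Not at hcon
    have h1 : c = 0 := funext hcon
    rw [h1, dotProduct_zero] at h
    exact absurd h (by norm_num)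
  obtain ⟨y, hy, hye⟩ := hb e
  have h1 := hd.orth c hc y hy
  have h2 : ∀ e', e' ≠ e → c e' = 0 := by
    intro e' he'
    by_contra h0
    have h3 : c e * c e + c e' * c e' ≤ c ⬝ᵥ c := by
      rw [dotProduct, ← sum_erase_add univ _ (mem_univ e),
        ← sum_erase_add (univ.erase e) _ (mem_erase.2 ⟨he', mem_univ e'⟩)]
      have h4 : 0 ≤ ∑ x ∈ (univ.erase e).erase e', c x * c x :=
        sum_nonneg fun x _ => mul_self_nonneg _
      linarith
    have h5 : 0 < c e * c e := mul_self_pos.2 he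
    have h6 : 0 < c e' * c e' := mul_self_pos.2 h0
    linarith
  rw [dotProduct, sum_eq_single_of_mem e (mem_univ e) fun e' _ h' => by rw [h2 e' h', zero_mul]]
    at h1
  rcases mul_eq_zero.1 h1 with h3 | h3
  · exact he h3
  · exact hye h3

theorem used_twice (h : Emb (Sm C) (Sm F) f g) (hd : ∀ j, Dual (C j) (F j))
    (ha : ∀ j, Aniso (C j) (F j)) (hb : ∀ j e, ∃ y ∈ F j, y e ≠ 0)
    {τ : ∀ j, E j → κ} {η : ∀ j, E j → ℤˣ} (hs : ∀ j, Std f j (τ j) (η j)) (i : κ) :
    2 ≤ (univ.filter fun p : Σ j, E j => τ p.1 p.2 = i).card := by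
  by_contra hcon
  -- all other coordinates vanish
  obtain ⟨k, hk, x, hx⟩ := h.mul (Pi.single i 1)
  have hki : f x i = k := by
    rw [← hx]; simp
  -- there is an edge with this coordinate
  obtain ⟨j, e, hje⟩ : ∃ j e, τ j e = i := by
    by_contra hno
    push Not at hno
    have h1 : f x i = 0 := by
      rw [f_eq_sum]
      exact sum_eq_zero fun j _ => (hs j).2.2 _ i fun e => hno j e
    rw [hki] at h1
    exact hk.ne' h1
  have honly : ∀ j' e', τ j' e' = i → (⟨j', e'⟩ : Σ j, E j) = ⟨j, e⟩ := by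
    intro j' e' h'
    by_contra hne
    apply hcon
    have h1 : ({⟨j', e'⟩, ⟨j, e⟩} : Finset (Σ j, E j)) ⊆
        univ.filter fun p : Σ j, E j => τ p.1 p.2 = i := by
      intro p hp
      rw [mem_insert, mem_singleton] at hp
      rcases hp with rfl | rfl
      · exact mem_filter.2 ⟨mem_univ _, h'⟩
      · exact mem_filter.2 ⟨mem_univ _, hje⟩
    have h2 := card_le_card h1
    rwa [card_pair hne] at h2
  -- the functional
  have hfun : ∀ x' : Sm C, f x' i = η j e * (x' : (Σ j, E j) → ℤ) ⟨j, e⟩ := by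
    intro x'
    rw [f_eq_sum, sum_eq_single_of_mem j (mem_univ j)]
    · rw [← hje, (hs j).2.1]
    · intro j' _ hj'
      apply (hs j').2.2
      intro e' he'
      exact hj' (congrArg Sigma.fst (honly j' e' he'))
  set z : E j → ℤ := (η j e : ℤ) • Pi.single e 1 with hz
  have hdot : ∀ x' : Sm C, (x' : (Σ j, E j) → ℤ) ⬝ᵥ ex j z = f x' i := by
    intro x'
    rw [hfun, dotProduct_comm, ex_dot, hz, smul_dotProduct, single_dotProduct, one_mul, smul_eq_mul]
  -- a multiple of the unit vector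
  obtain ⟨m, hm, a, haC, b, hbF, hab⟩ := h.split (ex j z)
  have hext : ∀ x' : Sm C, f x' ⬝ᵥ (Pi.single i (1 : ℤ)) = (x' : (Σ j, E j) → ℤ) ⬝ᵥ ex j z := by
    intro x'
    rw [hdot, dotProduct_single, mul_one]
  have hfa := h.smul_eq hext (x := ⟨a, haC⟩) hbF hab
  have ha0 : ∀ k, k ≠ j → ∀ e, a ⟨k, e⟩ = 0 := by
    intro k hkj
    have h1 : (fun e => a ⟨k, e⟩) + (fun e => b ⟨k, e⟩) = 0 := by
      funext e
      have h2 := congrFun hab ⟨k, e⟩
      rw [Pi.smul_apply, ex_ne _ _ hkj, smul_zero] at h2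
      exact h2.symm
    have h3 : (fun e => a ⟨k, e⟩) ∈ F k := by
      rw [eq_neg_of_add_eq_zero_left h1]
      exact (F k).neg_mem (hbF k)
    have h4 := eq_zero_of_dot ((hd k).orth _ (haC k) _ h3)
    exact fun e => congrFun h4 e
  have hnorm : (fun e => a ⟨j, e⟩) ⬝ᵥ (fun e => a ⟨j, e⟩) = m ^ 2 := by
    have h1 := h.isoC ⟨a, haC⟩ ⟨a, haC⟩
    rw [← hfa] at h1
    simp only [smul_dotProduct, dotProduct_smul, dotProduct_single, Pi.single_eq_same, mul_one,
      smul_eq_mul] at h1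
    have h2 : a ⬝ᵥ a = (fun e => a ⟨j, e⟩) ⬝ᵥ (fun e => a ⟨j, e⟩) := by
      rw [dot_sum, sum_eq_single_of_mem j (mem_univ j)]
      intro k _ hkj
      have h3 : (fun e => a ⟨k, e⟩) = 0 := funext fun e => ha0 k hkj e
      rw [h3, dotProduct_zero]
    rw [← h2, ← h1, Pi.smul_apply, Pi.single_eq_same, smul_eq_mul]; ring
  have hmem := ha j z (fun e => a ⟨j, e⟩) (haC j) (fun e => b ⟨j, e⟩) (hbF j) m hm.ne' (by
    funext e'
    have h2 := congrFun hab ⟨j, e'⟩
    rw [Pi.smul_apply, ex_same] at h2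
    exact h2) (by rw [hnorm])
  obtain ⟨c, hc, y, hy, hcy⟩ := Submodule.mem_sup.1 hmem
  have h5 : (1 : ℤ) • (Pi.single i (1 : ℤ) : κ → ℤ) = f (inj C j ⟨c, hc⟩) := by
    apply h.smul_eq hext (ex_mem (j := j) hy)
    rw [one_smul, inj_apply, ← map_add, ← hcy]
  have h6 := h.isoC (inj C j ⟨c, hc⟩) (inj C j ⟨c, hc⟩)
  rw [← h5, one_smul, inj_apply, ex_dot, dotProduct_single, Pi.single_eq_same, mul_one] at h6
  have h7 : (fun e => (ex j c) ⟨j, e⟩) = c := funext fun e => ex_same j c e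
  rw [h7] at h6
  exact no_unit (hd j) (hb j) hc h6.symm

theorem twist_iff (h : Emb (Sm C) (Sm F) f g) (hκ : Fintype.card κ = Fintype.card κ')
    {π : (Σ j, E j) → Σ j, E j} {η : (Σ j, E j) → ℤˣ} (hπ : ∀ p, π (π p) = p)
    (hη : ∀ p, η (π p) = η p)
    (hz : ∀ x ∈ Sm C, ∀ y ∈ Sm C, ∑ p, (η p : ℤ) * x (π p) * y p = 0) (x : (Σ j, E j) → ℤ) :
    x ∈ Sm C ↔ (fun p => (η p : ℤ) * x (π p)) ∈ Sm F := by
  have hfor : ∀ x ∈ Sm C, (fun p => (η p : ℤ) * x (π p)) ∈ Sm F := by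
    intro x hx
    apply h.dual.memF
    intro y hy
    rw [dotProduct_comm]
    exact hz x hx y hy
  refine ⟨hfor x, fun hx => ?_⟩
  let T : Sm C →ₗ[ℤ] Sm F :=
    { toFun := fun x => ⟨fun p => (η p : ℤ) * (x : (Σ j, E j) → ℤ) (π p), hfor _ x.2⟩
      map_add' := fun a b => by
        apply Subtype.ext
        funext p
        change (η p : ℤ) * ((a : (Σ j, E j) → ℤ) (π p) + (b : (Σ j, E j) → ℤ) (π p)) = _
        rw [mul_add]; rfl
      map_smul' := fun c a => by
        apply Subtype.ext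
        funext p
        change (η p : ℤ) * (c * (a : (Σ j, E j) → ℤ) (π p)) = c * ((η p : ℤ) * _)
        ring }
  have hT : ∀ (a : Sm C) p, (T a : (Σ j, E j) → ℤ) p = (η p : ℤ) * (a : (Σ j, E j) → ℤ) (π p) :=
    fun a p => rfl
  have hsq : ∀ p, (η p : ℤ) * (η p : ℤ) = 1 := fun p => by
    rw [← Units.val_mul, Int.units_mul_self]; rfl
  have hTi : Function.Injective T := by
    intro a b hab
    apply Subtype.ext
    funext p
    have h1 := congrFun (congrArg Subtype.val hab) (π p)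
    change (η (π p) : ℤ) * (a : (Σ j, E j) → ℤ) (π (π p)) = (η (π p) : ℤ) * (b : (Σ j, E j) → ℤ) (π (π p)) at h1
    rw [hπ] at h1
    have h2 : (η (π p) : ℤ) ≠ 0 := (η (π p)).ne_zero
    exact mul_left_cancel₀ h2 h1
  -- the composition with `g` has full rank
  have hgi : Function.Injective (g.comp T) := h.symm.inj.comp hTi
  obtain ⟨k, hk, a, hak⟩ := mul_of_rank (g.comp T) hgi (by rw [h.rkC, hκ])
    (g ⟨fun p => (η p : ℤ) * x (π p), hx⟩)
  have h1 : k • (⟨fun p => (η p : ℤ) * x (π p), hx⟩ : Sm F) = T a := by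
    apply h.symm.inj
    rw [map_smul]; exact hak
  have h2 : k • x = (a : (Σ j, E j) → ℤ) := by
    funext p
    have h3 := congrFun (congrArg Subtype.val h1) (π p)
    change k * ((η (π p) : ℤ) * x (π (π p))) = (η (π p) : ℤ) * (a : (Σ j, E j) → ℤ) (π (π p)) at h3
    rw [hπ] at h3
    have h4 : (η (π p) : ℤ) ≠ 0 := (η (π p)).ne_zero
    apply mul_left_cancel₀ h4
    rw [← h3, Pi.smul_apply, smul_eq_mul]; ring
  apply h.dual.memC
  intro y hy
  have h5 := h.dual.orth _ a.2 y hy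
  rw [← h2, smul_dotProduct, smul_eq_mul] at h5
  rw [dotProduct_comm]
  exact (mul_eq_zero.1 h5).resolve_left hk.ne'

end Pool.Agent.H758.SQ
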