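import Pool.Agent.H758.SQ.S

/-!
# Surjectivity and sharpness for a set of summands
-/

set_option autoImplicit false
set_option linter.unusedSectionVars false

namespace Pool.Agent.H758.SQ

open Finset Matrix
open Pool.Agent.H762.TG (Multigraph dot_self dot_self_nonneg eq_zero_of_dot)
open Pool.Agent.H762.TG.Multigraph

variable {n : ℕ} {E : Fin n → Type} [∀ j, Fintype (E j)] [∀ j, DecidableEq (E j)]
  {κ κ' : Type} [Fintype κ] [DecidableEq κ] [Fintype κ'] [DecidableEq κ']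
  {C F : ∀ j, Submodule ℤ (E j → ℤ)} {f : Sm C →ₗ[ℤ] (κ → ℤ)} {g : Sm F →ₗ[ℤ] (κ' → ℤ)}

/-- restriction to the summands with index in `X` -/
def res (X : Finset (Fin n)) (z : (Σ j, E j) → ℤ) : (Σ j, E j) → ℤ :=
  fun p => if p.1 ∈ X then z p else 0

theorem res_mem {C : ∀ j, Submodule ℤ (E j → ℤ)} (X : Finset (Fin n)) {z : (Σ j, E j) → ℤ}
    (hz : z ∈ Sm C) : res X z ∈ Sm C := by
  intro j
  by_cases h : j ∈ X
  · simpa only [res, h, if_true] using hz j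
  · simp only [res, h, if_false]
    exact (C j).zero_mem

theorem res_dot (X : Finset (Fin n)) (x z : (Σ j, E j) → ℤ) : x ⬝ᵥ res X z = res X x ⬝ᵥ z := by
  rw [dotProduct, dotProduct]
  apply sum_congr rfl
  intro p _
  unfold res
  split_ifs <;> ring

theorem res_res (X : Finset (Fin n)) (z : (Σ j, E j) → ℤ) : res X (res X z) = res X z := by
  funext p
  unfold res
  split_ifs <;> rfl

theorem res_off {X : Finset (Fin n)} {z : (Σ j, E j) → ℤ} {p : Σ j, E j} (hp : p.1 ∉ X) :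
    res X z p = 0 := if_neg hp

theorem res_on {X : Finset (Fin n)} {z : (Σ j, E j) → ℤ} {p : Σ j, E j} (hp : p.1 ∈ X) :
    res X z p = z p := if_pos hp

/-- the functional given by `z` extends -/
def Ext (f : Sm C →ₗ[ℤ] (κ → ℤ)) (z : (Σ j, E j) → ℤ) : Prop :=
  ∃ w, ∀ x : Sm C, f x ⬝ᵥ w = (x : (Σ j, E j) → ℤ) ⬝ᵥ z

/-- the extendable functions which are supported on `X` are trivial -/
def Triv (C F : ∀ j, Submodule ℤ (E j → ℤ)) (f : Sm C →ₗ[ℤ] (κ → ℤ)) (X : Finset (Fin n)) : Prop :=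
  ∀ z : (Σ j, E j) → ℤ, (∀ p, p.1 ∉ X → z p = 0) → Ext f z → z ∈ Sm C ⊔ Sm F

/-- the restrictions of the vectors which define extendable functionals -/
def prjX (f : Sm C →ₗ[ℤ] (κ → ℤ)) (X : Finset (Fin n)) : Submodule ℤ ((Σ j, E j) → ℤ) where
  carrier := {y | ∃ z : (Σ j, E j) → ℤ, (∀ p, p.1 ∈ X → z p = y p) ∧ Ext f z}
  add_mem' := by
    rintro y y' ⟨z, hz, w, hw⟩ ⟨z', hz', w', hw'⟩
    exact ⟨z + z', fun p hp => by rw [Pi.add_apply, Pi.add_apply, hz p hp, hz' p hp], w + w',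
      fun x => by rw [dotProduct_add, dotProduct_add, hw, hw']⟩
  zero_mem' := ⟨0, fun p _ => rfl, 0, fun x => by rw [dotProduct_zero, dotProduct_zero]⟩
  smul_mem' := by
    rintro c y ⟨z, hz, w, hw⟩
    exact ⟨c • z, fun p hp => by rw [Pi.smul_apply, Pi.smul_apply, hz p hp], c • w, fun x => by
      rw [dotProduct_smul, dotProduct_smul, hw]⟩

theorem surjX (h : Emb (Sm C) (Sm F) f g) (X : Finset (Fin n)) (hX : Triv C F f X)
    (y : (Σ j, E j) → ℤ) : ∃ z : (Σ j, E j) → ℤ, (∀ p, p.1 ∈ X → z p = y p) ∧ Ext f z := by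
  suffices hP : prjX f X = ⊤ by
    have h1 : y ∈ prjX f X := by rw [hP]; trivial
    exact h1
  by_contra hP
  obtain ⟨p, hp, r, hr, hrn⟩ := exists_char (prjX f X) hP
  have hp0 : (p : ℤ) ≠ 0 := by exact_mod_cast hp.ne_zero
  have hC : ∀ c ∈ Sm C, c ∈ prjX f X := by
    intro c hc
    refine ⟨c, fun e _ => rfl, f ⟨c, hc⟩, fun x => ?_⟩
    rw [h.isoC]
  have hF : ∀ y ∈ Sm F, y ∈ prjX f X := by
    intro y hy
    refine ⟨y, fun e _ => rfl, 0, fun x => ?_⟩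
    rw [dotProduct_zero, h.dual.orth _ x.2 _ hy]
  have hoff : ∀ q : Σ j, E j, q.1 ∉ X → (p : ℤ) ∣ r q := by
    intro q hq
    have h1 := hr (Pi.single q 1) ⟨0, fun q' hq' => by
      rw [Pi.single_eq_of_ne (show q' ≠ q from fun h' => hq (by rw [← h']; exact hq'))]; rfl, 0, fun x => by
        rw [dotProduct_zero, dotProduct_zero]⟩
    rwa [single_dotProduct, one_mul] at h1
  -- restriction of the functional
  obtain ⟨t, ht⟩ := exists_div (r := res X r) h.dual.repF hp0 fun y hy => by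
    rw [res_dot]; exact hr _ (hF _ (res_mem X hy))
  set c1 : (Σ j, E j) → ℤ := res X (r - (p : ℤ) • t) with hc1
  have hres : ∀ y : (Σ j, E j) → ℤ, y ⬝ᵥ c1 = y ⬝ᵥ res X r - (p : ℤ) * (res X y ⬝ᵥ t) := by
    intro y
    rw [hc1, res_dot, dotProduct_sub, dotProduct_smul, smul_eq_mul, ← res_dot]
  have hc1C : c1 ∈ Sm C := by
    apply h.dual.memC
    intro y hy
    rw [hres]
    have h1 := ht _ (res_mem X hy)
    rw [res_dot, res_res, ← res_dot] at h1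
    rw [h1, sub_self]
  have hc1p : ∀ y ∈ prjX f X, (p : ℤ) ∣ y ⬝ᵥ c1 := by
    intro y hy
    rw [hres, res_dot]
    refine dvd_sub (hr _ ?_) (dvd_mul_right _ _)
    obtain ⟨z, hz, hw⟩ := hy
    exact ⟨z, fun q hq => by rw [hz q hq, res_on hq], hw⟩
  obtain ⟨z', hz'⟩ := exists_div h.dual.repC hp0 fun x hx => hc1p x (hC x hx)
  set z : (Σ j, E j) → ℤ := res X z' with hzd
  have hc1X : res X c1 = c1 := by rw [hc1, res_res]
  have hz : ∀ x ∈ Sm C, x ⬝ᵥ c1 = (p : ℤ) * (x ⬝ᵥ z) := by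
    intro x hx
    have h1 := hz' _ (res_mem X hx)
    rw [← res_dot, hc1X, ← res_dot] at h1
    exact h1
  have hf1 : (p : ℤ) • z - c1 ∈ Sm F := by
    apply h.dual.memF
    intro x hx
    rw [dotProduct_sub, dotProduct_smul, smul_eq_mul, hz x hx, sub_self]
  -- the image of `c1` is divisible by `p`
  have hdiv : ∀ i, (p : ℤ) ∣ f ⟨c1, hc1C⟩ i := by
    intro i
    obtain ⟨y, hy⟩ := h.dual.repC
      { toFun := fun x => f x ⬝ᵥ (Pi.single i (1 : ℤ))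
        map_add' := fun a b => by rw [map_add, add_dotProduct]
        map_smul' := fun c a => by rw [map_smul, smul_dotProduct]; rfl }
    have hy1 : ∀ x : Sm C, f x ⬝ᵥ (Pi.single i (1 : ℤ)) = (x : (Σ j, E j) → ℤ) ⬝ᵥ y := hy
    have h1 := hy1 ⟨c1, hc1C⟩
    rw [dotProduct_single, mul_one] at h1
    rw [h1, dotProduct_comm]
    exact hc1p _ ⟨y, fun e _ => rfl, _, hy1⟩
  choose w hw using hdiv
  have hfw : f ⟨c1, hc1C⟩ = (p : ℤ) • w := by
    funext i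
    rw [hw, Pi.smul_apply, smul_eq_mul]
  have hmem := hX z (fun q hq => res_off hq) ⟨w, fun x => by
    have h1 := h.isoC x ⟨c1, hc1C⟩
    rw [hfw, dotProduct_smul, smul_eq_mul] at h1
    have h2 := hz x x.2
    change (x : (Σ j, E j) → ℤ) ⬝ᵥ c1 = _ at h2
    exact mul_left_cancel₀ hp0 (h1.trans h2)⟩
  obtain ⟨c, hc, f', hf', he⟩ := Submodule.mem_sup.1 hmem
  have h3 : (p : ℤ) • c - c1 = ((p : ℤ) • z - c1) - (p : ℤ) • f' := by
    rw [← he, smul_add]; abel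
  have h4 : (p : ℤ) • c - c1 ∈ Sm F := by
    rw [h3]; exact (Sm F).sub_mem hf1 ((Sm F).smul_mem _ hf')
  have h5 : (p : ℤ) • c - c1 ∈ Sm C := (Sm C).sub_mem ((Sm C).smul_mem _ hc) hc1C
  have h6 := eq_zero_of_dot (h.dual.orth _ h5 _ h4)
  apply hrn
  intro e
  by_cases heX : e.1 ∈ X
  · have h7 := congrFun h6 e
    have h8 := congrFun hc1 e
    rw [res_on heX] at h8
    simp only [Pi.sub_apply, Pi.smul_apply, smul_eq_mul, Pi.zero_apply] at h7 h8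
    exact ⟨c e + t e, by linarith⟩
  · exact hoff e heX

/-- a single anisotropic summand -/
theorem triv_of_aniso (h : Emb (Sm C) (Sm F) f g) (hd : ∀ j, Dual (C j) (F j)) {j : Fin n}
    (ha : Aniso (C j) (F j)) : Triv C F f {j} := by
  intro z hz ⟨w, hw⟩
  obtain ⟨m, hm, a, haC, b, hbF, hab⟩ := h.split z
  have hfa := h.smul_eq hw (x := ⟨a, haC⟩) hbF hab
  have h0 : ∀ k, k ≠ j → (fun e => a ⟨k, e⟩) = 0 := by
    intro k hkj
    have h1 : (fun e => a ⟨k, e⟩) + (fun e => b ⟨k, e⟩) = 0 := by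
      funext e
      have h2 := congrFun hab ⟨k, e⟩
      rw [Pi.smul_apply, hz ⟨k, e⟩ (by simpa using hkj), smul_zero] at h2
      exact h2.symm
    have h3 : (fun e => a ⟨k, e⟩) ∈ F k := by
      rw [eq_neg_of_add_eq_zero_left h1]
      exact (F k).neg_mem (hbF k)
    exact eq_zero_of_dot ((hd k).orth _ (haC k) _ h3)
  have hnorm : (fun e => a ⟨j, e⟩) ⬝ᵥ (fun e => a ⟨j, e⟩) = m ^ 2 * (w ⬝ᵥ w) := by
    have h1 := h.isoC ⟨a, haC⟩ ⟨a, haC⟩
    rw [← hfa, smul_dotProduct, dotProduct_smul, smul_eq_mul, smul_eq_mul] at h1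
    have h2 : a ⬝ᵥ a = (fun e => a ⟨j, e⟩) ⬝ᵥ (fun e => a ⟨j, e⟩) := by
      rw [dot_sum, sum_eq_single_of_mem j (mem_univ j)]
      intro k _ hkj
      rw [h0 k hkj, dotProduct_zero]
    rw [← h2, ← h1]; ring
  have hmem := ha (fun e => z ⟨j, e⟩) (fun e => a ⟨j, e⟩) (haC j) (fun e => b ⟨j, e⟩) (hbF j) m
    hm.ne' (by
      funext e'
      exact congrFun hab ⟨j, e'⟩) (by rw [hnorm]; exact dvd_mul_right _ _)
  rw [mem_sup_Sm]
  intro k
  by_cases hk : k = j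
  · subst hk; exact hmem
  · have h1 : (fun e => z ⟨k, e⟩) = 0 := funext fun e => hz ⟨k, e⟩ (by simpa using hk)
    rw [h1]
    exact Submodule.zero_mem _

theorem exists_pmX (h : Emb (Sm C) (Sm F) f g)
    (ho : ∀ j, OddDet (C j) (F j)) (hc : ∀ j, Cub (C j) (F j))
    (X : Finset (Fin n)) (hX : Triv C F f X) {δ : (Σ j, E j) → ℤ} (hδ : Pm δ) :
    (∃ ε : κ → ℤ, Pm ε ∧ ∀ x : Sm C, (∀ p, p.1 ∉ X → (x : (Σ j, E j) → ℤ) p = 0) →
      f x ⬝ᵥ ε = (x : (Σ j, E j) → ℤ) ⬝ᵥ δ) ∧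
    ∃ ε : κ' → ℤ, Pm ε ∧ ∀ x : Sm F, (∀ p, p.1 ∉ X → (x : (Σ j, E j) → ℤ) p = 0) →
      g x ⬝ᵥ ε = (x : (Σ j, E j) → ℤ) ⬝ᵥ δ := by
  obtain ⟨z₀, hz₀, w₀, hw₀⟩ := h.exists_odd
  have hev : ∀ p, ∃ t, δ p - z₀ p = 2 * t := by
    intro p
    obtain ⟨a, ha'⟩ := hδ.odd p
    obtain ⟨b, hb⟩ := hz₀ p
    exact ⟨a - b, by rw [ha', hb]; ring⟩
  choose t ht using hev
  obtain ⟨z₁, hz₁, w₁, hw₁⟩ := surjX h X hX t
  set z : (Σ j, E j) → ℤ := z₀ + (2 : ℤ) • z₁ with hz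
  have hzo : OddV z := by
    intro p
    obtain ⟨b, hb⟩ := hz₀ p
    exact ⟨b + z₁ p, by rw [hz, Pi.add_apply, Pi.smul_apply, hb, smul_eq_mul]; ring⟩
  have hzj : ∀ p, p.1 ∈ X → z p = δ p := by
    intro p hp
    rw [hz, Pi.add_apply, Pi.smul_apply, hz₁ p hp, smul_eq_mul, ← ht]; ring
  set w : κ → ℤ := w₀ + (2 : ℤ) • w₁ with hwd
  have hw : ∀ x : Sm C, f x ⬝ᵥ w = (x : (Σ j, E j) → ℤ) ⬝ᵥ z := by
    intro x
    rw [hwd, hz, dotProduct_add, dotProduct_add, dotProduct_smul, dotProduct_smul, hw₀, hw₁]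
  obtain ⟨w', hw'⟩ := (h.comp z).1 ⟨w, hw⟩
  have hex : ∀ k, ∃ δ' : E k → ℤ, ∃ c ∈ C k, ∃ y ∈ F k, Pm δ' ∧
      (fun e => z ⟨k, e⟩) = δ' + (2 : ℤ) • c + (2 : ℤ) • y ∧ (k ∈ X → c = 0 ∧ y = 0) := by
    intro k
    by_cases hk : k ∈ X
    · exact ⟨fun e => z ⟨k, e⟩, 0, (C k).zero_mem, 0, (F k).zero_mem, fun e => by
        change z ⟨k, e⟩ = 1 ∨ z ⟨k, e⟩ = -1
        rw [hzj _ hk]; exact hδ _, by simp, fun _ => ⟨rfl, rfl⟩⟩
    · obtain ⟨δ', h1, c, h2, y, h3, h4⟩ := hc k (fun e => z ⟨k, e⟩) fun e => hzo _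
      exact ⟨δ', c, h2, y, h3, h1, h4, fun h' => absurd h' hk⟩
  choose δ' c hcC y hyF hpm hdec h0 using hex
  set Δ : (Σ j, E j) → ℤ := fun p => δ' p.1 p.2 with hΔ
  let cc : Sm C := ⟨fun p => c p.1 p.2, fun k => hcC k⟩
  let yy : Sm F := ⟨fun p => y p.1 p.2, fun k => hyF k⟩
  have hzΔ : z = Δ + (2 : ℤ) • (cc : (Σ j, E j) → ℤ) + (2 : ℤ) • (yy : (Σ j, E j) → ℤ) := by
    funext ⟨k, e⟩
    exact congrFun (hdec k) e
  have hΔpm : Pm Δ := fun p => hpm p.1 p.2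
  have e1 : ∀ x : Sm C, f x ⬝ᵥ (w - (2 : ℤ) • f cc) = (x : (Σ j, E j) → ℤ) ⬝ᵥ Δ := by
    intro x
    rw [dotProduct_sub, dotProduct_smul, hw, h.isoC, hzΔ, dotProduct_add, dotProduct_add,
      dotProduct_smul, dotProduct_smul, h.dual.orth _ x.2 _ yy.2]
    simp
  have e2 : ∀ x : Sm F, g x ⬝ᵥ (w' - (2 : ℤ) • g yy) = (x : (Σ j, E j) → ℤ) ⬝ᵥ Δ := by
    intro x
    rw [dotProduct_sub, dotProduct_smul, hw', h.isoF, hzΔ, dotProduct_add, dotProduct_add,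
      dotProduct_smul, dotProduct_smul, dotProduct_comm (x : (Σ j, E j) → ℤ)
        (cc : (Σ j, E j) → ℤ), h.dual.orth _ cc.2 _ x.2]
    simp
  have hO := oddDet_Sm ho
  have o1 := h.odd hO hΔpm.odd e1
  have o2 := h.symm.odd hO.symm hΔpm.odd e2
  have hnorm := h.norm e1 e2
  rw [norm_of_pm hΔpm, ← h.rk] at hnorm
  push_cast at hnorm
  have l1 := card_le_of_odd o1
  have l2 := card_le_of_odd o2
  have hj : ∀ p, p.1 ∈ X → Δ p = δ p := by
    rintro ⟨k, e⟩ hk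
    have h1 := congrFun (hdec k) e
    rw [(h0 k hk).1, (h0 k hk).2, hzj _ hk] at h1
    simpa using h1.symm
  have hdot : ∀ x : (Σ j, E j) → ℤ, (∀ p, p.1 ∉ X → x p = 0) → x ⬝ᵥ Δ = x ⬝ᵥ δ := by
    intro x hx
    apply sum_congr rfl
    intro p _
    by_cases hp : p.1 ∈ X
    · rw [hj p hp]
    · rw [hx p hp, zero_mul, zero_mul]
  refine ⟨⟨_, pm_of_norm o1 (by linarith), fun x hx => ?_⟩,
    ⟨_, pm_of_norm o2 (by linarith), fun x hx => ?_⟩⟩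
  · rw [e1, hdot _ hx]
  · rw [e2, hdot _ hx]

/-- maps which realise all sign vectors preserve unit vectors -/
theorem unit_of_pm {K κ : Type} [Fintype K] [Fintype κ] {x : K → ℤ} {v : κ → ℤ}
    (hx : ∀ e, |x e| ≤ 1) (hn : v ⬝ᵥ v = x ⬝ᵥ x) {ε : κ → ℤ} (hε : Pm ε)
    (he : v ⬝ᵥ ε = x ⬝ᵥ fun e => if 0 ≤ x e then 1 else -1) (i : κ) : |v i| ≤ 1 := by
  have h2 : x ⬝ᵥ (fun e => if 0 ≤ x e then (1 : ℤ) else -1) = x ⬝ᵥ x := by
    rw [dotProduct, dotProduct]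
    apply sum_congr rfl
    intro e _
    have h3 := abs_le.1 (hx e)
    have h4 : x e = -1 ∨ x e = 0 ∨ x e = 1 := by omega
    rcases h4 with h4 | h4 | h4 <;> rw [h4] <;> norm_num
  rw [h2, ← hn] at he
  have h5 : ∀ i ∈ (univ : Finset κ), v i * ε i ≤ v i * v i := by
    intro i _
    have := Int.le_self_sq (v i)
    have := Int.le_self_sq (-v i)
    rcases hε i with h' | h' <;> rw [h'] <;> nlinarith
  have h7 := (sum_eq_sum_iff_of_le h5).1 he i (mem_univ i)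
  have h8 : v i * (v i - ε i) = 0 := by linear_combination -h7
  rcases mul_eq_zero.1 h8 with h9 | h9
  · rw [h9]; norm_num
  · have h10 : v i = ε i := by linarith
    rcases hε i with h' | h' <;> rw [h10, h'] <;> norm_num

theorem unit_presX (h : Emb (Sm C) (Sm F) f g)
    (ho : ∀ j, OddDet (C j) (F j)) (hc : ∀ j, Cub (C j) (F j))
    (X : Finset (Fin n)) (hX : Triv C F f X) :
    (∀ x : Sm C, (∀ p, p.1 ∉ X → (x : (Σ j, E j) → ℤ) p = 0) →
      (∀ p, |(x : (Σ j, E j) → ℤ) p| ≤ 1) → ∀ i, |f x i| ≤ 1) ∧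
    ∀ x : Sm F, (∀ p, p.1 ∉ X → (x : (Σ j, E j) → ℤ) p = 0) →
      (∀ p, |(x : (Σ j, E j) → ℤ) p| ≤ 1) → ∀ i, |g x i| ≤ 1 := by
  have hpm : ∀ x : (Σ j, E j) → ℤ, Pm fun e => if 0 ≤ x e then (1 : ℤ) else -1 := by
    intro x e
    by_cases h' : 0 ≤ x e
    · left; exact if_pos h'
    · right; exact if_neg h'
  constructor
  · intro x hx0 hx i
    obtain ⟨ε, hε, he⟩ := (exists_pmX h ho hc X hX (hpm x)).1
    exact unit_of_pm hx (h.isoC x x) hε (he x hx0) i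
  · intro x hx0 hx i
    obtain ⟨ε, hε, he⟩ := (exists_pmX h ho hc X hX (hpm x)).2
    exact unit_of_pm hx (h.isoF x x) hε (he x hx0) i

end Pool.Agent.H758.SQ
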