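import Pool.Agent.H758.SQ.Main
import Pool.Agent.H758.SQ.Y

/-!
# Summands which are not met by the metabolizer
-/

set_option autoImplicit false
set_option linter.unusedSectionVars false

namespace Pool.Agent.H758.SQ

open Finset Matrix
open Pool.Agent.H762.TG (Multigraph dot_self dot_self_nonneg eq_zero_of_dot)
open Pool.Agent.H758.SR (rank IsIsometry Extends)

section S

variable {n : ℕ} {E : Fin n → Type} [∀ j, Fintype (E j)] [∀ j, DecidableEq (E j)]
  {κ κ' : Type} [Fintype κ] [DecidableEq κ] [Fintype κ'] [DecidableEq κ']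
  {C F : ∀ j, Submodule ℤ (E j → ℤ)} {f : Sm C →ₗ[ℤ] (κ → ℤ)} {g : Sm F →ₗ[ℤ] (κ' → ℤ)}

/-- every coordinate is used at least twice if the metabolizer meets no summand -/
theorem used_twice_of_triv (h : Emb (Sm C) (Sm F) f g) (hd : ∀ j, Dual (C j) (F j))
    (ht : ∀ j, Triv C F f {j}) (hb : ∀ j e, ∃ y ∈ F j, y e ≠ 0)
    {τ : ∀ j, E j → κ} {η : ∀ j, E j → ℤˣ} (hs : ∀ j, Std f j (τ j) (η j)) (i : κ) :
    2 ≤ (univ.filter fun p : Σ j, E j => τ p.1 p.2 = i).card := by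
  by_contra hcon
  obtain ⟨k, hk, x, hx⟩ := h.mul (Pi.single i 1)
  have hki : f x i = k := by
    rw [← hx]; simp
  obtain ⟨j, e, hje⟩ : ∃ j e, τ j e = i := by
    by_contra hno
    push Not at hno
    have h1 : f x i = 0 := by
      rw [f_eq_sum]
      exact sum_eq_zero fun j _ => (hs j).2.2 _ i fun e => hno j e
    rw [hki] at h1
    exact hk.ne' h1
  have honly : ∀ j' e', τ j' e' = i → (⟨j', e'⟩ : Σ j, E j) = ⟨j, e⟩ := by
    intro j' e' h'
    by_contra hne
    apply hcon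
    have h1 : ({⟨j', e'⟩, ⟨j, e⟩} : Finset (Σ j, E j)) ⊆
        univ.filter fun p : Σ j, E j => τ p.1 p.2 = i := by
      intro p hp
      rw [mem_insert, mem_singleton] at hp
      rcases hp with rfl | rfl
      · exact mem_filter.2 ⟨mem_univ _, h'⟩
      · exact mem_filter.2 ⟨mem_univ _, hje⟩
    have h2 := card_le_card h1
    rwa [card_pair hne] at h2
  have hfun : ∀ x' : Sm C, f x' i = η j e * (x' : (Σ j, E j) → ℤ) ⟨j, e⟩ := by
    intro x'
    rw [f_eq_sum, sum_eq_single_of_mem j (mem_univ j)]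
    · rw [← hje, (hs j).2.1]
    · intro j' _ hj'
      apply (hs j').2.2
      intro e' he'
      exact hj' (congrArg Sigma.fst (honly j' e' he'))
  set z : E j → ℤ := (η j e : ℤ) • Pi.single e 1 with hz
  have hext : ∀ x' : Sm C, f x' ⬝ᵥ (Pi.single i (1 : ℤ)) = (x' : (Σ j, E j) → ℤ) ⬝ᵥ ex j z := by
    intro x'
    rw [dotProduct_single, mul_one, hfun, dotProduct_comm (x' : (Σ j, E j) → ℤ), ex_dot, hz,
      smul_dotProduct, single_dotProduct, one_mul, smul_eq_mul]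
  have hmem := ht j (ex j z) (fun p hp => by
    obtain ⟨k, e'⟩ := p
    exact ex_ne _ _ (by simpa using hp)) ⟨_, hext⟩
  obtain ⟨c, hc, y, hy, hcy⟩ := Submodule.mem_sup.1 ((mem_sup_Sm.1 hmem) j)
  have hcy' : c + y = z := by
    rw [hcy]
    funext e'
    exact ex_same j z e'
  have h5 : (1 : ℤ) • (Pi.single i (1 : ℤ) : κ → ℤ) = f (inj C j ⟨c, hc⟩) := by
    apply h.smul_eq hext (ex_mem (j := j) hy)
    rw [one_smul, inj_apply, ← map_add, ← hcy']
  have h6 := h.isoC (inj C j ⟨c, hc⟩) (inj C j ⟨c, hc⟩)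
  rw [← h5, one_smul, inj_apply, ex_dot, dotProduct_single, Pi.single_eq_same, mul_one] at h6
  have h7 : (fun e => (ex j c) ⟨j, e⟩) = c := funext fun e => ex_same j c e
  rw [h7] at h6
  exact no_unit (hd j) (hb j) hc h6.symm

/-- the three possibilities for a summand -/
theorem triv_of (h : Emb (Sm C) (Sm F) f g) (hd : ∀ j, Dual (C j) (F j))
    (ho : ∀ j, OddDet (C j) (F j)) (hc : ∀ j, Cub (C j) (F j))
    (ha : ∀ j, Aniso (C j) (F j) ∨ (∀ y ∈ F j, Even (y ⬝ᵥ y)) ∨ ∀ x ∈ C j, Even (x ⬝ᵥ x))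
    (j : Fin n) : Triv C F f {j} := by
  rcases ha j with h1 | h1 | h1
  · exact triv_of_aniso h hd h1
  · exact triv_of_even h hd ho hc h1
  · exact (triv_of_even h.symm (fun j => (hd j).symm) (fun j => (ho j).symm)
      (fun j => (hc j).symm) h1).symm h.symm

theorem off_inj (j : Fin n) (x : C j) (p : Σ j, E j) (hp : p.1 ∉ ({j} : Finset (Fin n))) :
    (inj C j x : (Σ j, E j) → ℤ) p = 0 := by
  obtain ⟨k, e⟩ := p
  exact ex_ne _ _ (by simpa using hp)

theorem le_inj (j : Fin n) (x : C j) (hx : ∀ e, |(x : E j → ℤ) e| ≤ 1) (p : Σ j, E j) :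
    |(inj C j x : (Σ j, E j) → ℤ) p| ≤ 1 := by
  obtain ⟨k, e⟩ := p
  by_cases hk : k = j
  · subst hk
    rw [inj_apply, ex_same]; exact hx e
  · rw [inj_apply, ex_ne _ _ hk]; norm_num

theorem unit_triv (h : Emb (Sm C) (Sm F) f g)
    (ho : ∀ j, OddDet (C j) (F j)) (hc : ∀ j, Cub (C j) (F j))
    (ht : ∀ j, Triv C F f {j}) (j : Fin n) (x : C j) (hx : ∀ e, |(x : E j → ℤ) e| ≤ 1) (i : κ) :
    |f (inj C j x) i| ≤ 1 :=
  (unit_presX h ho hc {j} (ht j)).1 _ (off_inj j x) (le_inj j x hx) i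

end S

end Pool.Agent.H758.SQ
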